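import Pool.Agent.Helper928.Sep.HT
set_option autoImplicit false
set_option maxRecDepth 100000

/-! Certificate data for `(c, f, y) = 0`. -/

namespace Pool.Agent.Helper928.Sep
open Pool.Agent.Helper928.NucCert

namespace D1

/-- constant polynomial -/
@[reducible] def K (k : ℤ) : Tri := .node k .nil .nil .nil .nil

def T0 : Tr := (.m (.m .x .x) .x)
def T1 : Tr := (.m .x (.m .x .x))
def T2 : Tr := (.m (.m .x .x) (.m .x .x))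
def T3 : Tr := (.m .x (.m .x (.m .x .x)))
def T4 : Tr := (.m (.m .x .x) (.m .x (.m .x (.m .x .x))))

/-- data -/
def e_rrr : Cert := (.node [⟨.x, T1, (K (.ofNat 11))⟩] .nil .nil .nil .nil)

/-- data -/
def e_rrl : Cert := (.node [⟨.x, T0, (K (.ofNat 16))⟩,
  ⟨.x, T1, (K (.negSucc 5))⟩] .nil .nil .nil .nil)

/-- data -/
def e_rr : Cert := (.node [⟨.x, T0, (.node (.ofNat 0) (K (.negSucc 1)) (K (.ofNat 6)) .nil .nil)⟩,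
  ⟨.x, T1, (.node (.ofNat 0) (K (.negSucc 18)) (K (.ofNat 3)) .nil .nil)⟩,
  ⟨.x, T2, (K (.ofNat 18))⟩,
  ⟨.x, T3, (K (.negSucc 14))⟩] e_rrr e_rrl .nil .nil)

/-- data -/
def e_rlr : Cert := (.node [⟨.x, T0, (K (.ofNat 4))⟩,
  ⟨.x, T1, (K (.ofNat 12))⟩] .nil .nil .nil .nil)

/-- data -/
def e_rll : Cert := (.node [⟨.x, T0, (K (.ofNat 4))⟩,
  ⟨.x, T1, (K (.negSucc 1))⟩] .nil .nil .nil .nil)

/-- data -/
def e_rl : Cert := (.node [⟨.x, T0, (.node (.ofNat 0) (K (.ofNat 1)) (K (.negSucc 1)) .nil .nil)⟩,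
  ⟨.x, T1, (.node (.ofNat 0) (K (.negSucc 24)) (K (.ofNat 8)) .nil .nil)⟩,
  ⟨.x, T2, (K (.ofNat 18))⟩,
  ⟨.x, T3, (K (.negSucc 17))⟩] e_rlr e_rll .nil .nil)

/-- data -/
def e_r : Cert := (.node [⟨.x, T0, (.node (.ofNat 0) (.node (.ofNat 0) (K (.ofNat 1)) (K (.ofNat 7)) .nil .nil) (.node (.ofNat 0) (K (.ofNat 4)) (K (.ofNat 6)) .nil .nil) .nil .nil)⟩,
  ⟨.x, T1, (.node (.ofNat 0) (.node (.ofNat 0) (K (.negSucc 3)) (K (.negSucc 6)) .nil .nil) (.node (.ofNat 0) (K (.negSucc 3)) (K (.negSucc 5)) .nil .nil) .nil .nil)⟩,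
  ⟨.x, T2, (.node (.ofNat 0) .nil (K (.ofNat 6)) .nil .nil)⟩,
  ⟨.x, T3, (.node (.ofNat 0) .nil (K (.negSucc 2)) .nil .nil)⟩] e_rr e_rl .nil .nil)

/-- data -/
def e_lrr : Cert := (.node [⟨.x, T0, (K (.negSucc 15))⟩,
  ⟨.x, T1, (K (.ofNat 23))⟩] .nil .nil .nil .nil)

/-- data -/
def e_lrl : Cert := (.node [⟨.x, T0, (K (.negSucc 2))⟩,
  ⟨.x, T1, (K (.ofNat 5))⟩] .nil .nil .nil .nil)

/-- data -/
def e_lr : Cert := (.node [⟨.x, T0, (.node (.ofNat 0) (K (.negSucc 1)) (K (.ofNat 1)) .nil .nil)⟩,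
  ⟨.x, T1, (.node (.ofNat 0) (K (.negSucc 21)) (K (.ofNat 5)) .nil .nil)⟩,
  ⟨.x, T2, (K (.ofNat 12))⟩,
  ⟨.x, T3, (K (.negSucc 14))⟩] e_lrr e_lrl .nil .nil)

/-- data -/
def e_llr : Cert := (.node [⟨.x, T0, (K (.negSucc 8))⟩,
  ⟨.x, T1, (K (.ofNat 17))⟩] .nil .nil .nil .nil)

/-- data -/
def e_lll : Cert := (.node [⟨.x, T0, (K (.negSucc 1))⟩] .nil .nil .nil .nil)

/-- data -/
def e_ll : Cert := (.node [⟨.x, T0, (.node (.ofNat 0) (K (.ofNat 3)) (K (.ofNat 1)) .nil .nil)⟩,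
  ⟨.x, T1, (.node (.ofNat 0) (K (.negSucc 8)) (K (.negSucc 0)) .nil .nil)⟩,
  ⟨.x, T2, (K (.ofNat 6))⟩,
  ⟨.x, T3, (K (.negSucc 5))⟩] e_llr e_lll .nil .nil)

/-- data -/
def e_l : Cert := (.node [⟨.x, T0, (.node (.ofNat 0) (.node (.ofNat 0) .nil (K (.negSucc 10)) .nil .nil) (.node (.ofNat 0) (K (.negSucc 7)) (K (.negSucc 4)) .nil .nil) .nil .nil)⟩,
  ⟨.x, T1, (.node (.ofNat 0) (.node (.ofNat 0) (K (.negSucc 2)) (K (.ofNat 5)) .nil .nil) (.node (.ofNat 0) (K (.ofNat 2)) (K (.ofNat 5)) .nil .nil) .nil .nil)⟩,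
  ⟨.x, T2, (.node (.ofNat 0) .nil (K (.negSucc 5)) .nil .nil)⟩,
  ⟨.x, T3, (.node (.ofNat 0) (K (.ofNat 3)) .nil .nil .nil)⟩] e_lr e_ll .nil .nil)

/-- data -/
def e : Cert := (.node [⟨.x, T0, (.node (.ofNat 0) (.node (.ofNat 0) (.node (.ofNat 0) (K (.ofNat 7)) (K (.negSucc 40)) .nil .nil) (.node (.ofNat 0) (K (.ofNat 9)) (K (.negSucc 37)) .nil .nil) .nil .nil) (.node (.ofNat 0) (.node (.ofNat 0) (K (.ofNat 42)) (K (.negSucc 4)) .nil .nil) (.node (.ofNat 0) (K (.ofNat 32)) .nil .nil .nil) .nil .nil) .nil .nil)⟩,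
  ⟨.x, T1, (.node (.ofNat 0) (.node (.ofNat 0) (.node (.ofNat 0) (K (.ofNat 6)) (K (.negSucc 1)) .nil .nil) (.node (.ofNat 0) (K (.negSucc 0)) (K (.ofNat 6)) .nil .nil) .nil .nil) (.node (.ofNat 0) (.node (.ofNat 0) (K (.ofNat 2)) (K (.ofNat 3)) .nil .nil) (.node (.ofNat 0) (K (.negSucc 3)) (K (.ofNat 2)) .nil .nil) .nil .nil) .nil .nil)⟩,
  ⟨.x, T2, (.node (.ofNat 0) .nil (.node (.ofNat 0) .nil (K (.negSucc 5)) .nil .nil) .nil .nil)⟩,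
  ⟨.x, T3, (.node (.ofNat 0) (.node (.ofNat 0) (K (.ofNat 9)) (K (.negSucc 2)) .nil .nil) (.node (.ofNat 0) .nil (K (.negSucc 5)) .nil .nil) .nil .nil)⟩,
  ⟨.x, T4, (K (.negSucc 5))⟩] e_r e_l .nil .nil)

end D1

end Pool.Agent.Helper928.Sep
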