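import Pool.Agent.Helper928.Sep.HT
set_option autoImplicit false
set_option maxRecDepth 100000

/-! Certificate data for the expression of `[c, f] y`. -/

namespace Pool.Agent.Helper928.Sep
open Pool.Agent.Helper928.NucCert

namespace D2

/-- constant polynomial -/
@[reducible] def K (k : ℤ) : Tri := .node k .nil .nil .nil .nil

def T0 : Tr := (.m (.m .x .x) .x)
def T1 : Tr := (.m .x (.m .x .x))
def T2 : Tr := (.m (.m .x .x) (.m .x .x))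
def T3 : Tr := (.m .x (.m .x (.m .x .x)))
def T4 : Tr := (.m (.m .x .x) (.m .x (.m .x (.m .x .x))))
def T5 : Tr := (.m .x (.m .x (.m .x (.m (.m .x .x) .x))))

/-- data -/
def g_rrr : Cert := (.node [⟨.x, T0, (K (.ofNat 60))⟩,
  ⟨.x, T1, (K (.ofNat 1034))⟩] .nil .nil .nil .nil)

/-- data -/
def g_rrl : Cert := (.node [⟨.x, T0, (K (.negSucc 2869))⟩,
  ⟨.x, T1, (K (.negSucc 845))⟩] .nil .nil .nil .nil)

/-- data -/
def g_rr : Cert := (.node [⟨.x, T0, (.node (.ofNat 0) (K (.negSucc 1129)) (K (.negSucc 149)) .nil .nil)⟩,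
  ⟨.x, T1, (.node (.ofNat 0) (K (.negSucc 2811)) (K (.ofNat 108)) .nil .nil)⟩,
  ⟨.x, T2, (K (.negSucc 911))⟩,
  ⟨.x, T3, (K (.negSucc 2201))⟩] g_rrr g_rrl .nil .nil)

/-- data -/
def g_rlr : Cert := (.node [⟨.x, T0, (K (.negSucc 655))⟩,
  ⟨.x, T1, (K (.negSucc 1379))⟩] .nil .nil .nil .nil)

/-- data -/
def g_rll : Cert := (.node [⟨.x, T0, (K (.ofNat 1354))⟩,
  ⟨.x, T1, (K (.negSucc 3961))⟩] .nil .nil .nil .nil)

/-- data -/
def g_rl : Cert := (.node [⟨.x, T0, (.node (.ofNat 0) (K (.negSucc 241)) (K (.negSucc 2815)) .nil .nil)⟩,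
  ⟨.x, T1, (.node (.ofNat 0) (K (.negSucc 729)) (K (.ofNat 1820)) .nil .nil)⟩,
  ⟨.x, T2, (K (.negSucc 1739))⟩,
  ⟨.x, T3, (K (.negSucc 1607))⟩] g_rlr g_rll .nil .nil)

/-- data -/
def g_r : Cert := (.node [⟨.x, T0, (.node (.ofNat 0) (.node (.ofNat 0) (K (.negSucc 931)) (K (.negSucc 769)) .nil .nil) (.node (.ofNat 0) (K (.negSucc 1411)) (K (.negSucc 113)) .nil .nil) .nil .nil)⟩,
  ⟨.x, T1, (.node (.ofNat 0) (.node (.ofNat 0) (K (.ofNat 3416)) (K (.ofNat 6170)) .nil .nil) (.node (.ofNat 0) (K (.ofNat 6428)) (K (.ofNat 3948)) .nil .nil) .nil .nil)⟩,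
  ⟨.x, T2, (.node (.ofNat 0) .nil (K (.ofNat 276)) .nil .nil)⟩,
  ⟨.x, T3, (.node (.ofNat 0) (K (.ofNat 1296)) (K (.negSucc 113)) .nil .nil)⟩] g_rr g_rl .nil .nil)

/-- data -/
def g_lrr : Cert := (.node [⟨.x, T0, (K (.ofNat 3434))⟩,
  ⟨.x, T1, (K (.ofNat 1136))⟩] .nil .nil .nil .nil)

/-- data -/
def g_lrl : Cert := (.node [⟨.x, T0, (K (.ofNat 2634))⟩,
  ⟨.x, T1, (K (.ofNat 290))⟩] .nil .nil .nil .nil)

/-- data -/
def g_lr : Cert := (.node [⟨.x, T0, (.node (.ofNat 0) (K (.negSucc 343)) (K (.negSucc 2173)) .nil .nil)⟩,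
  ⟨.x, T1, (.node (.ofNat 0) (K (.negSucc 1011)) (K (.ofNat 2102)) .nil .nil)⟩,
  ⟨.x, T2, (K (.negSucc 2015))⟩,
  ⟨.x, T3, (K (.negSucc 1709))⟩] g_lrr g_lrl .nil .nil)

/-- data -/
def g_llr : Cert := (.node [⟨.x, T0, (K (.ofNat 972))⟩,
  ⟨.x, T1, (K (.ofNat 536))⟩] .nil .nil .nil .nil)

/-- data -/
def g_lll : Cert := (.node [⟨.x, T0, (K (.ofNat 3004))⟩,
  ⟨.x, T1, (K (.negSucc 2003))⟩] .nil .nil .nil .nil)

/-- data -/
def g_ll : Cert := (.node [⟨.x, T0, (.node (.ofNat 0) (K (.negSucc 383)) (K (.negSucc 2851)) .nil .nil)⟩,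
  ⟨.x, T1, (.node (.ofNat 0) (K (.ofNat 3672)) (K (.ofNat 2588)) .nil .nil)⟩,
  ⟨.x, T2, (K (.negSucc 2735))⟩,
  ⟨.x, T3, (K (.ofNat 1704))⟩] g_llr g_lll .nil .nil)

/-- data -/
def g_l : Cert := (.node [⟨.x, T0, (.node (.ofNat 0) (.node (.ofNat 0) (K (.negSucc 1067)) (K (.negSucc 2713)) .nil .nil) (.node (.ofNat 0) (K (.negSucc 2071)) (K (.negSucc 1993)) .nil .nil) .nil .nil)⟩,
  ⟨.x, T1, (.node (.ofNat 0) (.node (.ofNat 0) (K (.ofNat 1206)) (K (.ofNat 4370)) .nil .nil) (.node (.ofNat 0) (K (.ofNat 4652)) (K (.ofNat 3710)) .nil .nil) .nil .nil)⟩,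
  ⟨.x, T2, (.node (.ofNat 0) .nil (K (.negSucc 275)) .nil .nil)⟩,
  ⟨.x, T3, (.node (.ofNat 0) (K (.ofNat 498)) (K (.negSucc 59)) .nil .nil)⟩] g_lr g_ll .nil .nil)

/-- data -/
def g : Cert := (.node [⟨.x, T0, (.node (.ofNat 0) (.node (.ofNat 0) (.node (.ofNat 0) (K (.ofNat 2578)) (K (.negSucc 1183)) .nil .nil) (.node (.ofNat 0) (K (.ofNat 3726)) (K (.negSucc 2821)) .nil .nil) .nil .nil) (.node (.ofNat 0) (.node (.ofNat 0) (K (.ofNat 4332)) (K (.ofNat 298)) .nil .nil) (.node (.ofNat 0) (K (.ofNat 3962)) (K (.ofNat 2346)) .nil .nil) .nil .nil) .nil .nil)⟩,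
  ⟨.x, T1, (.node (.ofNat 0) (.node (.ofNat 0) (.node (.ofNat 0) (K (.negSucc 1781)) (K (.negSucc 6445)) .nil .nil) (.node (.ofNat 0) (K (.negSucc 5229)) (K (.negSucc 5051)) .nil .nil) .nil .nil) (.node (.ofNat 0) (.node (.ofNat 0) (K (.negSucc 1623)) (K (.negSucc 5309)) .nil .nil) (.node (.ofNat 0) (K (.negSucc 5925)) (K (.negSucc 3069)) .nil .nil) .nil .nil) .nil .nil)⟩,
  ⟨.x, T2, (.node (.ofNat 0) .nil (.node (.ofNat 0) .nil (K (.ofNat 1356)) .nil .nil) .nil .nil)⟩,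
  ⟨.x, T3, (.node (.ofNat 0) (.node (.ofNat 0) (K (.ofNat 948)) (K (.negSucc 713)) .nil .nil) (.node (.ofNat 0) .nil (K (.negSucc 2105)) .nil .nil) .nil .nil)⟩,
  ⟨.x, T4, (K (.ofNat 828))⟩,
  ⟨.x, T5, (K (.negSucc 1079))⟩] g_r g_l .nil .nil)

end D2

end Pool.Agent.Helper928.Sep
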