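import Pool.Agent.Helper928.Sep.HT
set_option autoImplicit false
set_option maxRecDepth 100000

/-! Certificate data for `(P1(y), x, z) + (P2(y), x x, z) = 0`. -/

namespace Pool.Agent.Helper928.Sep
open Pool.Agent.Helper928.NucCert

namespace D3

/-- constant polynomial -/
@[reducible] def K (k : ℤ) : Tri := .node k .nil .nil .nil .nil

def T0 : Tr := (.m .z .x)
def T1 : Tr := (.m .x .x)
def T2 : Tr := (.m (.m .x .x) .x)
def T3 : Tr := (.m .x (.m .x .x))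
def T4 : Tr := (.m .x (.m .z .x))
def T5 : Tr := (.m .z (.m .x .x))
def T6 : Tr := (.m (.m .x .x) (.m .x .x))
def T7 : Tr := (.m .x (.m .x (.m .x .x)))
def T8 : Tr := (.m .z (.m .x (.m .x .x)))
def T9 : Tr := (.m .x (.m (.m .x .x) .x))
def T10 : Tr := (.m .x (.m .x (.m (.m .x .x) .x)))
def T11 : Tr := (.m .x (.m .x (.m .x (.m .x .x))))
def T12 : Tr := (.m .z (.m .x (.m .x (.m (.m .x .x) .x))))
def T13 : Tr := (.m .x (.m .x (.m .x (.m (.m .x .x) .x))))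
def T14 : Tr := (.m .x (.m .x (.m .x (.m .x (.m .x .x)))))
def T15 : Tr := (.m .z (.m .x (.m .x (.m .x (.m (.m .x .x) .x)))))
def T16 : Tr := (.m .z (.m .x (.m .x (.m .x (.m .x (.m .x .x))))))
def T17 : Tr := (.m .z (.m (.m .x .x) .x))
def T18 : Tr := (.m .z (.m (.m .x .x) (.m .x .x)))
def T19 : Tr := (.m .z (.m .x (.m (.m .x .x) .x)))
def T20 : Tr := (.m .z (.m .x (.m .x (.m .x .x))))
def T21 : Tr := (.m .x (.m (.m .x .x) (.m .x .x)))
def T22 : Tr := (.m .x (.m .z (.m .x .x)))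

/-- data -/
def w_rrr : Cert := (.node [⟨.z, .x, (.node (.ofNat 0) (.node (.ofNat 0) (.node (.ofNat 0) (K (.negSucc 113381274)) (K (.ofNat 62780619)) .nil .nil) (.node (.ofNat 0) (K (.negSucc 545933575)) (K (.negSucc 98438362)) .nil .nil) .nil .nil) (.node (.ofNat 0) (.node (.ofNat 0) (K (.negSucc 194745524)) (K (.ofNat 206060771)) .nil .nil) (.node (.ofNat 0) (K (.negSucc 242733143)) (K (.negSucc 46618833)) .nil .nil) .nil .nil) .nil .nil)⟩,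
  ⟨.x, T0, (.node (.ofNat 0) (.node (.ofNat 0) (K (.negSucc 56588168)) (K (.negSucc 59519245)) .nil .nil) (.node (.ofNat 0) (K (.negSucc 283045067)) (K (.negSucc 342319627)) .nil .nil) .nil .nil)⟩,
  ⟨.z, T1, (.node (.ofNat 0) (.node (.ofNat 0) (K (.ofNat 192861813)) (K (.ofNat 251808524)) .nil .nil) (.node (.ofNat 0) (K (.ofNat 195857612)) (K (.negSucc 30559536)) .nil .nil) .nil .nil)⟩,
  ⟨.x, T2, (.node (.ofNat 0) .nil .nil .nil (K (.negSucc 146613193)))⟩,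
  ⟨.x, T3, (.node (.ofNat 0) .nil .nil (K (.negSucc 212668805)) .nil)⟩,
  ⟨.x, T4, (.node (.ofNat 0) (K (.ofNat 224708574)) (K (.ofNat 277151794)) .nil .nil)⟩,
  ⟨.x, T5, (.node (.ofNat 0) (K (.negSucc 38664135)) (K (.negSucc 54862184)) .nil .nil)⟩,
  ⟨.z, T2, (.node (.ofNat 0) (K (.negSucc 206095401)) (K (.negSucc 115740799)) .nil .nil)⟩,
  ⟨.z, T3, (.node (.ofNat 0) (K (.negSucc 220018129)) (K (.negSucc 158462880)) .nil .nil)⟩,
  ⟨.x, T17, (K (.negSucc 130246495))⟩,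
  ⟨.x, T8, (K (.negSucc 112591047))⟩,
  ⟨.z, T6, (K (.negSucc 30380831))⟩,
  ⟨.z, T9, (K (.negSucc 124731151))⟩,
  ⟨.z, T7, (K (.negSucc 103032399))⟩] (.node [⟨.z, .x, (.node (.ofNat 0) (.node (.ofNat 0) (K (.ofNat 164592504)) (K (.ofNat 179586337)) .nil .nil) (.node (.ofNat 0) (K (.ofNat 160387092)) (K (.ofNat 147525037)) .nil .nil) .nil .nil)⟩,
  ⟨.x, T0, (.node (.ofNat 0) (K (.negSucc 2469237)) (K (.ofNat 16730007)) .nil .nil)⟩,
  ⟨.z, T1, (.node (.ofNat 0) (K (.ofNat 132531204)) (K (.ofNat 123874561)) .nil .nil)⟩,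
  ⟨.x, T4, (K (.ofNat 135000442))⟩,
  ⟨.x, T5, (K (.ofNat 32061300))⟩,
  ⟨.z, T2, (K (.negSucc 4205411))⟩,
  ⟨.z, T3, (K (.ofNat 27855888))⟩] (.node [⟨.z, .x, (.node (.ofNat 0) (K (.ofNat 232893564)) (K (.ofNat 232893564)) .nil .nil)⟩,
  ⟨.x, T0, (K (.ofNat 232893564))⟩,
  ⟨.z, T1, (K (.ofNat 232916892))⟩] (.node [⟨.z, .x, (K (.ofNat 11664))⟩] .nil .nil .nil .nil) (.node [⟨.z, .x, (K (.negSucc 100879903))⟩] .nil .nil .nil .nil) .nil .nil) (.node [⟨.z, .x, (.node (.ofNat 0) (K (.negSucc 665660083)) (K (.negSucc 296436440)) .nil .nil)⟩,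
  ⟨.x, T0, (K (.negSucc 466935239))⟩,
  ⟨.z, T1, (K (.negSucc 225250679))⟩] (.node [⟨.z, .x, (K (.ofNat 27914208))⟩] .nil .nil .nil .nil) (.node [⟨.z, .x, (K (.ofNat 144169052))⟩] .nil .nil .nil .nil) .nil .nil) .nil .nil) (.node [⟨.z, .x, (.node (.ofNat 0) (.node (.ofNat 0) (K (.ofNat 185732091)) (K (.negSucc 325278731)) .nil .nil) (.node (.ofNat 0) (K (.ofNat 355340040)) (K (.negSucc 368475815)) .nil .nil) .nil .nil)⟩,
  ⟨.x, T0, (.node (.ofNat 0) (K (.negSucc 213669829)) (K (.negSucc 441532016)) .nil .nil)⟩,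
  ⟨.z, T1, (.node (.ofNat 0) (K (.negSucc 282762241)) (K (.negSucc 425403529)) .nil .nil)⟩,
  ⟨.x, T4, (K (.negSucc 80263509))⟩,
  ⟨.x, T5, (K (.ofNat 224650108))⟩,
  ⟨.z, T2, (K (.ofNat 38763232))⟩,
  ⟨.z, T3, (K (.ofNat 7833488))⟩] (.node [⟨.z, .x, (.node (.ofNat 0) (K (.negSucc 225237525)) (K (.negSucc 15681840)) .nil .nil)⟩,
  ⟨.x, T0, (K (.negSucc 5219395))⟩,
  ⟨.z, T1, (K (.negSucc 65815939))⟩] (.node [⟨.z, .x, (K (.ofNat 96550076))⟩] .nil .nil .nil .nil) (.node [⟨.z, .x, (K (.ofNat 80269780))⟩] .nil .nil .nil .nil) .nil .nil) (.node [⟨.z, .x, (.node (.ofNat 0) (K (.negSucc 580500399)) (K (.negSucc 223828174)) .nil .nil)⟩,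
  ⟨.x, T0, (K (.negSucc 350567073))⟩,
  ⟨.z, T1, (K (.negSucc 479576575))⟩] (.node [⟨.z, .x, (K (.ofNat 118881384))⟩] .nil .nil .nil .nil) (.node [⟨.z, .x, (K (.ofNat 271058312))⟩] .nil .nil .nil .nil) .nil .nil) .nil .nil) (.node [⟨.x, T2, (K (.ofNat 7653420))⟩,
  ⟨.x, T3, (K (.negSucc 47468819))⟩] .nil .nil .nil .nil) .nil)

/-- data -/
def w_rrl : Cert := (.node [⟨.z, .x, (.node (.ofNat 0) (.node (.ofNat 0) (.node (.ofNat 0) (K (.ofNat 760091817)) (K (.ofNat 453494210)) .nil .nil) (.node (.ofNat 0) (K (.ofNat 474552579)) (K (.negSucc 917741090)) .nil .nil) .nil .nil) (.node (.ofNat 0) (.node (.ofNat 0) (K (.ofNat 237018436)) (K (.ofNat 166453266)) .nil .nil) (.node (.ofNat 0) (K (.ofNat 228717673)) (K (.negSucc 416121056)) .nil .nil) .nil .nil) .nil .nil)⟩,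
  ⟨.x, T0, (.node (.ofNat 0) (.node (.ofNat 0) (K (.ofNat 760342968)) (K (.ofNat 380654794)) .nil .nil) (.node (.ofNat 0) (K (.ofNat 550375810)) (K (.negSucc 663288909)) .nil .nil) .nil .nil)⟩,
  ⟨.z, T1, (.node (.ofNat 0) (.node (.ofNat 0) (K (.ofNat 149761937)) (K (.negSucc 70324471)) .nil .nil) (.node (.ofNat 0) (K (.ofNat 120283199)) (K (.negSucc 391116450)) .nil .nil) .nil .nil)⟩,
  ⟨.x, T2, (.node (.ofNat 0) .nil .nil .nil (K (.negSucc 87867628)))⟩,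
  ⟨.x, T3, (.node (.ofNat 0) .nil .nil (K (.negSucc 83853213)) .nil)⟩,
  ⟨.x, T4, (.node (.ofNat 0) (K (.ofNat 5763007)) (K (.ofNat 45879364)) .nil .nil)⟩,
  ⟨.x, T5, (.node (.ofNat 0) (K (.ofNat 65700351)) (K (.ofNat 97908456)) .nil .nil)⟩,
  ⟨.z, T2, (.node (.ofNat 0) (K (.negSucc 37450245)) (K (.ofNat 16431119)) .nil .nil)⟩,
  ⟨.z, T3, (.node (.ofNat 0) (K (.negSucc 62887359)) (K (.negSucc 11959044)) .nil .nil)⟩,
  ⟨.x, T17, (K (.negSucc 118022295))⟩,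
  ⟨.x, T8, (K (.ofNat 6963664))⟩,
  ⟨.z, T6, (K (.negSucc 100267157))⟩,
  ⟨.z, T9, (K (.ofNat 114265520))⟩,
  ⟨.z, T7, (K (.negSucc 98229097))⟩] (.node [⟨.z, .x, (.node (.ofNat 0) (.node (.ofNat 0) (K (.ofNat 84459816)) (K (.negSucc 82527159)) .nil .nil) (.node (.ofNat 0) (K (.ofNat 124809687)) (K (.negSucc 250740611)) .nil .nil) .nil .nil)⟩,
  ⟨.x, T0, (.node (.ofNat 0) (K (.negSucc 123458531)) (K (.ofNat 32929560)) .nil .nil)⟩,
  ⟨.z, T1, (.node (.ofNat 0) (K (.negSucc 17611436)) (K (.negSucc 106919657)) .nil .nil)⟩,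
  ⟨.x, T4, (K (.negSucc 25193174))⟩,
  ⟨.x, T5, (K (.ofNat 120959354))⟩,
  ⟨.z, T2, (K (.ofNat 87588302))⟩,
  ⟨.z, T3, (K (.negSucc 171016901))⟩] (.node [⟨.z, .x, (.node (.ofNat 0) (K (.ofNat 315698272)) (K (.ofNat 246411105)) .nil .nil)⟩,
  ⟨.x, T0, (K (.ofNat 323166030))⟩,
  ⟨.z, T1, (K (.ofNat 271804278))⟩] (.node [⟨.z, .x, (K (.ofNat 61185950))⟩] .nil .nil .nil .nil) (.node [⟨.z, .x, (K (.negSucc 7244923))⟩] .nil .nil .nil .nil) .nil .nil) (.node [⟨.z, .x, (.node (.ofNat 0) (K (.negSucc 392086343)) (K (.negSucc 137464851)) .nil .nil)⟩,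
  ⟨.x, T0, (K (.negSucc 348701203))⟩,
  ⟨.z, T1, (K (.negSucc 397434083))⟩] (.node [⟨.z, .x, (K (.ofNat 23426052))⟩] .nil .nil .nil .nil) (.node [⟨.z, .x, (K (.ofNat 224085042))⟩] .nil .nil .nil .nil) .nil .nil) .nil .nil) (.node [⟨.z, .x, (.node (.ofNat 0) (.node (.ofNat 0) (K (.ofNat 256492336)) (K (.negSucc 433274223)) .nil .nil) (.node (.ofNat 0) (K (.ofNat 357217128)) (K (.negSucc 251905056)) .nil .nil) .nil .nil)⟩,
  ⟨.x, T0, (.node (.ofNat 0) (K (.ofNat 9718277)) (K (.negSucc 523340164)) .nil .nil)⟩,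
  ⟨.z, T1, (.node (.ofNat 0) (K (.ofNat 75447551)) (K (.negSucc 411634976)) .nil .nil)⟩,
  ⟨.x, T4, (K (.ofNat 106560279))⟩,
  ⟨.x, T5, (K (.ofNat 24662365))⟩,
  ⟨.z, T2, (K (.ofNat 109130426))⟩,
  ⟨.z, T3, (K (.negSucc 163098951))⟩] (.node [⟨.z, .x, (.node (.ofNat 0) (K (.negSucc 193857724)) (K (.negSucc 19145495)) .nil .nil)⟩,
  ⟨.x, T0, (K (.negSucc 164051440))⟩,
  ⟨.z, T1, (K (.negSucc 196786829))⟩] (.node [⟨.z, .x, (K (.ofNat 49202452))⟩] .nil .nil .nil .nil) (.node [⟨.z, .x, (K (.ofNat 177754502))⟩] .nil .nil .nil .nil) .nil .nil) (.node [⟨.z, .x, (.node (.ofNat 0) (K (.negSucc 477935313)) (K (.ofNat 34196851)) .nil .nil)⟩,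
  ⟨.x, T0, (K (.negSucc 424255465))⟩,
  ⟨.z, T1, (K (.negSucc 299265169))⟩] (.node [⟨.z, .x, (K (.ofNat 74391850))⟩] .nil .nil .nil .nil) (.node [⟨.z, .x, (K (.ofNat 168210756))⟩] .nil .nil .nil .nil) .nil .nil) .nil .nil) .nil .nil)

/-- data -/
def w_rrp : Cert := (.node [⟨.x, T2, (.node (.ofNat 0) (K (.negSucc 51950121)) (K (.negSucc 20818457)) .nil .nil)⟩,
  ⟨.x, T3, (.node (.ofNat 0) (K (.ofNat 175951904)) (K (.negSucc 38529987)) .nil .nil)⟩,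
  ⟨.x, T6, (K (.negSucc 25565543))⟩,
  ⟨.x, T7, (K (.ofNat 13665198))⟩] (.node [⟨.x, T2, (K (.negSucc 3467447))⟩,
  ⟨.x, T3, (K (.negSucc 199428007))⟩] .nil .nil .nil .nil) (.node [⟨.x, T2, (K (.ofNat 84112360))⟩,
  ⟨.x, T3, (K (.ofNat 34571194))⟩] .nil .nil .nil .nil) .nil .nil)

/-- data -/
def w_rr : Cert := (.node [⟨.z, .x, (.node (.ofNat 0) (.node (.ofNat 0) (.node (.ofNat 0) (.node (.ofNat 0) (K (.negSucc 191845761)) (K (.negSucc 21238563)) .nil .nil) (.node (.ofNat 0) (K (.negSucc 318999930)) (K (.ofNat 381780736)) .nil .nil) .nil .nil) (.node (.ofNat 0) (.node (.ofNat 0) (K (.ofNat 301399878)) (K (.ofNat 163160996)) .nil .nil) (.node (.ofNat 0) (K (.ofNat 170252550)) (K (.ofNat 152771879)) .nil .nil) .nil .nil) .nil .nil) (.node (.ofNat 0) (.node (.ofNat 0) (.node (.ofNat 0) (K (.ofNat 25967630)) (K (.negSucc 32454124)) .nil .nil) (.node (.ofNat 0) (K (.ofNat 33700807)) (K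 (.ofNat 374547138)) .nil .nil) .nil .nil) (.node (.ofNat 0) (.node (.ofNat 0) (K (.ofNat 140753423)) (K (.negSucc 170285997)) .nil .nil) (.node (.ofNat 0) (K (.ofNat 25090598)) (K (.ofNat 60635520)) .nil .nil) .nil .nil) .nil .nil) .nil .nil)⟩,
  ⟨.x, T0, (.node (.ofNat 0) (.node (.ofNat 0) (.node (.ofNat 0) (K (.negSucc 134807217)) (K (.ofNat 165142891)) .nil .nil) (.node (.ofNat 0) (K (.negSucc 177582526)) (K (.ofNat 322188391)) .nil .nil) .nil .nil) (.node (.ofNat 0) (.node (.ofNat 0) (K (.ofNat 234801866)) (K (.ofNat 372118234)) .nil .nil) (.node (.ofNat 0) (K (.ofNat 233937528)) (K (.negSucc 182797783)) .nil .nil) .nil .nil) .nil .nil)⟩,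
  ⟨.z, T1, (.node (.ofNat 0) (.node (.ofNat 0) (.node (.ofNat 0) (K (.negSucc 469414842)) (K (.ofNat 154114882)) .nil .nil) (.node (.ofNat 0) (K (.negSucc 405027984)) (K (.ofNat 539250741)) .nil .nil) .nil .nil) (.node (.ofNat 0) (.node (.ofNat 0) (K (.negSucc 480857839)) (K (.ofNat 108879248)) .nil .nil) (.node (.ofNat 0) (K (.negSucc 338954501)) (K (.ofNat 153836819)) .nil .nil) .nil .nil) .nil .nil)⟩,
  ⟨.x, T2, (.node (.ofNat 0) (.node (.ofNat 0) .nil .nil .nil (K (.ofNat 25031094))) (.node (.ofNat 0) .nil .nil .nil (K (.negSucc 4296563))) .nil (.node (.ofNat 0) (K (.ofNat 68558284)) (K (.negSucc 113644461)) .nil .nil))⟩,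
  ⟨.x, T3, (.node (.ofNat 0) (.node (.ofNat 0) .nil .nil (K (.ofNat 81235688)) (K (.ofNat 67896206))) (.node (.ofNat 0) .nil .nil .nil (K (.negSucc 40486119))) (.node (.ofNat 0) (K (.ofNat 10062976)) (K (.negSucc 166777740)) .nil .nil) .nil)⟩,
  ⟨.x, T4, (.node (.ofNat 0) (.node (.ofNat 0) (K (.negSucc 491827758)) (K (.negSucc 232737308)) .nil .nil) (.node (.ofNat 0) (K (.negSucc 463490607)) (K (.ofNat 265081796)) .nil .nil) .nil .nil)⟩,
  ⟨.x, T5, (.node (.ofNat 0) (.node (.ofNat 0) (K (.ofNat 340394819)) (K (.ofNat 329729200)) .nil .nil) (.node (.ofNat 0) (K (.ofNat 308655660)) (K (.negSucc 89860102)) .nil .nil) .nil .nil)⟩,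
  ⟨.z, T2, (.node (.ofNat 0) (.node (.ofNat 0) (K (.ofNat 144557506)) (K (.negSucc 90892618)) .nil .nil) (.node (.ofNat 0) (K (.ofNat 125262032)) (K (.negSucc 119518419)) .nil .nil) .nil .nil)⟩,
  ⟨.z, T3, (.node (.ofNat 0) (.node (.ofNat 0) (K (.ofNat 112152169)) (K (.negSucc 48728388)) .nil .nil) (.node (.ofNat 0) (K (.ofNat 159135114)) (K (.negSucc 194413770)) .nil .nil) .nil .nil)⟩,
  ⟨.x, T6, (.node (.ofNat 0) .nil .nil .nil (K (.negSucc 5119955)))⟩,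
  ⟨.x, T7, (.node (.ofNat 0) .nil .nil (K (.ofNat 10156074)) .nil)⟩,
  ⟨.x, T17, (.node (.ofNat 0) .nil (K (.negSucc 127254567)) .nil .nil)⟩,
  ⟨.x, T8, (.node (.ofNat 0) (K (.ofNat 94394396)) (K (.negSucc 106493023)) .nil .nil)⟩,
  ⟨.z, T6, (.node (.ofNat 0) (K (.negSucc 68657)) (K (.ofNat 16882884)) .nil .nil)⟩,
  ⟨.z, T9, (.node (.ofNat 0) (K (.ofNat 21452046)) (K (.negSucc 126163551)) .nil .nil)⟩,
  ⟨.z, T7, (.node (.ofNat 0) (K (.negSucc 5384109)) (K (.negSucc 104515327)) .nil .nil)⟩,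
  ⟨.z, T10, (K (.negSucc 3054671))⟩,
  ⟨.z, T11, (K (.negSucc 3880223))⟩] w_rrr w_rrl w_rrp .nil)

/-- data -/
def w_rlr : Cert := (.node [⟨.z, .x, (.node (.ofNat 0) (.node (.ofNat 0) (.node (.ofNat 0) (K (.ofNat 241542975)) (K (.ofNat 90607919)) .nil .nil) (.node (.ofNat 0) (K (.negSucc 265868126)) (K (.negSucc 682109164)) .nil .nil) .nil .nil) (.node (.ofNat 0) (.node (.ofNat 0) (K (.ofNat 155868767)) (K (.ofNat 104043328)) .nil .nil) (.node (.ofNat 0) (K (.ofNat 73761372)) (K (.negSucc 339118114)) .nil .nil) .nil .nil) .nil .nil)⟩,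
  ⟨.x, T0, (.node (.ofNat 0) (.node (.ofNat 0) (K (.ofNat 183723398)) (K (.ofNat 69977552)) .nil .nil) (.node (.ofNat 0) (K (.negSucc 149342473)) (K (.negSucc 489125370)) .nil .nil) .nil .nil)⟩,
  ⟨.z, T1, (.node (.ofNat 0) (.node (.ofNat 0) (K (.ofNat 231370084)) (K (.ofNat 62941331)) .nil .nil) (.node (.ofNat 0) (K (.ofNat 73673824)) (K (.negSucc 260474482)) .nil .nil) .nil .nil)⟩,
  ⟨.x, T2, (.node (.ofNat 0) .nil .nil .nil (K (.negSucc 208250199)))⟩,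
  ⟨.x, T3, (.node (.ofNat 0) .nil .nil (K (.negSucc 91450641)) .nil)⟩,
  ⟨.x, T4, (.node (.ofNat 0) (K (.ofNat 231928660)) (K (.ofNat 190293331)) .nil .nil)⟩,
  ⟨.x, T5, (.node (.ofNat 0) (K (.ofNat 8347402)) (K (.ofNat 7195503)) .nil .nil)⟩,
  ⟨.z, T2, (.node (.ofNat 0) (K (.negSucc 219984557)) (K (.ofNat 27826176)) .nil .nil)⟩,
  ⟨.z, T3, (.node (.ofNat 0) (K (.negSucc 217734881)) (K (.negSucc 178209668)) .nil .nil)⟩,
  ⟨.x, T17, (K (.negSucc 166397419))⟩,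
  ⟨.x, T8, (K (.negSucc 83197467))⟩,
  ⟨.z, T6, (K (.negSucc 157244423))⟩,
  ⟨.z, T9, (K (.ofNat 35855878))⟩,
  ⟨.z, T7, (K (.negSucc 85227435))⟩] (.node [⟨.z, .x, (.node (.ofNat 0) (.node (.ofNat 0) (K (.negSucc 151436750)) (K (.ofNat 459255585)) .nil .nil) (.node (.ofNat 0) (K (.negSucc 87973765)) (K (.ofNat 409898461)) .nil .nil) .nil .nil)⟩,
  ⟨.x, T0, (.node (.ofNat 0) (K (.ofNat 112529708)) (K (.ofNat 547742755)) .nil .nil)⟩,
  ⟨.z, T1, (.node (.ofNat 0) (K (.negSucc 402504631)) (K (.negSucc 8517026)) .nil .nil)⟩,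
  ⟨.x, T4, (K (.negSucc 408673525))⟩,
  ⟨.x, T5, (K (.ofNat 255164884))⟩,
  ⟨.z, T2, (K (.ofNat 271290290))⟩,
  ⟨.z, T3, (K (.ofNat 392682794))⟩] (.node [⟨.z, .x, (.node (.ofNat 0) (K (.ofNat 43313438)) (K (.ofNat 107465950)) .nil .nil)⟩,
  ⟨.x, T0, (K (.ofNat 35845016))⟩,
  ⟨.z, T1, (K (.ofNat 243379882))⟩] (.node [⟨.z, .x, (K (.negSucc 144777147))⟩] .nil .nil .nil .nil) (.node [⟨.z, .x, (K (.ofNat 277706612))⟩] .nil .nil .nil .nil) .nil .nil) (.node [⟨.z, .x, (.node (.ofNat 0) (K (.negSucc 37062811)) (K (.negSucc 190050604)) .nil .nil)⟩,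
  ⟨.x, T0, (K (.ofNat 226852932))⟩,
  ⟨.z, T1, (K (.ofNat 144255712))⟩] (.node [⟨.z, .x, (K (.ofNat 241875358))⟩] .nil .nil .nil .nil) (.node [⟨.z, .x, (K (.ofNat 436027640))⟩] .nil .nil .nil .nil) .nil .nil) .nil .nil) (.node [⟨.z, .x, (.node (.ofNat 0) (.node (.ofNat 0) (K (.negSucc 401902423)) (K (.negSucc 563169123)) .nil .nil) (.node (.ofNat 0) (K (.ofNat 207104186)) (K (.ofNat 416633052)) .nil .nil) .nil .nil)⟩,
  ⟨.x, T0, (.node (.ofNat 0) (K (.negSucc 53973025)) (K (.negSucc 458988516)) .nil .nil)⟩,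
  ⟨.z, T1, (.node (.ofNat 0) (K (.negSucc 452523291)) (K (.negSucc 611204641)) .nil .nil)⟩,
  ⟨.x, T4, (K (.negSucc 206989419))⟩,
  ⟨.x, T5, (K (.ofNat 204607398))⟩,
  ⟨.z, T2, (K (.ofNat 203953492))⟩,
  ⟨.z, T3, (K (.ofNat 302641636))⟩] (.node [⟨.z, .x, (.node (.ofNat 0) (K (.negSucc 586780279)) (K (.negSucc 211099262)) .nil .nil)⟩,
  ⟨.x, T0, (K (.negSucc 391216735))⟩,
  ⟨.z, T1, (K (.negSucc 266991313))⟩] (.node [⟨.z, .x, (K (.negSucc 151439739))⟩] .nil .nil .nil .nil) (.node [⟨.z, .x, (K (.ofNat 375510968))⟩] .nil .nil .nil .nil) .nil .nil) (.node [⟨.z, .x, (.node (.ofNat 0) (K (.negSucc 278246855)) (K (.negSucc 19835410)) .nil .nil)⟩,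
  ⟨.x, T0, (K (.negSucc 27967913))⟩,
  ⟨.z, T1, (K (.negSucc 63258373))⟩] (.node [⟨.z, .x, (K (.ofNat 192848962))⟩] .nil .nil .nil .nil) (.node [⟨.z, .x, (K (.ofNat 369990328))⟩] .nil .nil .nil .nil) .nil .nil) .nil .nil) .nil .nil)

/-- data -/
def w_rll : Cert := (.node [⟨.z, .x, (.node (.ofNat 0) (.node (.ofNat 0) (.node (.ofNat 0) (K (.negSucc 309172306)) (K (.ofNat 29939934)) .nil .nil) (.node (.ofNat 0) (K (.ofNat 453142507)) (K (.ofNat 246116200)) .nil .nil) .nil .nil) (.node (.ofNat 0) (.node (.ofNat 0) (K (.ofNat 376707988)) (K (.ofNat 369562019)) .nil .nil) (.node (.ofNat 0) (K (.ofNat 508222462)) (K (.ofNat 8593546)) .nil .nil) .nil .nil) .nil .nil)⟩,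
  ⟨.x, T0, (.node (.ofNat 0) (.node (.ofNat 0) (K (.negSucc 525029020)) (K (.negSucc 11512834)) .nil .nil) (.node (.ofNat 0) (K (.ofNat 329058898)) (K (.ofNat 572931380)) .nil .nil) .nil .nil)⟩,
  ⟨.z, T1, (.node (.ofNat 0) (.node (.ofNat 0) (K (.negSucc 130129617)) (K (.negSucc 3989241)) .nil .nil) (.node (.ofNat 0) (K (.ofNat 65225470)) (K (.ofNat 117878603)) .nil .nil) .nil .nil)⟩,
  ⟨.x, T2, (.node (.ofNat 0) .nil .nil .nil (K (.negSucc 122397647)))⟩,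
  ⟨.x, T3, (.node (.ofNat 0) .nil .nil (K (.ofNat 215553165)) .nil)⟩,
  ⟨.x, T4, (.node (.ofNat 0) (K (.ofNat 42264555)) (K (.ofNat 246827608)) .nil .nil)⟩,
  ⟨.x, T5, (.node (.ofNat 0) (K (.ofNat 125381476)) (K (.negSucc 92329235)) .nil .nil)⟩,
  ⟨.z, T2, (.node (.ofNat 0) (K (.negSucc 114543096)) (K (.ofNat 191856001)) .nil .nil)⟩,
  ⟨.z, T3, (.node (.ofNat 0) (K (.negSucc 44536072)) (K (.ofNat 8274924)) .nil .nil)⟩,
  ⟨.x, T22, (K (.ofNat 773172))⟩,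
  ⟨.x, T17, (K (.negSucc 79267923))⟩,
  ⟨.x, T8, (K (.ofNat 76392352))⟩,
  ⟨.z, T6, (K (.negSucc 209819495))⟩,
  ⟨.z, T9, (K (.ofNat 151355684))⟩,
  ⟨.z, T7, (K (.ofNat 64563148))⟩] (.node [⟨.z, .x, (.node (.ofNat 0) (.node (.ofNat 0) (K (.negSucc 509462358)) (K (.negSucc 173293519)) .nil .nil) (.node (.ofNat 0) (K (.negSucc 182693710)) (K (.ofNat 270746796)) .nil .nil) .nil .nil)⟩,
  ⟨.x, T0, (.node (.ofNat 0) (K (.ofNat 41485056)) (K (.ofNat 296491058)) .nil .nil)⟩,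
  ⟨.z, T1, (.node (.ofNat 0) (K (.negSucc 551920583)) (K (.negSucc 375879016)) .nil .nil)⟩,
  ⟨.x, T4, (K (.negSucc 545059253))⟩,
  ⟨.x, T5, (K (.ofNat 341941309))⟩,
  ⟨.z, T2, (K (.ofNat 103485150))⟩,
  ⟨.z, T3, (K (.ofNat 230168707))⟩] (.node [⟨.z, .x, (.node (.ofNat 0) (K (.ofNat 30921607)) (K (.ofNat 23402098)) .nil .nil)⟩,
  ⟨.x, T0, (K (.negSucc 35256570))⟩,
  ⟨.z, T1, (K (.negSucc 1122890))⟩] (.node [⟨.z, .x, (K (.negSucc 151191369))⟩] .nil .nil .nil .nil) (.node [⟨.z, .x, (K (.ofNat 231272045))⟩] .nil .nil .nil .nil) .nil .nil) (.node [⟨.z, .x, (.node (.ofNat 0) (K (.ofNat 688581844)) (K (.ofNat 324124550)) .nil .nil)⟩,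
  ⟨.x, T0, (K (.ofNat 775489101))⟩,
  ⟨.z, T1, (K (.ofNat 246840214))⟩] (.node [⟨.z, .x, (K (.ofNat 79014285))⟩] .nil .nil .nil .nil) (.node [⟨.z, .x, (K (.ofNat 163964839))⟩] .nil .nil .nil .nil) .nil .nil) .nil .nil) (.node [⟨.z, .x, (.node (.ofNat 0) (.node (.ofNat 0) (K (.negSucc 461418990)) (K (.negSucc 1035601581)) .nil .nil) (.node (.ofNat 0) (K (.negSucc 9740350)) (K (.ofNat 124806755)) .nil .nil) .nil .nil)⟩,
  ⟨.x, T0, (.node (.ofNat 0) (K (.negSucc 111168720)) (K (.negSucc 713910189)) .nil .nil)⟩,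
  ⟨.z, T1, (.node (.ofNat 0) (K (.ofNat 14370962)) (K (.negSucc 239578607)) .nil .nil)⟩,
  ⟨.x, T4, (K (.ofNat 104308401))⟩,
  ⟨.x, T5, (K (.negSucc 76605957))⟩,
  ⟨.z, T2, (K (.ofNat 86336045))⟩,
  ⟨.z, T3, (K (.negSucc 82244684))⟩] (.node [⟨.z, .x, (.node (.ofNat 0) (K (.ofNat 54841900)) (K (.ofNat 162709068)) .nil .nil)⟩,
  ⟨.x, T0, (K (.ofNat 90874161))⟩,
  ⟨.z, T1, (K (.ofNat 10062372))⟩] (.node [⟨.z, .x, (K (.negSucc 151311772))⟩] .nil .nil .nil .nil) (.node [⟨.z, .x, (K (.negSucc 15661771))⟩] .nil .nil .nil .nil) .nil .nil) (.node [⟨.z, .x, (.node (.ofNat 0) (K (.negSucc 97348029)) (K (.ofNat 273839880)) .nil .nil)⟩,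
  ⟨.x, T0, (K (.negSucc 12579154))⟩,
  ⟨.z, T1, (K (.ofNat 27942205))⟩] (.node [⟨.z, .x, (K (.negSucc 75933635))⟩] .nil .nil .nil .nil) (.node [⟨.z, .x, (K (.negSucc 4512220))⟩] .nil .nil .nil .nil) .nil .nil) .nil .nil) .nil (.node [⟨.x, T2, (K (.negSucc 326527184))⟩,
  ⟨.x, T3, (K (.negSucc 208230618))⟩] .nil .nil .nil .nil))

/-- data -/
def w_rlq : Cert := (.node [⟨.x, T2, (.node (.ofNat 0) (K (.negSucc 136693887)) (K (.ofNat 87402276)) .nil .nil)⟩,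
  ⟨.x, T3, (.node (.ofNat 0) (K (.negSucc 80069288)) (K (.negSucc 29133067)) .nil .nil)⟩,
  ⟨.x, T6, (K (.ofNat 34527816))⟩,
  ⟨.x, T7, (K (.ofNat 27838884))⟩] (.node [⟨.x, T2, (K (.negSucc 132519687))⟩,
  ⟨.x, T3, (K (.ofNat 177355941))⟩] .nil .nil .nil .nil) (.node [⟨.x, T2, (K (.negSucc 17320928))⟩,
  ⟨.x, T3, (K (.negSucc 48278107))⟩] .nil .nil .nil .nil) .nil .nil)

/-- data -/
def w_rl : Cert := (.node [⟨.z, .x, (.node (.ofNat 0) (.node (.ofNat 0) (.node (.ofNat 0) (.node (.ofNat 0) (K (.ofNat 485961483)) (K (.ofNat 943679960)) .nil .nil) (.node (.ofNat 0) (K (.ofNat 355776875)) (K (.negSucc 1004703330)) .nil .nil) .nil .nil) (.node (.ofNat 0) (.node (.ofNat 0) (K (.negSucc 1233208508)) (K (.negSucc 1912535)) .nil .nil) (.node (.ofNat 0) (K (.ofNat 461796163)) (K (.ofNat 823056975)) .nil .nil) .nil .nil) .nil .nil) (.node (.ofNat 0) (.node (.ofNat 0) (.node (.ofNat 0) (K (.negSucc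 176555322)) (K (.ofNat 417227538)) .nil .nil) (.node (.ofNat 0) (K (.ofNat 391627002)) (K (.ofNat 550067330)) .nil .nil) .nil .nil) (.node (.ofNat 0) (.node (.ofNat 0) (K (.negSucc 420977197)) (K (.negSucc 78495545)) .nil .nil) (.node (.ofNat 0) (K (.negSucc 150344695)) (K (.ofNat 190089017)) .nil .nil) .nil .nil) .nil .nil) .nil .nil)⟩,
  ⟨.x, T0, (.node (.ofNat 0) (.node (.ofNat 0) (.node (.ofNat 0) (K (.ofNat 322432378)) (K (.ofNat 400427180)) .nil .nil) (.node (.ofNat 0) (K (.negSucc 39550214)) (K (.negSucc 1219410061)) .nil .nil) .nil .nil) (.node (.ofNat 0) (.node (.ofNat 0) (K (.negSucc 986252371)) (K (.negSucc 313055745)) .nil .nil) (.node (.ofNat 0) (K (.ofNat 92693456)) (K (.ofNat 531461739)) .nil .nil) .nil .nil) .nil .nil)⟩,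
  ⟨.z, T1, (.node (.ofNat 0) (.node (.ofNat 0) (.node (.ofNat 0) (K (.ofNat 812376209)) (K (.ofNat 565010116)) .nil .nil) (.node (.ofNat 0) (K (.ofNat 148104960)) (K (.negSucc 938357878)) .nil .nil) .nil .nil) (.node (.ofNat 0) (.node (.ofNat 0) (K (.ofNat 376026325)) (K (.ofNat 181019981)) .nil .nil) (.node (.ofNat 0) (K (.ofNat 38505230)) (K (.negSucc 561368439)) .nil .nil) .nil .nil) .nil .nil)⟩,
  ⟨.x, T2, (.node (.ofNat 0) (.node (.ofNat 0) .nil .nil .nil (K (.negSucc 72477888))) (.node (.ofNat 0) .nil .nil .nil (K (.ofNat 22948321))) .nil (.node (.ofNat 0) (K (.negSucc 33756293)) (K (.negSucc 159996000)) .nil .nil))⟩,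
  ⟨.x, T3, (.node (.ofNat 0) (.node (.ofNat 0) .nil .nil (K (.ofNat 11930298)) (K (.ofNat 114617449))) (.node (.ofNat 0) .nil .nil .nil (K (.negSucc 24354330))) (.node (.ofNat 0) (K (.negSucc 121579969)) (K (.negSucc 138280682)) .nil .nil) .nil)⟩,
  ⟨.x, T4, (.node (.ofNat 0) (.node (.ofNat 0) (K (.ofNat 767650722)) (K (.ofNat 412404004)) .nil .nil) (.node (.ofNat 0) (K (.negSucc 5580249)) (K (.negSucc 763513118)) .nil .nil) .nil .nil)⟩,
  ⟨.x, T5, (.node (.ofNat 0) (.node (.ofNat 0) (K (.negSucc 364771876)) (K (.ofNat 54150925)) .nil .nil) (.node (.ofNat 0) (K (.ofNat 125684810)) (K (.ofNat 563270119)) .nil .nil) .nil .nil)⟩,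
  ⟨.z, T2, (.node (.ofNat 0) (.node (.ofNat 0) (K (.negSucc 236254500)) (K (.negSucc 312206322)) .nil .nil) (.node (.ofNat 0) (K (.negSucc 62849127)) (K (.ofNat 152475502)) .nil .nil) .nil .nil)⟩,
  ⟨.z, T3, (.node (.ofNat 0) (.node (.ofNat 0) (K (.negSucc 378000502)) (K (.negSucc 317900438)) .nil .nil) (.node (.ofNat 0) (K (.negSucc 12193079)) (K (.ofNat 308363087)) .nil .nil) .nil .nil)⟩,
  ⟨.x, T6, (.node (.ofNat 0) .nil .nil .nil (K (.negSucc 6565103)))⟩,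
  ⟨.x, T7, (.node (.ofNat 0) .nil .nil (K (.ofNat 5593176)) .nil)⟩,
  ⟨.x, T17, (.node (.ofNat 0) .nil (K (.negSucc 150041171)) .nil .nil)⟩,
  ⟨.x, T8, (.node (.ofNat 0) (K (.ofNat 56331676)) (K (.negSucc 62893547)) .nil .nil)⟩,
  ⟨.z, T6, (.node (.ofNat 0) (K (.ofNat 112126010)) (K (.negSucc 95140247)) .nil .nil)⟩,
  ⟨.z, T9, (.node (.ofNat 0) (K (.negSucc 69241171)) (K (.ofNat 35876910)) .nil .nil)⟩,
  ⟨.z, T7, (.node (.ofNat 0) (K (.negSucc 58216493)) (K (.negSucc 110764727)) .nil .nil)⟩,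
  ⟨.x, T18, (K (.ofNat 93312))⟩,
  ⟨.x, T19, (K (.ofNat 93312))⟩,
  ⟨.x, T20, (K (.ofNat 104976))⟩,
  ⟨.z, T21, (K (.negSucc 124415))⟩,
  ⟨.z, T10, (K (.negSucc 6743087))⟩,
  ⟨.z, T11, (K (.negSucc 6233759))⟩] w_rlr w_rll .nil w_rlq)

/-- data -/
def w_rpr : Cert := (.node [⟨.x, T2, (.node (.ofNat 0) (K (.ofNat 35042251)) (K (.negSucc 7337303)) .nil .nil)⟩,
  ⟨.x, T3, (.node (.ofNat 0) (K (.ofNat 14431599)) (K (.negSucc 18229311)) .nil .nil)⟩,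
  ⟨.x, T6, (K (.negSucc 15102287))⟩,
  ⟨.x, T7, (K (.negSucc 15339095))⟩] (.node [⟨.x, T2, (K (.negSucc 62207))⟩,
  ⟨.x, T3, (K (.ofNat 85065902))⟩] .nil .nil .nil .nil) (.node [⟨.x, T2, (K (.negSucc 212430571))⟩,
  ⟨.x, T3, (K (.ofNat 136549087))⟩] .nil .nil .nil .nil) .nil .nil)

/-- data -/
def w_rpl : Cert := (.node [⟨.x, T2, (.node (.ofNat 0) (K (.negSucc 52418504)) (K (.ofNat 23671142)) .nil .nil)⟩,
  ⟨.x, T3, (.node (.ofNat 0) (K (.negSucc 50084837)) (K (.ofNat 954656)) .nil .nil)⟩,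
  ⟨.x, T6, (K (.ofNat 4310928))⟩,
  ⟨.x, T7, (K (.ofNat 7776204))⟩] (.node [⟨.x, T2, (K (.negSucc 184651752))⟩,
  ⟨.x, T3, (K (.ofNat 150924082))⟩] .nil .nil .nil .nil) (.node [⟨.x, T2, (K (.negSucc 148332182))⟩,
  ⟨.x, T3, (K (.negSucc 54372316))⟩] .nil .nil .nil .nil) .nil .nil)

/-- data -/
def w_rp : Cert := (.node [⟨.x, T2, (.node (.ofNat 0) (.node (.ofNat 0) (K (.negSucc 83447619)) (K (.negSucc 163951548)) .nil .nil) (.node (.ofNat 0) (K (.negSucc 147563926)) (K (.negSucc 18788057)) .nil .nil) .nil .nil)⟩,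
  ⟨.x, T3, (.node (.ofNat 0) (.node (.ofNat 0) (K (.ofNat 317725)) (K (.negSucc 52744)) .nil .nil) (.node (.ofNat 0) (K (.negSucc 19794836)) (K (.negSucc 112580799)) .nil .nil) .nil .nil)⟩,
  ⟨.x, T6, (.node (.ofNat 0) .nil (K (.negSucc 10609919)) .nil .nil)⟩,
  ⟨.x, T7, (.node (.ofNat 0) (K (.ofNat 10870560)) (K (.negSucc 13010339)) .nil .nil)⟩] w_rpr w_rpl .nil .nil)

/-- data -/
def w_rqr : Cert := (.node [⟨.x, T2, (.node (.ofNat 0) (K (.negSucc 112237020)) (K (.negSucc 18398810)) .nil .nil)⟩,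
  ⟨.x, T3, (.node (.ofNat 0) (K (.ofNat 183555310)) (K (.negSucc 13867834)) .nil .nil)⟩,
  ⟨.x, T6, (K (.negSucc 13982003))⟩,
  ⟨.x, T7, (K (.ofNat 37847460))⟩] (.node [⟨.x, T2, (K (.ofNat 89904962))⟩,
  ⟨.x, T3, (K (.negSucc 296803418))⟩] .nil .nil .nil .nil) (.node [⟨.x, T2, (K (.negSucc 169514351))⟩,
  ⟨.x, T3, (K (.negSucc 188592277))⟩] .nil .nil .nil .nil) .nil .nil)

/-- data -/
def w_rql : Cert := (.node [⟨.x, T2, (.node (.ofNat 0) (K (.ofNat 79517173)) (K (.ofNat 23833394)) .nil .nil)⟩,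
  ⟨.x, T3, (.node (.ofNat 0) (K (.ofNat 214641085)) (K (.negSucc 73495953)) .nil .nil)⟩,
  ⟨.x, T6, (K (.negSucc 73125611))⟩,
  ⟨.x, T7, (K (.ofNat 15935766))⟩] (.node [⟨.x, T2, (K (.negSucc 164016858))⟩,
  ⟨.x, T3, (K (.negSucc 309911815))⟩] .nil .nil .nil .nil) (.node [⟨.x, T2, (K (.ofNat 11054815))⟩,
  ⟨.x, T3, (K (.ofNat 325842395))⟩] .nil .nil .nil .nil) .nil .nil)

/-- data -/
def w_rq : Cert := (.node [⟨.x, T2, (.node (.ofNat 0) (.node (.ofNat 0) (K (.ofNat 36536594)) (K (.negSucc 47562478)) .nil .nil) (.node (.ofNat 0) (K (.negSucc 116884708)) (K (.ofNat 30139674)) .nil .nil) .nil .nil)⟩,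
  ⟨.x, T3, (.node (.ofNat 0) (.node (.ofNat 0) (K (.ofNat 125059676)) (K (.ofNat 194527969)) .nil .nil) (.node (.ofNat 0) (K (.negSucc 35980396)) (K (.ofNat 37254199)) .nil .nil) .nil .nil)⟩,
  ⟨.x, T7, (.node (.ofNat 0) (K (.ofNat 4374072)) (K (.ofNat 12413664)) .nil .nil)⟩] w_rqr w_rql .nil .nil)

/-- data -/
def w_r : Cert := (.node [⟨.z, .x, (.node (.ofNat 0) (.node (.ofNat 0) (.node (.ofNat 0) (.node (.ofNat 0) (.node (.ofNat 0) (K (.negSucc 30386490)) (K (.negSucc 406660514)) .nil .nil) (.node (.ofNat 0) (K (.negSucc 439914650)) (K (.ofNat 343345774)) .nil .nil) .nil .nil) (.node (.ofNat 0) (.node (.ofNat 0) (K (.ofNat 522411396)) (K (.ofNat 69961292)) .nil .nil) (.node (.ofNat 0) (K (.negSucc 242155031)) (K (.negSucc 75167084)) .nil .nil) .nil .nil) .nil .nil) (.node (.ofNat 0) (.node (.ofNat 0) (.node (.ofNat 0) (K (.ofNat 630358059)) (K (.negSucc 163896043)) .nil .nil) (.node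 (.ofNat 0) (K (.negSucc 125950990)) (K (.negSucc 834408654)) .nil .nil) .nil .nil) (.node (.ofNat 0) (.node (.ofNat 0) (K (.ofNat 479468961)) (K (.ofNat 46042513)) .nil .nil) (.node (.ofNat 0) (K (.ofNat 299464338)) (K (.negSucc 62915298)) .nil .nil) .nil .nil) .nil .nil) .nil .nil) (.node (.ofNat 0) (.node (.ofNat 0) (.node (.ofNat 0) (.node (.ofNat 0) (K (.negSucc 218954825)) (K (.negSucc 420889840)) .nil .nil) (.node (.ofNat 0) (K (.negSucc 253655974)) (K (.ofNat 263410700)) .nil .nil) .nil .nil) (.node (.ofNat 0) (.node (.ofNat 0) (K (.ofNat 74055464)) (K (.negSucc 230628931)) .nil .nil) (.node (.ofNat 0) (K (.negSucc 189169641)) (K (.negSucc 42834694)) .nil .nil) .nil .nil) .nil .nil) (.node (.ofNat 0) (.node (.ofNat 0) (.node (.ofNat 0) (K (.ofNat 25203673)) (K (.negSucc 229536723)) .nil .nil) (.node (.ofNat 0) (K (.negSucc 197313978)) (K (.negSucc 366880557)) .nil .nil) .nil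 .nil) (.node (.ofNat 0) (.node (.ofNat 0) (K (.ofNat 17112833)) (K (.negSucc 83618075)) .nil .nil) (.node (.ofNat 0) (K (.negSucc 11303721)) (K (.negSucc 51345461)) .nil .nil) .nil .nil) .nil .nil) .nil .nil) .nil .nil)⟩,
  ⟨.x, T0, (.node (.ofNat 0) (.node (.ofNat 0) (.node (.ofNat 0) (.node (.ofNat 0) (K (.ofNat 172511949)) (K (.negSucc 249524901)) .nil .nil) (.node (.ofNat 0) (K (.negSucc 306439672)) (K (.negSucc 372878953)) .nil .nil) .nil .nil) (.node (.ofNat 0) (.node (.ofNat 0) (K (.ofNat 439785037)) (K (.negSucc 186064777)) .nil .nil) (.node (.ofNat 0) (K (.negSucc 276374268)) (K (.negSucc 398280307)) .nil .nil) .nil .nil) .nil .nil) (.node (.ofNat 0) (.node (.ofNat 0) (.node (.ofNat 0) (K (.ofNat 765130487)) (K (.negSucc 40220792)) .nil .nil) (.node (.ofNat 0) (K (.negSucc 136027532)) (K (.negSucc 1388373044)) .nil .nil) .nil .nil) (.node (.ofNat 0) (.node (.ofNat 0) (K (.ofNat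 370022868)) (K (.negSucc 67519898)) .nil .nil) (.node (.ofNat 0) (K (.ofNat 206846463)) (K (.negSucc 330624247)) .nil .nil) .nil .nil) .nil .nil) .nil .nil)⟩,
  ⟨.z, T1, (.node (.ofNat 0) (.node (.ofNat 0) (.node (.ofNat 0) (.node (.ofNat 0) (K (.negSucc 275424550)) (K (.negSucc 79131205)) .nil .nil) (.node (.ofNat 0) (K (.negSucc 243545836)) (K (.ofNat 1125719810)) .nil .nil) .nil .nil) (.node (.ofNat 0) (.node (.ofNat 0) (K (.negSucc 81136004)) (K (.ofNat 289611718)) .nil .nil) (.node (.ofNat 0) (K (.negSucc 242036126)) (K (.ofNat 521085410)) .nil .nil) .nil .nil) .nil .nil) (.node (.ofNat 0) (.node (.ofNat 0) (.node (.ofNat 0) (K (.ofNat 99949651)) (K (.ofNat 78451215)) .nil .nil) (.node (.ofNat 0) (K (.ofNat 18042779)) (K (.ofNat 448901564)) .nil .nil) .nil .nil) (.node (.ofNat 0) (.node (.ofNat 0) (K (.negSucc 70216576)) (K (.negSucc 23878647)) .nil .nil) (.node (.ofNat 0) (K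 (.negSucc 244401453)) (K (.ofNat 134876121)) .nil .nil) .nil .nil) .nil .nil) .nil .nil)⟩,
  ⟨.x, T2, (.node (.ofNat 0) (.node (.ofNat 0) (.node (.ofNat 0) .nil .nil (K (.ofNat 144638461)) .nil) (.node (.ofNat 0) .nil .nil .nil (K (.ofNat 7282656))) .nil (.node (.ofNat 0) (K (.ofNat 156958770)) (K (.negSucc 63630309)) .nil .nil)) (.node (.ofNat 0) (.node (.ofNat 0) .nil .nil .nil (K (.negSucc 44694807))) (.node (.ofNat 0) .nil .nil .nil (K (.negSucc 1106999))) .nil (.node (.ofNat 0) (K (.negSucc 84044314)) (K (.negSucc 12997799)) .nil .nil)) .nil (.node (.ofNat 0) (.node (.ofNat 0) (K (.ofNat 167921561)) (K (.ofNat 130487100)) .nil .nil) (.node (.ofNat 0) (K (.ofNat 159382120)) (K (.ofNat 11465550)) .nil .nil) .nil .nil))⟩,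
  ⟨.x, T3, (.node (.ofNat 0) (.node (.ofNat 0) (.node (.ofNat 0) .nil .nil (K (.negSucc 2571248)) .nil) (.node (.ofNat 0) .nil .nil .nil (K (.ofNat 61294166))) (.node (.ofNat 0) (K (.ofNat 1796190)) (K (.ofNat 1232560)) .nil .nil) (.node (.ofNat 0) (K (.negSucc 16839385)) (K (.ofNat 4213428)) .nil .nil)) (.node (.ofNat 0) (.node (.ofNat 0) .nil .nil .nil (K (.negSucc 36444573))) (.node (.ofNat 0) .nil .nil .nil (K (.ofNat 69774542))) .nil (.node (.ofNat 0) (K (.negSucc 54290984)) (K (.negSucc 9444643)) .nil .nil)) (.node (.ofNat 0) (.node (.ofNat 0) (K (.ofNat 111064183)) (K (.ofNat 13086806)) .nil .nil) (.node (.ofNat 0) (K (.ofNat 51795102)) (K (.negSucc 39115541)) .nil .nil) .nil .nil) .nil)⟩,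
  ⟨.x, T4, (.node (.ofNat 0) (.node (.ofNat 0) (.node (.ofNat 0) (K (.negSucc 275424550)) (K (.negSucc 122110111)) .nil .nil) (.node (.ofNat 0) (K (.negSucc 92399138)) (K (.ofNat 988562902)) .nil .nil) .nil .nil) (.node (.ofNat 0) (.node (.ofNat 0) (K (.negSucc 54098454)) (K (.ofNat 129473516)) .nil .nil) (.node (.ofNat 0) (K (.negSucc 178731032)) (K (.ofNat 279278786)) .nil .nil) .nil .nil) .nil .nil)⟩,
  ⟨.x, T5, (.node (.ofNat 0) (.node (.ofNat 0) (.node (.ofNat 0) (K (.ofNat 51213627)) (K (.negSucc 40351196)) .nil .nil) (.node (.ofNat 0) (K (.negSucc 19208638)) (K (.negSucc 268518045)) .nil .nil) .nil .nil) (.node (.ofNat 0) (.node (.ofNat 0) (K (.ofNat 61604292)) (K (.negSucc 95796639)) .nil .nil) (.node (.ofNat 0) (K (.ofNat 34854628)) (K (.negSucc 164573090)) .nil .nil) .nil .nil) .nil .nil)⟩,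
  ⟨.z, T2, (.node (.ofNat 0) (.node (.ofNat 0) (.node (.ofNat 0) (K (.ofNat 44725487)) (K (.ofNat 71120740)) .nil .nil) (.node (.ofNat 0) (K (.ofNat 95670782)) (K (.negSucc 114091479)) .nil .nil) .nil .nil) (.node (.ofNat 0) (.node (.ofNat 0) (K (.ofNat 162125616)) (K (.ofNat 159375668)) .nil .nil) (.node (.ofNat 0) (K (.ofNat 255715324)) (K (.negSucc 2838887)) .nil .nil) .nil .nil) .nil .nil)⟩,
  ⟨.z, T3, (.node (.ofNat 0) (.node (.ofNat 0) (.node (.ofNat 0) (K (.ofNat 67138403)) (K (.negSucc 55364006)) .nil .nil) (.node (.ofNat 0) (K (.ofNat 129453949)) (K (.negSucc 312683065)) .nil .nil) .nil .nil) (.node (.ofNat 0) (.node (.ofNat 0) (K (.ofNat 171619610)) (K (.negSucc 196248695)) .nil .nil) (.node (.ofNat 0) (K (.ofNat 152046920)) (K (.negSucc 154952018)) .nil .nil) .nil .nil) .nil .nil)⟩,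
  ⟨.x, T6, (.node (.ofNat 0) .nil (.node (.ofNat 0) .nil .nil .nil (K (.negSucc 1003967))) .nil (.node (.ofNat 0) .nil (K (.negSucc 10968047)) .nil .nil))⟩,
  ⟨.x, T7, (.node (.ofNat 0) (.node (.ofNat 0) .nil .nil (K (.negSucc 2947103)) .nil) .nil (.node (.ofNat 0) (K (.negSucc 7525079)) (K (.negSucc 1835591)) .nil .nil) .nil)⟩,
  ⟨.x, T17, (.node (.ofNat 0) .nil (.node (.ofNat 0) (K (.negSucc 18136851)) .nil .nil .nil) .nil .nil)⟩,
  ⟨.x, T8, (.node (.ofNat 0) (.node (.ofNat 0) (K (.ofNat 21312484)) (K (.ofNat 4330368)) .nil .nil) (.node (.ofNat 0) (K (.ofNat 4336200)) (K (.ofNat 1277208)) .nil .nil) .nil .nil)⟩,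
  ⟨.z, T6, (.node (.ofNat 0) (.node (.ofNat 0) (K (.negSucc 79217421)) (K (.negSucc 48007655)) .nil .nil) (.node (.ofNat 0) (K (.negSucc 87898703)) (K (.ofNat 19873404)) .nil .nil) .nil .nil)⟩,
  ⟨.z, T9, (.node (.ofNat 0) (.node (.ofNat 0) (K (.ofNat 141746002)) (K (.ofNat 179130294)) .nil .nil) (.node (.ofNat 0) (K (.ofNat 181489886)) (K (.ofNat 4586328)) .nil .nil) .nil .nil)⟩,
  ⟨.z, T7, (.node (.ofNat 0) (.node (.ofNat 0) (K (.ofNat 606366)) (K (.negSucc 38230187)) .nil .nil) (.node (.ofNat 0) (K (.negSucc 12538799)) (K (.ofNat 3543264)) .nil .nil) .nil .nil)⟩,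
  ⟨.z, T10, (.node (.ofNat 0) (K (.ofNat 357048)) (K (.ofNat 187272)) .nil .nil)⟩,
  ⟨.z, T11, (.node (.ofNat 0) (K (.negSucc 61559)) (K (.ofNat 364824)) .nil .nil)⟩,
  ⟨.z, T13, (K (.ofNat 124416))⟩] w_rr w_rl w_rp w_rq)

/-- data -/
def w_lrr : Cert := (.node [⟨.z, .x, (.node (.ofNat 0) (.node (.ofNat 0) (.node (.ofNat 0) (K (.ofNat 6515743)) (K (.negSucc 392397038)) .nil .nil) (.node (.ofNat 0) (K (.negSucc 321356823)) (K (.ofNat 468532433)) .nil .nil) .nil .nil) (.node (.ofNat 0) (.node (.ofNat 0) (K (.negSucc 6130664)) (K (.negSucc 30161185)) .nil .nil) (.node (.ofNat 0) (K (.negSucc 21542981)) (K (.ofNat 359788087)) .nil .nil) .nil .nil) .nil .nil)⟩,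
  ⟨.x, T0, (.node (.ofNat 0) (.node (.ofNat 0) (K (.negSucc 97356920)) (K (.negSucc 63612078)) .nil .nil) (.node (.ofNat 0) (K (.negSucc 282705599)) (K (.ofNat 545616890)) .nil .nil) .nil .nil)⟩,
  ⟨.z, T1, (.node (.ofNat 0) (.node (.ofNat 0) (K (.ofNat 303308457)) (K (.negSucc 314231548)) .nil .nil) (.node (.ofNat 0) (K (.ofNat 254512720)) (K (.negSucc 178904191)) .nil .nil) .nil .nil)⟩,
  ⟨.x, T2, (.node (.ofNat 0) .nil .nil .nil (K (.negSucc 64766808)))⟩,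
  ⟨.x, T3, (.node (.ofNat 0) .nil .nil (K (.negSucc 48190538)) .nil)⟩,
  ⟨.x, T4, (.node (.ofNat 0) (K (.ofNat 289363587)) (K (.negSucc 389697315)) .nil .nil)⟩,
  ⟨.x, T5, (.node (.ofNat 0) (K (.negSucc 108650770)) (K (.ofNat 185529252)) .nil .nil)⟩,
  ⟨.z, T2, (.node (.ofNat 0) (K (.negSucc 182663278)) (K (.ofNat 191770736)) .nil .nil)⟩,
  ⟨.z, T3, (.node (.ofNat 0) (K (.negSucc 172260924)) (K (.ofNat 313029508)) .nil .nil)⟩,
  ⟨.x, T17, (K (.negSucc 70709607))⟩,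
  ⟨.x, T8, (K (.negSucc 11511907))⟩,
  ⟨.z, T6, (K (.negSucc 9546335))⟩,
  ⟨.z, T9, (K (.negSucc 83673639))⟩,
  ⟨.z, T7, (K (.negSucc 22476283))⟩] (.node [⟨.z, .x, (.node (.ofNat 0) (.node (.ofNat 0) (K (.ofNat 360775746)) (K (.negSucc 33228669)) .nil .nil) (.node (.ofNat 0) (K (.ofNat 139595892)) (K (.ofNat 44832521)) .nil .nil) .nil .nil)⟩,
  ⟨.x, T0, (.node (.ofNat 0) (K (.ofNat 249357580)) (K (.negSucc 169977461)) .nil .nil)⟩,
  ⟨.z, T1, (.node (.ofNat 0) (K (.ofNat 66462111)) (K (.ofNat 145979516)) .nil .nil)⟩,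
  ⟨.x, T4, (K (.ofNat 61947689))⟩,
  ⟨.x, T5, (K (.ofNat 48911901))⟩,
  ⟨.z, T2, (K (.ofNat 25462554))⟩,
  ⟨.z, T3, (K (.ofNat 94843533))⟩] (.node [⟨.z, .x, (.node (.ofNat 0) (K (.negSucc 27678320)) (K (.negSucc 73105844)) .nil .nil)⟩,
  ⟨.x, T0, (K (.negSucc 23790452))⟩,
  ⟨.z, T1, (K (.ofNat 63596763))⟩] (.node [⟨.z, .x, (K (.negSucc 5313569))⟩] .nil .nil .nil .nil) (.node [⟨.z, .x, (K (.negSucc 93612))⟩] .nil .nil .nil .nil) .nil .nil) (.node [⟨.z, .x, (.node (.ofNat 0) (K (.negSucc 364389819)) (K (.ofNat 218711811)) .nil .nil)⟩,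
  ⟨.x, T0, (K (.negSucc 127771802))⟩,
  ⟨.z, T1, (K (.ofNat 43019034))⟩] (.node [⟨.z, .x, (K (.ofNat 89541627))⟩] .nil .nil .nil .nil) (.node [⟨.z, .x, (K (.ofNat 55771105))⟩] .nil .nil .nil .nil) .nil .nil) .nil .nil) (.node [⟨.z, .x, (.node (.ofNat 0) (.node (.ofNat 0) (K (.negSucc 387277598)) (K (.negSucc 39132800)) .nil .nil) (.node (.ofNat 0) (K (.ofNat 38807016)) (K (.negSucc 96459506)) .nil .nil) .nil .nil)⟩,
  ⟨.x, T0, (.node (.ofNat 0) (K (.negSucc 215925351)) (K (.ofNat 243576000)) .nil .nil)⟩,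
  ⟨.z, T1, (.node (.ofNat 0) (K (.negSucc 315024426)) (K (.negSucc 79204392)) .nil .nil)⟩,
  ⟨.x, T4, (K (.negSucc 131921863))⟩,
  ⟨.x, T5, (K (.ofNat 220577273))⟩,
  ⟨.z, T2, (K (.ofNat 98237231))⟩,
  ⟨.z, T3, (K (.ofNat 176754985))⟩] (.node [⟨.z, .x, (.node (.ofNat 0) (K (.negSucc 314878474)) (K (.ofNat 195061057)) .nil .nil)⟩,
  ⟨.x, T0, (K (.negSucc 134335809))⟩,
  ⟨.z, T1, (K (.ofNat 22690982))⟩] (.node [⟨.z, .x, (K (.ofNat 20394229))⟩] .nil .nil .nil .nil) (.node [⟨.z, .x, (K (.ofNat 97188140))⟩] .nil .nil .nil .nil) .nil .nil) (.node [⟨.z, .x, (.node (.ofNat 0) (K (.negSucc 228751327)) (K (.ofNat 312859160)) .nil .nil)⟩,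
  ⟨.x, T0, (K (.ofNat 15827215))⟩,
  ⟨.z, T1, (K (.negSucc 12738144))⟩] (.node [⟨.z, .x, (K (.ofNat 142155174))⟩] .nil .nil .nil .nil) (.node [⟨.z, .x, (K (.ofNat 178650829))⟩] .nil .nil .nil .nil) .nil .nil) .nil .nil) .nil .nil)

/-- data -/
def w_lrl : Cert := (.node [⟨.z, .x, (.node (.ofNat 0) (.node (.ofNat 0) (.node (.ofNat 0) (K (.negSucc 933106466)) (K (.negSucc 805501585)) .nil .nil) (.node (.ofNat 0) (K (.negSucc 481156997)) (K (.ofNat 1492020129)) .nil .nil) .nil .nil) (.node (.ofNat 0) (.node (.ofNat 0) (K (.negSucc 158282610)) (K (.negSucc 65625425)) .nil .nil) (.node (.ofNat 0) (K (.negSucc 80980824)) (K (.ofNat 565264179)) .nil .nil) .nil .nil) .nil .nil)⟩,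
  ⟨.x, T0, (.node (.ofNat 0) (.node (.ofNat 0) (K (.negSucc 965313413)) (K (.negSucc 527740344)) .nil .nil) (.node (.ofNat 0) (K (.negSucc 483111702)) (K (.ofNat 1482332848)) .nil .nil) .nil .nil)⟩,
  ⟨.z, T1, (.node (.ofNat 0) (.node (.ofNat 0) (K (.ofNat 42793615)) (K (.negSucc 801012027)) .nil .nil) (.node (.ofNat 0) (K (.ofNat 276438529)) (K (.negSucc 151430578)) .nil .nil) .nil .nil)⟩,
  ⟨.x, T2, (.node (.ofNat 0) .nil .nil .nil (K (.ofNat 46987145)))⟩,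
  ⟨.x, T3, (.node (.ofNat 0) .nil .nil (K (.negSucc 159900376)) .nil)⟩,
  ⟨.x, T4, (.node (.ofNat 0) (K (.ofNat 289534121)) (K (.negSucc 690648966)) .nil .nil)⟩,
  ⟨.x, T5, (.node (.ofNat 0) (K (.negSucc 198131165)) (K (.ofNat 269627802)) .nil .nil)⟩,
  ⟨.z, T2, (.node (.ofNat 0) (K (.negSucc 122052184)) (K (.ofNat 271471885)) .nil .nil)⟩,
  ⟨.z, T3, (.node (.ofNat 0) (K (.negSucc 53266876)) (K (.ofNat 449434702)) .nil .nil)⟩,
  ⟨.x, T17, (K (.negSucc 5508979))⟩,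
  ⟨.x, T8, (K (.ofNat 69352940))⟩,
  ⟨.z, T6, (K (.ofNat 152309682))⟩,
  ⟨.z, T9, (K (.negSucc 69035263))⟩,
  ⟨.z, T7, (K (.negSucc 92983701))⟩] (.node [⟨.z, .x, (.node (.ofNat 0) (.node (.ofNat 0) (K (.ofNat 222819213)) (K (.negSucc 854360830)) .nil .nil) (.node (.ofNat 0) (K (.ofNat 263624895)) (K (.negSucc 182348624)) .nil .nil) .nil .nil)⟩,
  ⟨.x, T0, (.node (.ofNat 0) (K (.ofNat 143541465)) (K (.negSucc 804730904)) .nil .nil)⟩,
  ⟨.z, T1, (.node (.ofNat 0) (K (.ofNat 319092717)) (K (.negSucc 250494512)) .nil .nil)⟩,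
  ⟨.x, T4, (K (.ofNat 327910941))⟩,
  ⟨.x, T5, (K (.negSucc 13044676))⟩,
  ⟨.z, T2, (K (.negSucc 62194879))⟩,
  ⟨.z, T3, (K (.negSucc 71637008))⟩] (.node [⟨.z, .x, (.node (.ofNat 0) (K (.ofNat 57056969)) (K (.negSucc 130215527)) .nil .nil)⟩,
  ⟨.x, T0, (K (.ofNat 11263443))⟩,
  ⟨.z, T1, (K (.negSucc 727952))⟩] (.node [⟨.z, .x, (K (.ofNat 746518))⟩] .nil .nil .nil .nil) (.node [⟨.z, .x, (K (.negSucc 115897866))⟩] .nil .nil .nil .nil) .nil .nil) (.node [⟨.z, .x, (.node (.ofNat 0) (K (.negSucc 519546359)) (K (.ofNat 525748060)) .nil .nil)⟩,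
  ⟨.x, T0, (K (.negSucc 376736658))⟩,
  ⟨.z, T1, (K (.negSucc 111119279))⟩] (.node [⟨.z, .x, (K (.negSucc 40749434))⟩] .nil .nil .nil .nil) (.node [⟨.z, .x, (K (.negSucc 103022726))⟩] .nil .nil .nil .nil) .nil .nil) .nil .nil) (.node [⟨.z, .x, (.node (.ofNat 0) (.node (.ofNat 0) (K (.negSucc 573978090)) (K (.ofNat 303098251)) .nil .nil) (.node (.ofNat 0) (K (.ofNat 48152664)) (K (.negSucc 223796587)) .nil .nil) .nil .nil)⟩,
  ⟨.x, T0, (.node (.ofNat 0) (K (.negSucc 492261349)) (K (.ofNat 544531358)) .nil .nil)⟩,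
  ⟨.z, T1, (.node (.ofNat 0) (K (.negSucc 74578990)) (K (.ofNat 114527628)) .nil .nil)⟩,
  ⟨.x, T4, (K (.negSucc 24907259))⟩,
  ⟨.x, T5, (K (.ofNat 184714283))⟩,
  ⟨.z, T2, (K (.negSucc 88275388))⟩,
  ⟨.z, T3, (K (.negSucc 32355610))⟩] (.node [⟨.z, .x, (.node (.ofNat 0) (K (.negSucc 138861930)) (K (.ofNat 338311920)) .nil .nil)⟩,
  ⟨.x, T0, (K (.negSucc 60176235))⟩,
  ⟨.z, T1, (K (.negSucc 12927617))⟩] (.node [⟨.z, .x, (K (.ofNat 75591689))⟩] .nil .nil .nil .nil) (.node [⟨.z, .x, (K (.negSucc 82897501))⟩] .nil .nil .nil .nil) .nil .nil) (.node [⟨.z, .x, (.node (.ofNat 0) (K (.negSucc 292631503)) (K (.ofNat 495010178)) .nil .nil)⟩,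
  ⟨.x, T0, (K (.negSucc 156463944))⟩,
  ⟨.z, T1, (K (.negSucc 35368602))⟩] (.node [⟨.z, .x, (K (.negSucc 8993529))⟩] .nil .nil .nil .nil) (.node [⟨.z, .x, (K (.negSucc 82311704))⟩] .nil .nil .nil .nil) .nil .nil) .nil .nil) .nil (.node [⟨.x, T2, (K (.negSucc 199384300))⟩,
  ⟨.x, T3, (K (.ofNat 10716843))⟩] .nil .nil .nil .nil))

/-- data -/
def w_lrq : Cert := (.node [⟨.x, T2, (.node (.ofNat 0) (K (.negSucc 23833773)) (K (.ofNat 14546587)) .nil .nil)⟩,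
  ⟨.x, T3, (.node (.ofNat 0) (K (.negSucc 257500264)) (K (.negSucc 133786362)) .nil .nil)⟩,
  ⟨.x, T6, (K (.ofNat 121898520))⟩,
  ⟨.x, T7, (K (.negSucc 9125501))⟩] (.node [⟨.x, T2, (K (.negSucc 261611628))⟩,
  ⟨.x, T3, (K (.ofNat 384437239))⟩] .nil .nil .nil .nil) (.node [⟨.x, T2, (K (.ofNat 77099951))⟩,
  ⟨.x, T3, (K (.ofNat 132737758))⟩] .nil .nil .nil .nil) .nil .nil)

/-- data -/
def w_lr : Cert := (.node [⟨.z, .x, (.node (.ofNat 0) (.node (.ofNat 0) (.node (.ofNat 0) (.node (.ofNat 0) (K (.ofNat 212884489)) (K (.ofNat 642098531)) .nil .nil) (.node (.ofNat 0) (K (.ofNat 247617838)) (K (.negSucc 136975286)) .nil .nil) .nil .nil) (.node (.ofNat 0) (.node (.ofNat 0) (K (.negSucc 1101849782)) (K (.negSucc 180119966)) .nil .nil) (.node (.ofNat 0) (K (.ofNat 155050276)) (K (.ofNat 606732302)) .nil .nil) .nil .nil) .nil .nil) (.node (.ofNat 0) (.node (.ofNat 0) (.node (.ofNat 0) (K (.negSucc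 175283943)) (K (.ofNat 278342469)) .nil .nil) (.node (.ofNat 0) (K (.ofNat 282534874)) (K (.ofNat 512090766)) .nil .nil) .nil .nil) (.node (.ofNat 0) (.node (.ofNat 0) (K (.negSucc 382568208)) (K (.negSucc 48398017)) .nil .nil) (.node (.ofNat 0) (K (.negSucc 147749103)) (K (.ofNat 154617747)) .nil .nil) .nil .nil) .nil .nil) .nil .nil)⟩,
  ⟨.x, T0, (.node (.ofNat 0) (.node (.ofNat 0) (.node (.ofNat 0) (K (.ofNat 59597776)) (K (.ofNat 216422672)) .nil .nil) (.node (.ofNat 0) (K (.negSucc 71220726)) (K (.negSucc 315440235)) .nil .nil) .nil .nil) (.node (.ofNat 0) (.node (.ofNat 0) (K (.negSucc 859506133)) (K (.negSucc 331756353)) .nil .nil) (.node (.ofNat 0) (K (.negSucc 126379013)) (K (.ofNat 393282974)) .nil .nil) .nil .nil) .nil .nil)⟩,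
  ⟨.z, T1, (.node (.ofNat 0) (.node (.ofNat 0) (.node (.ofNat 0) (K (.ofNat 692025364)) (K (.ofNat 524569700)) .nil .nil) (.node (.ofNat 0) (K (.ofNat 207101452)) (K (.negSucc 558824687)) .nil .nil) .nil .nil) (.node (.ofNat 0) (.node (.ofNat 0) (K (.ofNat 311764031)) (K (.ofNat 108563578)) .nil .nil) (.node (.ofNat 0) (K (.negSucc 37878938)) (K (.negSucc 423430858)) .nil .nil) .nil .nil) .nil .nil)⟩,
  ⟨.x, T2, (.node (.ofNat 0) (.node (.ofNat 0) .nil .nil .nil (K (.negSucc 30429536))) (.node (.ofNat 0) .nil .nil .nil (K (.negSucc 22265369))) .nil (.node (.ofNat 0) (K (.negSucc 6246690)) (K (.negSucc 211841494)) .nil .nil))⟩,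
  ⟨.x, T3, (.node (.ofNat 0) (.node (.ofNat 0) .nil .nil (K (.ofNat 11272144)) (K (.ofNat 40027819))) (.node (.ofNat 0) .nil .nil .nil (K (.ofNat 20448328))) (.node (.ofNat 0) (K (.negSucc 132860151)) (K (.negSucc 107889166)) .nil .nil) .nil)⟩,
  ⟨.x, T4, (.node (.ofNat 0) (.node (.ofNat 0) (K (.ofNat 692025364)) (K (.ofNat 507703170)) .nil .nil) (.node (.ofNat 0) (K (.ofNat 114617983)) (K (.negSucc 381526837)) .nil .nil) .nil .nil)⟩,
  ⟨.x, T5, (.node (.ofNat 0) (.node (.ofNat 0) (K (.negSucc 295570678)) (K (.negSucc 60358329)) .nil .nil) (.node (.ofNat 0) (K (.negSucc 5741396)) (K (.ofNat 268335062)) .nil .nil) .nil .nil)⟩,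
  ⟨.z, T2, (.node (.ofNat 0) (.node (.ofNat 0) (K (.negSucc 248416233)) (K (.negSucc 301934862)) .nil .nil) (.node (.ofNat 0) (K (.negSucc 45630919)) (K (.ofNat 123362962)) .nil .nil) .nil .nil)⟩,
  ⟨.z, T3, (.node (.ofNat 0) (.node (.ofNat 0) (K (.negSucc 235029939)) (K (.negSucc 240737623)) .nil .nil) (.node (.ofNat 0) (K (.ofNat 65633727)) (K (.ofNat 192389026)) .nil .nil) .nil .nil)⟩,
  ⟨.x, T6, (.node (.ofNat 0) .nil .nil .nil (K (.negSucc 16643231)))⟩,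
  ⟨.x, T7, (.node (.ofNat 0) .nil .nil (K (.negSucc 6192311)) .nil)⟩,
  ⟨.x, T17, (.node (.ofNat 0) .nil (K (.negSucc 172228867)) .nil .nil)⟩,
  ⟨.x, T8, (.node (.ofNat 0) (K (.ofNat 52805044)) (K (.negSucc 70471023)) .nil .nil)⟩,
  ⟨.z, T6, (.node (.ofNat 0) (K (.ofNat 122936586)) (K (.negSucc 135000191)) .nil .nil)⟩,
  ⟨.z, T9, (.node (.ofNat 0) (K (.negSucc 60503567)) (K (.ofNat 34302298)) .nil .nil)⟩,
  ⟨.z, T7, (.node (.ofNat 0) (K (.negSucc 73224757)) (K (.negSucc 93057111)) .nil .nil)⟩,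
  ⟨.z, T10, (K (.negSucc 6404831))⟩,
  ⟨.z, T11, (K (.negSucc 5992703))⟩] w_lrr w_lrl .nil w_lrq)

/-- data -/
def w_llr : Cert := (.node [⟨.z, .x, (.node (.ofNat 0) (.node (.ofNat 0) (.node (.ofNat 0) (K (.negSucc 445883663)) (K (.negSucc 701464264)) .nil .nil) (.node (.ofNat 0) (K (.negSucc 528550445)) (K (.ofNat 1062377999)) .nil .nil) .nil .nil) (.node (.ofNat 0) (.node (.ofNat 0) (K (.negSucc 303994963)) (K (.negSucc 509484858)) .nil .nil) (.node (.ofNat 0) (K (.negSucc 244722896)) (K (.ofNat 299410853)) .nil .nil) .nil .nil) .nil .nil)⟩,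
  ⟨.x, T0, (.node (.ofNat 0) (.node (.ofNat 0) (K (.negSucc 267817669)) (K (.negSucc 248411530)) .nil .nil) (.node (.ofNat 0) (K (.negSucc 408515985)) (K (.ofNat 1198245943)) .nil .nil) .nil .nil)⟩,
  ⟨.z, T1, (.node (.ofNat 0) (.node (.ofNat 0) (K (.ofNat 148314455)) (K (.negSucc 833475781)) .nil .nil) (.node (.ofNat 0) (K (.ofNat 257229407)) (K (.negSucc 344420838)) .nil .nil) .nil .nil)⟩,
  ⟨.x, T2, (.node (.ofNat 0) .nil .nil .nil (K (.ofNat 111581119)))⟩,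
  ⟨.x, T3, (.node (.ofNat 0) .nil .nil (K (.negSucc 199174732)) .nil)⟩,
  ⟨.x, T4, (.node (.ofNat 0) (K (.ofNat 147755879)) (K (.negSucc 1042759473)) .nil .nil)⟩,
  ⟨.x, T5, (.node (.ofNat 0) (K (.negSucc 265061484)) (K (.ofNat 434919690)) .nil .nil)⟩,
  ⟨.z, T2, (.node (.ofNat 0) (K (.negSucc 42180086)) (K (.ofNat 224585166)) .nil .nil)⟩,
  ⟨.z, T3, (.node (.ofNat 0) (K (.negSucc 30934124)) (K (.ofNat 375773178)) .nil .nil)⟩,
  ⟨.x, T17, (K (.ofNat 20898188))⟩,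
  ⟨.x, T8, (K (.ofNat 26102416))⟩,
  ⟨.z, T6, (K (.ofNat 230647812))⟩,
  ⟨.z, T9, (K (.negSucc 31688673))⟩,
  ⟨.z, T7, (K (.negSucc 123384343))⟩] (.node [⟨.z, .x, (.node (.ofNat 0) (.node (.ofNat 0) (K (.ofNat 553494036)) (K (.negSucc 387424262)) .nil .nil) (.node (.ofNat 0) (K (.ofNat 310696391)) (K (.negSucc 80597991)) .nil .nil) .nil .nil)⟩,
  ⟨.x, T0, (.node (.ofNat 0) (K (.ofNat 244722868)) (K (.negSucc 692356515)) .nil .nil)⟩,
  ⟨.z, T1, (.node (.ofNat 0) (K (.ofNat 502516949)) (K (.ofNat 59184756)) .nil .nil)⟩,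
  ⟨.x, T4, (K (.ofNat 489863111))⟩,
  ⟨.x, T5, (K (.negSucc 190449060))⟩,
  ⟨.z, T2, (K (.negSucc 81460729))⟩,
  ⟨.z, T3, (K (.negSucc 110497324))⟩] (.node [⟨.z, .x, (.node (.ofNat 0) (K (.negSucc 3233878)) (K (.negSucc 185815548)) .nil .nil)⟩,
  ⟨.x, T0, (K (.ofNat 6206989))⟩,
  ⟨.z, T1, (K (.negSucc 35120688))⟩] (.node [⟨.z, .x, (K (.negSucc 4677661))⟩] .nil .nil .nil .nil) (.node [⟨.z, .x, (K (.negSucc 149866492))⟩] .nil .nil .nil .nil) .nil .nil) (.node [⟨.z, .x, (.node (.ofNat 0) (K (.negSucc 571223619)) (K (.ofNat 464111417)) .nil .nil)⟩,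
  ⟨.x, T0, (K (.negSucc 497846930))⟩,
  ⟨.z, T1, (K (.negSucc 84479343))⟩] (.node [⟨.z, .x, (K (.negSucc 113585226))⟩] .nil .nil .nil .nil) (.node [⟨.z, .x, (K (.negSucc 230251990))⟩] .nil .nil .nil .nil) .nil .nil) .nil .nil) (.node [⟨.z, .x, (.node (.ofNat 0) (.node (.ofNat 0) (K (.ofNat 41558201)) (K (.ofNat 606082426)) .nil .nil) (.node (.ofNat 0) (K (.ofNat 161821261)) (K (.ofNat 196976442)) .nil .nil) .nil .nil)⟩,
  ⟨.x, T0, (.node (.ofNat 0) (K (.ofNat 63186218)) (K (.ofNat 525211234)) .nil .nil)⟩,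
  ⟨.z, T1, (.node (.ofNat 0) (K (.ofNat 500003653)) (K (.ofNat 657274337)) .nil .nil)⟩,
  ⟨.x, T4, (K (.ofNat 518145664))⟩,
  ⟨.x, T5, (K (.negSucc 212807534))⟩,
  ⟨.z, T2, (K (.negSucc 263407854))⟩,
  ⟨.z, T3, (K (.negSucc 228763470))⟩] (.node [⟨.z, .x, (.node (.ofNat 0) (K (.negSucc 184885254)) (K (.ofNat 256803123)) .nil .nil)⟩,
  ⟨.x, T0, (K (.negSucc 129504813))⟩,
  ⟨.z, T1, (K (.negSucc 5422227))⟩] (.node [⟨.z, .x, (K (.ofNat 65772757))⟩] .nil .nil .nil .nil) (.node [⟨.z, .x, (K (.negSucc 315527083))⟩] .nil .nil .nil .nil) .nil .nil) (.node [⟨.z, .x, (.node (.ofNat 0) (K (.negSucc 815639507)) (K (.ofNat 328322354)) .nil .nil)⟩,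
  ⟨.x, T0, (K (.negSucc 761371682))⟩,
  ⟨.z, T1, (K (.negSucc 67786758))⟩] (.node [⟨.z, .x, (K (.negSucc 198446895))⟩] .nil .nil .nil .nil) (.node [⟨.z, .x, (K (.negSucc 346070028))⟩] .nil .nil .nil .nil) .nil .nil) .nil .nil) .nil .nil)

/-- data -/
def w_lll : Cert := (.node [⟨.z, .x, (.node (.ofNat 0) (.node (.ofNat 0) (.node (.ofNat 0) (K (.negSucc 1000425960)) (K (.negSucc 422477219)) .nil .nil) (.node (.ofNat 0) (K (.negSucc 721078950)) (K (.ofNat 1361929202)) .nil .nil) .nil .nil) (.node (.ofNat 0) (.node (.ofNat 0) (K (.negSucc 256966932)) (K (.negSucc 139216579)) .nil .nil) (.node (.ofNat 0) (K (.negSucc 237351564)) (K (.ofNat 304010234)) .nil .nil) .nil .nil) .nil .nil)⟩,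
  ⟨.x, T0, (.node (.ofNat 0) (.node (.ofNat 0) (K (.negSucc 1027859634)) (K (.negSucc 401581068)) .nil .nil) (.node (.ofNat 0) (K (.negSucc 740479920)) (K (.ofNat 1253605258)) .nil .nil) .nil .nil)⟩,
  ⟨.z, T1, (.node (.ofNat 0) (.node (.ofNat 0) (K (.ofNat 55825189)) (K (.negSucc 165477259)) .nil .nil) (.node (.ofNat 0) (K (.ofNat 243144203)) (K (.ofNat 295781932)) .nil .nil) .nil .nil)⟩,
  ⟨.x, T2, (.node (.ofNat 0) .nil .nil .nil (K (.ofNat 39330654)))⟩,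
  ⟨.x, T3, (.node (.ofNat 0) .nil .nil (K (.negSucc 36680051)) .nil)⟩,
  ⟨.x, T4, (.node (.ofNat 0) (K (.ofNat 410005533)) (K (.negSucc 191862903)) .nil .nil)⟩,
  ⟨.x, T5, (.node (.ofNat 0) (K (.negSucc 313922814)) (K (.negSucc 34162784)) .nil .nil)⟩,
  ⟨.z, T2, (.node (.ofNat 0) (K (.negSucc 87938617)) (K (.ofNat 158659625)) .nil .nil)⟩,
  ⟨.z, T3, (.node (.ofNat 0) (K (.negSucc 61354209)) (K (.negSucc 29564786)) .nil .nil)⟩,
  ⟨.x, T22, (K (.negSucc 720683))⟩,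
  ⟨.x, T17, (K (.ofNat 20328808))⟩,
  ⟨.x, T8, (K (.ofNat 10928516))⟩,
  ⟨.z, T6, (K (.ofNat 42450996))⟩,
  ⟨.z, T9, (K (.negSucc 14748451))⟩,
  ⟨.z, T7, (K (.negSucc 16386159))⟩] (.node [⟨.z, .x, (.node (.ofNat 0) (.node (.ofNat 0) (K (.ofNat 290738521)) (K (.negSucc 776162400)) .nil .nil) (.node (.ofNat 0) (K (.ofNat 192983228)) (K (.ofNat 193928844)) .nil .nil) .nil .nil)⟩,
  ⟨.x, T0, (.node (.ofNat 0) (K (.ofNat 308020395)) (K (.negSucc 867373609)) .nil .nil)⟩,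
  ⟨.z, T1, (.node (.ofNat 0) (K (.ofNat 674926680)) (K (.ofNat 216914516)) .nil .nil)⟩,
  ⟨.x, T4, (K (.ofNat 669805248))⟩,
  ⟨.x, T5, (K (.negSucc 365497647))⟩,
  ⟨.z, T2, (K (.negSucc 192769499))⟩,
  ⟨.z, T3, (K (.negSucc 202670367))⟩] (.node [⟨.z, .x, (.node (.ofNat 0) (K (.negSucc 62914011)) (K (.negSucc 158479164)) .nil .nil)⟩,
  ⟨.x, T0, (K (.negSucc 68168293))⟩,
  ⟨.z, T1, (K (.negSucc 5593373))⟩] (.node [⟨.z, .x, (K (.negSucc 6127933))⟩] .nil .nil .nil .nil) (.node [⟨.z, .x, (K (.negSucc 224351605))⟩] .nil .nil .nil .nil) .nil .nil) (.node [⟨.z, .x, (.node (.ofNat 0) (K (.negSucc 887134617)) (K (.ofNat 36145348)) .nil .nil)⟩,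
  ⟨.x, T0, (K (.negSucc 798568241))⟩,
  ⟨.z, T1, (K (.negSucc 191207553))⟩] (.node [⟨.z, .x, (K (.negSucc 211088801))⟩] .nil .nil .nil .nil) (.node [⟨.z, .x, (K (.negSucc 214257057))⟩] .nil .nil .nil .nil) .nil .nil) .nil .nil) (.node [⟨.z, .x, (.node (.ofNat 0) (.node (.ofNat 0) (K (.negSucc 547326739)) (K (.negSucc 233551834)) .nil .nil) (.node (.ofNat 0) (K (.negSucc 17680302)) (K (.ofNat 191547940)) .nil .nil) .nil .nil)⟩,
  ⟨.x, T0, (.node (.ofNat 0) (K (.negSucc 373515889)) (K (.negSucc 149168212)) .nil .nil)⟩,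
  ⟨.z, T1, (.node (.ofNat 0) (K (.ofNat 256107556)) (K (.ofNat 431550009)) .nil .nil)⟩,
  ⟨.x, T4, (K (.ofNat 344734746))⟩,
  ⟨.x, T5, (K (.negSucc 205524319))⟩,
  ⟨.z, T2, (K (.negSucc 167715445))⟩,
  ⟨.z, T3, (K (.negSucc 158315153))⟩] (.node [⟨.z, .x, (.node (.ofNat 0) (K (.negSucc 157912485)) (K (.ofNat 13220658)) .nil .nil)⟩,
  ⟨.x, T0, (K (.negSucc 74034677))⟩,
  ⟨.z, T1, (K (.ofNat 933786))⟩] (.node [⟨.z, .x, (K (.ofNat 18757682))⟩] .nil .nil .nil .nil) (.node [⟨.z, .x, (K (.negSucc 168061239))⟩] .nil .nil .nil .nil) .nil .nil) (.node [⟨.z, .x, (.node (.ofNat 0) (K (.negSucc 638389219)) (K (.negSucc 7246442)) .nil .nil)⟩,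
  ⟨.x, T0, (K (.negSucc 562822065))⟩,
  ⟨.z, T1, (K (.negSucc 137769057))⟩] (.node [⟨.z, .x, (K (.negSucc 154351301))⟩] .nil .nil .nil .nil) (.node [⟨.z, .x, (K (.negSucc 170187813))⟩] .nil .nil .nil .nil) .nil .nil) .nil .nil) .nil (.node [⟨.x, T2, (K (.negSucc 91848279))⟩,
  ⟨.x, T3, (K (.ofNat 22044352))⟩] .nil .nil .nil .nil))

/-- data -/
def w_llq : Cert := (.node [⟨.x, T2, (.node (.ofNat 0) (K (.negSucc 67465673)) (K (.negSucc 53905932)) .nil .nil)⟩,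
  ⟨.x, T3, (.node (.ofNat 0) (K (.ofNat 5291334)) (K (.negSucc 4825843)) .nil .nil)⟩,
  ⟨.x, T6, (K (.ofNat 2639088))⟩,
  ⟨.x, T7, (K (.ofNat 12914676))⟩] (.node [⟨.x, T2, (K (.negSucc 24126026))⟩,
  ⟨.x, T3, (K (.negSucc 199076239))⟩] .nil .nil .nil .nil) (.node [⟨.x, T2, (K (.negSucc 69812457))⟩,
  ⟨.x, T3, (K (.negSucc 13063067))⟩] .nil .nil .nil .nil) .nil .nil)

/-- data -/
def w_ll : Cert := (.node [⟨.z, .x, (.node (.ofNat 0) (.node (.ofNat 0) (.node (.ofNat 0) (.node (.ofNat 0) (K (.negSucc 259890755)) (K (.ofNat 864599616)) .nil .nil) (.node (.ofNat 0) (K (.negSucc 20428132)) (K (.ofNat 1057144638)) .nil .nil) .nil .nil) (.node (.ofNat 0) (.node (.ofNat 0) (K (.negSucc 1335679877)) (K (.ofNat 846919912)) .nil .nil) (.node (.ofNat 0) (K (.ofNat 146717683)) (K (.ofNat 1191562553)) .nil .nil) .nil .nil) .nil .nil) (.node (.ofNat 0) (.node (.ofNat 0) (.node (.ofNat 0) (K (.negSucc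 63508874)) (K (.ofNat 522052043)) .nil .nil) (.node (.ofNat 0) (K (.ofNat 629172973)) (K (.ofNat 312924478)) .nil .nil) .nil .nil) (.node (.ofNat 0) (.node (.ofNat 0) (K (.negSucc 166524709)) (K (.ofNat 438683535)) .nil .nil) (.node (.ofNat 0) (K (.ofNat 243381646)) (K (.ofNat 250246786)) .nil .nil) .nil .nil) .nil .nil) .nil .nil)⟩,
  ⟨.x, T0, (.node (.ofNat 0) (.node (.ofNat 0) (.node (.ofNat 0) (K (.negSucc 281343999)) (K (.ofNat 338607709)) .nil .nil) (.node (.ofNat 0) (K (.negSucc 246731444)) (K (.ofNat 829048754)) .nil .nil) .nil .nil) (.node (.ofNat 0) (.node (.ofNat 0) (K (.negSucc 991183158)) (K (.ofNat 205878085)) .nil .nil) (.node (.ofNat 0) (K (.negSucc 329568829)) (K (.ofNat 1113356442)) .nil .nil) .nil .nil) .nil .nil)⟩,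
  ⟨.z, T1, (.node (.ofNat 0) (.node (.ofNat 0) (.node (.ofNat 0) (K (.ofNat 584620822)) (K (.ofNat 192964961)) .nil .nil) (.node (.ofNat 0) (K (.ofNat 58492677)) (K (.negSucc 696951393)) .nil .nil) .nil .nil) (.node (.ofNat 0) (.node (.ofNat 0) (K (.ofNat 469939946)) (K (.ofNat 240101914)) .nil .nil) (.node (.ofNat 0) (K (.ofNat 128627941)) (K (.negSucc 431386033)) .nil .nil) .nil .nil) .nil .nil)⟩,
  ⟨.x, T2, (.node (.ofNat 0) (.node (.ofNat 0) .nil .nil .nil (K (.negSucc 64631038))) (.node (.ofNat 0) .nil .nil .nil (K (.ofNat 6620489))) .nil (.node (.ofNat 0) (K (.negSucc 28724798)) (K (.negSucc 66288958)) .nil .nil))⟩,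
  ⟨.x, T3, (.node (.ofNat 0) (.node (.ofNat 0) .nil .nil (K (.ofNat 3398112)) (K (.ofNat 77535791))) (.node (.ofNat 0) .nil .nil .nil (K (.ofNat 107087185))) (.node (.ofNat 0) (K (.negSucc 14374305)) (K (.ofNat 183500439)) .nil .nil) .nil)⟩,
  ⟨.x, T4, (.node (.ofNat 0) (.node (.ofNat 0) (K (.ofNat 727310034)) (K (.ofNat 348920579)) .nil .nil) (.node (.ofNat 0) (K (.ofNat 216499318)) (K (.negSucc 732477974)) .nil .nil) .nil .nil)⟩,
  ⟨.x, T5, (.node (.ofNat 0) (.node (.ofNat 0) (K (.negSucc 388647525)) (K (.negSucc 112047678)) .nil .nil) (.node (.ofNat 0) (K (.negSucc 17429233)) (K (.ofNat 539942072)) .nil .nil) .nil .nil)⟩,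
  ⟨.z, T2, (.node (.ofNat 0) (.node (.ofNat 0) (K (.negSucc 330388015)) (K (.negSucc 133787869)) .nil .nil) (.node (.ofNat 0) (K (.negSucc 37161316)) (K (.ofNat 273857495)) .nil .nil) .nil .nil)⟩,
  ⟨.z, T3, (.node (.ofNat 0) (.node (.ofNat 0) (K (.negSucc 308203179)) (K (.negSucc 89577323)) .nil .nil) (.node (.ofNat 0) (K (.ofNat 17034291)) (K (.ofNat 454097842)) .nil .nil) .nil .nil)⟩,
  ⟨.x, T6, (.node (.ofNat 0) .nil .nil .nil (K (.negSucc 34900307)))⟩,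
  ⟨.x, T7, (.node (.ofNat 0) .nil .nil (K (.ofNat 3532914)) .nil)⟩,
  ⟨.x, T17, (.node (.ofNat 0) .nil (K (.negSucc 47272199)) .nil .nil)⟩,
  ⟨.x, T8, (.node (.ofNat 0) (K (.negSucc 21236247)) (K (.ofNat 61747992)) .nil .nil)⟩,
  ⟨.z, T6, (.node (.ofNat 0) (K (.ofNat 6841900)) (K (.negSucc 121812317)) .nil .nil)⟩,
  ⟨.z, T9, (.node (.ofNat 0) (K (.negSucc 22462047)) (K (.ofNat 207753042)) .nil .nil)⟩,
  ⟨.z, T7, (.node (.ofNat 0) (K (.ofNat 481464)) (K (.ofNat 38843022)) .nil .nil)⟩,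
  ⟨.z, T10, (K (.negSucc 3598991))⟩,
  ⟨.z, T11, (K (.negSucc 3197231))⟩] w_llr w_lll .nil w_llq)

/-- data -/
def w_lqr : Cert := (.node [⟨.x, T2, (.node (.ofNat 0) (K (.ofNat 100701736)) (K (.negSucc 9837240)) .nil .nil)⟩,
  ⟨.x, T3, (.node (.ofNat 0) (K (.negSucc 193632811)) (K (.negSucc 65500168)) .nil .nil)⟩,
  ⟨.x, T6, (K (.ofNat 65033928))⟩,
  ⟨.x, T7, (K (.negSucc 38858405))⟩] (.node [⟨.x, T2, (K (.negSucc 92270086))⟩,
  ⟨.x, T3, (K (.ofNat 249887147))⟩] .nil .nil .nil .nil) (.node [⟨.x, T2, (K (.ofNat 19223585))⟩,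
  ⟨.x, T3, (K (.ofNat 238760383))⟩] .nil .nil .nil .nil) .nil .nil)

/-- data -/
def w_lql : Cert := (.node [⟨.x, T2, (.node (.ofNat 0) (K (.ofNat 22891912)) (K (.negSucc 72022577)) .nil .nil)⟩,
  ⟨.x, T3, (.node (.ofNat 0) (K (.negSucc 18124811)) (K (.ofNat 5957950)) .nil .nil)⟩,
  ⟨.x, T6, (K (.ofNat 21121344))⟩,
  ⟨.x, T7, (K (.negSucc 2621375))⟩] (.node [⟨.x, T2, (K (.negSucc 22485348))⟩,
  ⟨.x, T3, (K (.ofNat 69924987))⟩] .nil .nil .nil .nil) (.node [⟨.x, T2, (K (.negSucc 3893043))⟩,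
  ⟨.x, T3, (K (.ofNat 2559168))⟩] .nil .nil .nil .nil) .nil .nil)

/-- data -/
def w_lq : Cert := (.node [⟨.x, T2, (.node (.ofNat 0) (.node (.ofNat 0) (K (.negSucc 81800097)) (K (.negSucc 119460122)) .nil .nil) (.node (.ofNat 0) (K (.negSucc 130177456)) (K (.ofNat 37907682)) .nil .nil) .nil .nil)⟩,
  ⟨.x, T3, (.node (.ofNat 0) (.node (.ofNat 0) (K (.negSucc 5618357)) (K (.ofNat 60896164)) .nil .nil) (.node (.ofNat 0) (K (.ofNat 102541088)) (K (.ofNat 45011751)) .nil .nil) .nil .nil)⟩,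
  ⟨.x, T6, (.node (.ofNat 0) .nil (K (.negSucc 1496663)) .nil .nil)⟩,
  ⟨.x, T7, (.node (.ofNat 0) (K (.ofNat 4945356)) (K (.negSucc 9307175)) .nil .nil)⟩] w_lqr w_lql .nil .nil)

/-- data -/
def w_l : Cert := (.node [⟨.z, .x, (.node (.ofNat 0) (.node (.ofNat 0) (.node (.ofNat 0) (.node (.ofNat 0) (.node (.ofNat 0) (K (.negSucc 488019373)) (K (.ofNat 1043531259)) .nil .nil) (.node (.ofNat 0) (K (.ofNat 687012366)) (K (.ofNat 1161789086)) .nil .nil) .nil .nil) (.node (.ofNat 0) (.node (.ofNat 0) (K (.negSucc 1814001994)) (K (.ofNat 952234762)) .nil .nil) (.node (.ofNat 0) (K (.ofNat 774369179)) (K (.ofNat 1737732975)) .nil .nil) .nil .nil) .nil .nil) (.node (.ofNat 0) (.node (.ofNat 0) (.node (.ofNat 0) (K (.negSucc 1646599263)) (K (.ofNat 148134236)) .nil .nil) (.node (.ofNat 0) (K (.ofNat 805881756)) (K (.ofNat 3066428914)) .nil .nil) .nil .nil) (.node (.ofNat 0) (.node (.ofNat 0)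 (K (.negSucc 532248146)) (K (.negSucc 35166843)) .nil .nil) (.node (.ofNat 0) (K (.negSucc 331283993)) (K (.ofNat 611100745)) .nil .nil) .nil .nil) .nil .nil) .nil .nil) (.node (.ofNat 0) (.node (.ofNat 0) (.node (.ofNat 0) (.node (.ofNat 0) (K (.ofNat 239387413)) (K (.negSucc 162212262)) .nil .nil) (.node (.ofNat 0) (K (.ofNat 107186142)) (K (.ofNat 25594931)) .nil .nil) .nil .nil) (.node (.ofNat 0) (.node (.ofNat 0) (K (.ofNat 153750225)) (K (.negSucc 42857113)) .nil .nil) (.node (.ofNat 0) (K (.negSucc 230437298)) (K (.ofNat 149826770)) .nil .nil) .nil .nil) .nil .nil) (.node (.ofNat 0) (.node (.ofNat 0) (.node (.ofNat 0) (K (.negSucc 114310674)) (K (.negSucc 304838104)) .nil .nil) (.node (.ofNat 0) (K (.negSucc 282630993)) (K (.ofNat 117775998)) .nil .nil) .nil .nil) (.node (.ofNat 0) (.node (.ofNat 0) (K (.ofNat 57636940)) (K (.negSucc 104172649)) .nil .nil) (.node (.ofNat 0)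 (K (.negSucc 260522102)) (K (.negSucc 15520928)) .nil .nil) .nil .nil) .nil .nil) .nil .nil) .nil .nil)⟩,
  ⟨.x, T0, (.node (.ofNat 0) (.node (.ofNat 0) (.node (.ofNat 0) (.node (.ofNat 0) (K (.negSucc 591928973)) (K (.ofNat 1077723181)) .nil .nil) (.node (.ofNat 0) (K (.ofNat 569041994)) (K (.ofNat 1242070535)) .nil .nil) .nil .nil) (.node (.ofNat 0) (.node (.ofNat 0) (K (.negSucc 1598035617)) (K (.ofNat 948974231)) .nil .nil) (.node (.ofNat 0) (K (.ofNat 745042570)) (K (.ofNat 1524283355)) .nil .nil) .nil .nil) .nil .nil) (.node (.ofNat 0) (.node (.ofNat 0) (.node (.ofNat 0) (K (.negSucc 1592720941)) (K (.ofNat 350814669)) .nil .nil) (.node (.ofNat 0) (K (.ofNat 798396465)) (K (.ofNat 2920905024)) .nil .nil) .nil .nil) (.node (.ofNat 0) (.node (.ofNat 0) (K (.negSucc 524655677)) (K (.negSucc 183498278)) .nil .nil) (.node (.ofNat 0) (K (.negSucc 254777432)) (K (.ofNat 370123853))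 .nil .nil) .nil .nil) .nil .nil) .nil .nil)⟩,
  ⟨.z, T1, (.node (.ofNat 0) (.node (.ofNat 0) (.node (.ofNat 0) (.node (.ofNat 0) (K (.ofNat 176162156)) (K (.ofNat 248306571)) .nil .nil) (.node (.ofNat 0) (K (.ofNat 629544023)) (K (.negSucc 236417709)) .nil .nil) .nil .nil) (.node (.ofNat 0) (.node (.ofNat 0) (K (.negSucc 388556984)) (K (.ofNat 83856193)) .nil .nil) (.node (.ofNat 0) (K (.ofNat 561352747)) (K (.ofNat 438121511)) .nil .nil) .nil .nil) .nil .nil) (.node (.ofNat 0) (.node (.ofNat 0) (.node (.ofNat 0) (K (.negSucc 434020028)) (K (.negSucc 68584789)) .nil .nil) (.node (.ofNat 0) (K (.ofNat 326535291)) (K (.ofNat 373354948)) .nil .nil) .nil .nil) (.node (.ofNat 0) (.node (.ofNat 0) (K (.negSucc 327451190)) (K (.negSucc 392343544)) .nil .nil) (.node (.ofNat 0) (K (.negSucc 251009523)) (K (.negSucc 179203874)) .nil .nil) .nil .nil) .nil .nil) .nil .nil)⟩,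
  ⟨.x, T2, (.node (.ofNat 0) (.node (.ofNat 0) (.node (.ofNat 0) .nil .nil (K (.ofNat 215348)) .nil) (.node (.ofNat 0) .nil .nil .nil (K (.ofNat 70229025))) .nil (.node (.ofNat 0) (K (.ofNat 8607522)) (K (.negSucc 38849530)) .nil .nil)) (.node (.ofNat 0) (.node (.ofNat 0) .nil .nil .nil (K (.ofNat 52850530))) (.node (.ofNat 0) .nil .nil .nil (K (.ofNat 3824541))) .nil (.node (.ofNat 0) (K (.negSucc 26412216)) (K (.ofNat 52453857)) .nil .nil)) .nil (.node (.ofNat 0) (.node (.ofNat 0) (K (.ofNat 52568689)) (K (.ofNat 31251720)) .nil .nil) (.node (.ofNat 0) (K (.ofNat 55704116)) (K (.negSucc 13605266)) .nil .nil) .nil .nil))⟩,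
  ⟨.x, T3, (.node (.ofNat 0) (.node (.ofNat 0) (.node (.ofNat 0) .nil .nil (K (.ofNat 25272)) .nil) (.node (.ofNat 0) .nil .nil .nil (K (.ofNat 29321197))) (.node (.ofNat 0) (K (.ofNat 167184)) (K (.ofNat 463754)) .nil .nil) (.node (.ofNat 0) (K (.negSucc 31580487)) (K (.ofNat 112762611)) .nil .nil)) (.node (.ofNat 0) (.node (.ofNat 0) .nil .nil .nil (K (.ofNat 47051776))) (.node (.ofNat 0) .nil .nil .nil (K (.ofNat 95298001))) .nil (.node (.ofNat 0) (K (.ofNat 47943369)) (K (.negSucc 58496544)) .nil .nil)) (.node (.ofNat 0) (.node (.ofNat 0) (K (.negSucc 11382333)) (K (.negSucc 169874920)) .nil .nil) (.node (.ofNat 0) (K (.negSucc 192538478)) (K (.negSucc 293253968)) .nil .nil) .nil .nil) .nil)⟩,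
  ⟨.x, T4, (.node (.ofNat 0) (.node (.ofNat 0) (.node (.ofNat 0) (K (.ofNat 472135172)) (K (.negSucc 136900707)) .nil .nil) (.node (.ofNat 0) (K (.ofNat 267695061)) (K (.negSucc 1181039805)) .nil .nil) .nil .nil) (.node (.ofNat 0) (.node (.ofNat 0) (K (.ofNat 222675514)) (K (.negSucc 256885543)) .nil .nil) (.node (.ofNat 0) (K (.ofNat 224786853)) (K (.negSucc 295141783)) .nil .nil) .nil .nil) .nil .nil)⟩,
  ⟨.x, T5, (.node (.ofNat 0) (.node (.ofNat 0) (.node (.ofNat 0) (K (.negSucc 350865527)) (K (.ofNat 113307762)) .nil .nil) (.node (.ofNat 0) (K (.negSucc 222010512)) (K (.ofNat 1037509537)) .nil .nil) .nil .nil) (.node (.ofNat 0) (.node (.ofNat 0) (K (.negSucc 220671815)) (K (.ofNat 287262169)) .nil .nil) (.node (.ofNat 0) (K (.negSucc 205931313)) (K (.ofNat 328193049)) .nil .nil) .nil .nil) .nil .nil)⟩,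
  ⟨.z, T2, (.node (.ofNat 0) (.node (.ofNat 0) (.node (.ofNat 0) (K (.negSucc 113142355)) (K (.ofNat 84369968)) .nil .nil) (.node (.ofNat 0) (K (.negSucc 77808769)) (K (.negSucc 5399008)) .nil .nil) .nil .nil) (.node (.ofNat 0) (.node (.ofNat 0) (K (.negSucc 89011928)) (K (.negSucc 128503885)) .nil .nil) (.node (.ofNat 0) (K (.negSucc 100626069)) (K (.negSucc 180361280)) .nil .nil) .nil .nil) .nil .nil)⟩,
  ⟨.z, T3, (.node (.ofNat 0) (.node (.ofNat 0) (.node (.ofNat 0) (K (.negSucc 85348075)) (K (.ofNat 194444100)) .nil .nil) (.node (.ofNat 0) (K (.ofNat 35947070)) (K (.ofNat 343439237)) .nil .nil) .nil .nil) (.node (.ofNat 0) (.node (.ofNat 0) (K (.negSucc 224006140)) (K (.negSucc 26939108)) .nil .nil) (.node (.ofNat 0) (K (.negSucc 186912670)) (K (.ofNat 104449860)) .nil .nil) .nil .nil) .nil .nil)⟩,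
  ⟨.x, T6, (.node (.ofNat 0) .nil (.node (.ofNat 0) .nil .nil .nil (K (.ofNat 5002560))) .nil (.node (.ofNat 0) .nil (K (.ofNat 14953680)) .nil .nil))⟩,
  ⟨.x, T7, (.node (.ofNat 0) (.node (.ofNat 0) .nil .nil (K (.ofNat 802656)) .nil) .nil (.node (.ofNat 0) (K (.ofNat 5311944)) (K (.ofNat 7255464)) .nil .nil) .nil)⟩,
  ⟨.x, T17, (.node (.ofNat 0) .nil (.node (.ofNat 0) (K (.ofNat 7583308)) .nil .nil .nil) .nil .nil)⟩,
  ⟨.x, T8, (.node (.ofNat 0) (.node (.ofNat 0) (K (.negSucc 17465019)) (K (.negSucc 5102639)) .nil .nil) (.node (.ofNat 0) (K (.negSucc 5096807)) (K (.ofNat 4691592)) .nil .nil) .nil .nil)⟩,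
  ⟨.z, T6, (.node (.ofNat 0) (.node (.ofNat 0) (K (.negSucc 2003959)) (K (.ofNat 208190430)) .nil .nil) (.node (.ofNat 0) (K (.ofNat 230467974)) (K (.ofNat 231853122)) .nil .nil) .nil .nil)⟩,
  ⟨.z, T9, (.node (.ofNat 0) (.node (.ofNat 0) (K (.negSucc 22184835)) (K (.negSucc 147955679)) .nil .nil) (.node (.ofNat 0) (K (.negSucc 143245591)) (K (.negSucc 181997765)) .nil .nil) .nil .nil)⟩,
  ⟨.z, T7, (.node (.ofNat 0) (.node (.ofNat 0) (K (.negSucc 2583791)) (K (.negSucc 112586897)) .nil .nil) (.node (.ofNat 0) (K (.negSucc 134793557)) (K (.negSucc 158933069)) .nil .nil) .nil .nil)⟩,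
  ⟨.z, T21, (.node (.ofNat 0) (K (.ofNat 73872)) (K (.ofNat 31104)) .nil .nil)⟩,
  ⟨.z, T10, (.node (.ofNat 0) (K (.negSucc 248183)) (K (.negSucc 202823)) .nil .nil)⟩,
  ⟨.z, T11, (.node (.ofNat 0) (K (.negSucc 160055)) (K (.negSucc 143207)) .nil .nil)⟩,
  ⟨.x, T12, (K (.ofNat 104976))⟩,
  ⟨.z, T13, (K (.negSucc 31103))⟩,
  ⟨.z, T14, (K (.ofNat 81648))⟩] w_lr w_ll .nil w_lq)

/-- data -/
def w_prr : Cert := (.node [⟨.x, T2, (.node (.ofNat 0) (K (.negSucc 9178856)) (K (.negSucc 6704099)) .nil .nil)⟩,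
  ⟨.x, T3, (.node (.ofNat 0) (K (.ofNat 73208457)) (K (.ofNat 95196426)) .nil .nil)⟩,
  ⟨.x, T6, (K (.negSucc 13435415))⟩,
  ⟨.x, T7, (K (.negSucc 4131323))⟩] (.node [⟨.x, T2, (K (.ofNat 87480))⟩,
  ⟨.x, T3, (K (.negSucc 14041709))⟩] .nil .nil .nil .nil) (.node [⟨.x, T2, (K (.negSucc 261160296))⟩,
  ⟨.x, T3, (K (.negSucc 144407945))⟩] .nil .nil .nil .nil) .nil .nil)

/-- data -/
def w_prl : Cert := (.node [⟨.x, T2, (.node (.ofNat 0) (K (.ofNat 101872108)) (K (.negSucc 106435171)) .nil .nil)⟩,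
  ⟨.x, T3, (.node (.ofNat 0) (K (.ofNat 248601291)) (K (.ofNat 3363145)) .nil .nil)⟩,
  ⟨.x, T6, (K (.negSucc 71774747))⟩,
  ⟨.x, T7, (K (.negSucc 14934053))⟩] (.node [⟨.x, T2, (K (.negSucc 156318791))⟩,
  ⟨.x, T3, (K (.negSucc 168553351))⟩] .nil .nil .nil .nil) (.node [⟨.x, T2, (K (.negSucc 216509100))⟩,
  ⟨.x, T3, (K (.ofNat 122186367))⟩] .nil .nil .nil .nil) .nil .nil)

/-- data -/
def w_pr : Cert := (.node [⟨.x, T2, (.node (.ofNat 0) (.node (.ofNat 0) (K (.ofNat 36065025)) (K (.ofNat 42262203)) .nil .nil) (.node (.ofNat 0) (K (.ofNat 1158390)) (K (.negSucc 270971)) .nil .nil) .nil .nil)⟩,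
  ⟨.x, T3, (.node (.ofNat 0) (.node (.ofNat 0) (K (.ofNat 155017647)) (K (.ofNat 48979743)) .nil .nil) (.node (.ofNat 0) (K (.negSucc 2022011)) (K (.negSucc 99434255)) .nil .nil) .nil .nil)⟩,
  ⟨.x, T6, (.node (.ofNat 0) .nil (K (.negSucc 1221047)) .nil .nil)⟩,
  ⟨.x, T7, (.node (.ofNat 0) (K (.ofNat 1367226)) (K (.negSucc 6230267)) .nil .nil)⟩] w_prr w_prl .nil .nil)

/-- data -/
def w_plr : Cert := (.node [⟨.x, T2, (.node (.ofNat 0) (K (.ofNat 94091510)) (K (.negSucc 72645334)) .nil .nil)⟩,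
  ⟨.x, T3, (.node (.ofNat 0) (K (.ofNat 206582643)) (K (.ofNat 43073940)) .nil .nil)⟩,
  ⟨.x, T6, (K (.negSucc 85601555))⟩,
  ⟨.x, T7, (K (.negSucc 30918755))⟩] (.node [⟨.x, T2, (K (.ofNat 120528118))⟩,
  ⟨.x, T3, (K (.negSucc 91333220))⟩] .nil .nil .nil .nil) (.node [⟨.x, T2, (K (.negSucc 48203631))⟩,
  ⟨.x, T3, (K (.ofNat 64241230))⟩] .nil .nil .nil .nil) .nil .nil)

/-- data -/
def w_pll : Cert := (.node [⟨.x, T2, (.node (.ofNat 0) (K (.ofNat 32330018)) (K (.negSucc 140183079)) .nil .nil)⟩,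
  ⟨.x, T3, (.node (.ofNat 0) (K (.ofNat 43728047)) (K (.negSucc 8322820)) .nil .nil)⟩,
  ⟨.x, T6, (K (.negSucc 14992235))⟩,
  ⟨.x, T7, (K (.negSucc 18706697))⟩] (.node [⟨.x, T2, (K (.ofNat 115855342))⟩,
  ⟨.x, T3, (K (.ofNat 25951964))⟩] .nil .nil .nil .nil) (.node [⟨.x, T2, (K (.ofNat 8262070))⟩,
  ⟨.x, T3, (K (.negSucc 3760815))⟩] .nil .nil .nil .nil) .nil .nil)

/-- data -/
def w_pl : Cert := (.node [⟨.x, T2, (.node (.ofNat 0) (.node (.ofNat 0) (K (.negSucc 94879656)) (K (.negSucc 29648370)) .nil .nil) (.node (.ofNat 0) (K (.ofNat 28738384)) (K (.negSucc 13359200)) .nil .nil) .nil .nil)⟩,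
  ⟨.x, T3, (.node (.ofNat 0) (.node (.ofNat 0) (K (.ofNat 35581006)) (K (.negSucc 206183446)) .nil .nil) (.node (.ofNat 0) (K (.negSucc 113796389)) (K (.negSucc 194193327)) .nil .nil) .nil .nil)⟩,
  ⟨.x, T6, (.node (.ofNat 0) .nil (K (.negSucc 9440711)) .nil .nil)⟩,
  ⟨.x, T7, (.node (.ofNat 0) (K (.negSucc 287855)) (K (.negSucc 7888241)) .nil .nil)⟩] w_plr w_pll .nil .nil)

/-- data -/
def w_p : Cert := (.node [⟨.x, T2, (.node (.ofNat 0) (.node (.ofNat 0) (.node (.ofNat 0) (K (.ofNat 36448401)) (K (.negSucc 11098736)) .nil .nil) (.node (.ofNat 0) (K (.negSucc 14362394)) (K (.negSucc 126400277)) .nil .nil) .nil .nil) (.node (.ofNat 0) (.node (.ofNat 0) (K (.negSucc 69939554)) (K (.negSucc 167014277)) .nil .nil) (.node (.ofNat 0) (K (.negSucc 13677578)) (K (.negSucc 32131241)) .nil .nil) .nil .nil) .nil .nil)⟩,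
  ⟨.x, T3, (.node (.ofNat 0) (.node (.ofNat 0) (.node (.ofNat 0) (K (.ofNat 17064432)) (K (.negSucc 20575160)) .nil .nil) (.node (.ofNat 0) (K (.ofNat 59795646)) (K (.negSucc 186172901)) .nil .nil) .nil .nil) (.node (.ofNat 0) (.node (.ofNat 0) (K (.ofNat 56116161)) (K (.ofNat 63618594)) .nil .nil) (.node (.ofNat 0) (K (.negSucc 57104249)) (K (.negSucc 92231687)) .nil .nil) .nil .nil) .nil .nil)⟩,
  ⟨.x, T6, (.node (.ofNat 0) .nil (.node (.ofNat 0) .nil (K (.negSucc 7946099)) .nil .nil) .nil .nil)⟩,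
  ⟨.x, T7, (.node (.ofNat 0) (.node (.ofNat 0) (K (.negSucc 1910897)) (K (.ofNat 4293558)) .nil .nil) (.node (.ofNat 0) .nil (K (.ofNat 5989230)) .nil .nil) .nil .nil)⟩] w_pr w_pl .nil .nil)

/-- data -/
def w_qrr : Cert := (.node [⟨.x, T2, (.node (.ofNat 0) (K (.negSucc 59579372)) (K (.negSucc 16120226)) .nil .nil)⟩,
  ⟨.x, T3, (.node (.ofNat 0) (K (.ofNat 182357902)) (K (.negSucc 68999979)) .nil .nil)⟩,
  ⟨.x, T6, (K (.ofNat 4796712))⟩,
  ⟨.x, T7, (K (.ofNat 23089740))⟩] (.node [⟨.x, T2, (K (.ofNat 84509444))⟩,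
  ⟨.x, T3, (K (.negSucc 145827984))⟩] .nil .nil .nil .nil) (.node [⟨.x, T2, (K (.negSucc 174687887))⟩,
  ⟨.x, T3, (K (.negSucc 33023316))⟩] .nil .nil .nil .nil) .nil .nil)

/-- data -/
def w_qrl : Cert := (.node [⟨.x, T2, (.node (.ofNat 0) (K (.ofNat 23165805)) (K (.ofNat 99372542)) .nil .nil)⟩,
  ⟨.x, T3, (.node (.ofNat 0) (K (.ofNat 300510854)) (K (.ofNat 4247821)) .nil .nil)⟩,
  ⟨.x, T6, (K (.negSucc 38039543))⟩,
  ⟨.x, T7, (K (.ofNat 16499460))⟩] (.node [⟨.x, T2, (K (.negSucc 101669303))⟩,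
  ⟨.x, T3, (K (.negSucc 175996840))⟩] .nil .nil .nil .nil) (.node [⟨.x, T2, (K (.negSucc 273043982))⟩,
  ⟨.x, T3, (K (.ofNat 129325449))⟩] .nil .nil .nil .nil) .nil .nil)

/-- data -/
def w_qr : Cert := (.node [⟨.x, T2, (.node (.ofNat 0) (.node (.ofNat 0) (K (.ofNat 72638809)) (K (.negSucc 52368388)) .nil .nil) (.node (.ofNat 0) (K (.negSucc 48724938)) (K (.ofNat 34978938)) .nil .nil) .nil .nil)⟩,
  ⟨.x, T3, (.node (.ofNat 0) (.node (.ofNat 0) (K (.ofNat 72528968)) (K (.ofNat 210086489)) .nil .nil) (.node (.ofNat 0) (K (.ofNat 11538483)) (K (.ofNat 62934091)) .nil .nil) .nil .nil)⟩,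
  ⟨.x, T6, (.node (.ofNat 0) .nil (K (.ofNat 575208)) .nil .nil)⟩,
  ⟨.x, T7, (.node (.ofNat 0) (K (.ofNat 18414558)) (K (.ofNat 7504176)) .nil .nil)⟩] w_qrr w_qrl .nil .nil)

/-- data -/
def w_qlr : Cert := (.node [⟨.x, T2, (.node (.ofNat 0) (K (.ofNat 6327250)) (K (.ofNat 65628204)) .nil .nil)⟩,
  ⟨.x, T3, (.node (.ofNat 0) (K (.ofNat 94277185)) (K (.ofNat 83065117)) .nil .nil)⟩,
  ⟨.x, T6, (K (.ofNat 12093732))⟩,
  ⟨.x, T7, (K (.negSucc 4913147))⟩] (.node [⟨.x, T2, (K (.ofNat 54701791))⟩,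
  ⟨.x, T3, (K (.negSucc 79961597))⟩] .nil .nil .nil .nil) (.node [⟨.x, T2, (K (.negSucc 156706709))⟩,
  ⟨.x, T3, (K (.negSucc 176768686))⟩] .nil .nil .nil .nil) .nil .nil)

/-- data -/
def w_qll : Cert := (.node [⟨.x, T2, (.node (.ofNat 0) (K (.ofNat 22068840)) (K (.ofNat 147723123)) .nil .nil)⟩,
  ⟨.x, T3, (.node (.ofNat 0) (K (.ofNat 6927768)) (K (.ofNat 4421913)) .nil .nil)⟩,
  ⟨.x, T6, (K (.negSucc 1425815))⟩,
  ⟨.x, T7, (K (.ofNat 6756048))⟩] (.node [⟨.x, T2, (K (.negSucc 23625044))⟩,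
  ⟨.x, T3, (K (.ofNat 17758506))⟩] .nil .nil .nil .nil) (.node [⟨.x, T2, (K (.negSucc 15268793))⟩,
  ⟨.x, T3, (K (.negSucc 6849359))⟩] .nil .nil .nil .nil) .nil .nil)

/-- data -/
def w_ql : Cert := (.node [⟨.x, T2, (.node (.ofNat 0) (.node (.ofNat 0) (K (.ofNat 57256074)) (K (.ofNat 50590452)) .nil .nil) (.node (.ofNat 0) (K (.negSucc 31466189)) (K (.negSucc 10849115)) .nil .nil) .nil .nil)⟩,
  ⟨.x, T3, (.node (.ofNat 0) (.node (.ofNat 0) (K (.negSucc 3783077)) (K (.ofNat 18336066)) .nil .nil) (.node (.ofNat 0) (K (.ofNat 27938118)) (K (.ofNat 95040456)) .nil .nil) .nil .nil)⟩,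
  ⟨.x, T6, (.node (.ofNat 0) .nil (K (.negSucc 2007071)) .nil .nil)⟩,
  ⟨.x, T7, (.node (.ofNat 0) (K (.ofNat 723924)) (K (.negSucc 8680229)) .nil .nil)⟩] w_qlr w_qll .nil .nil)

/-- data -/
def w_q : Cert := (.node [⟨.x, T2, (.node (.ofNat 0) (.node (.ofNat 0) (.node (.ofNat 0) (K (.negSucc 27931271)) (K (.negSucc 97086989)) .nil .nil) (.node (.ofNat 0) (K (.negSucc 30976169)) (K (.negSucc 42274151)) .nil .nil) .nil .nil) (.node (.ofNat 0) (.node (.ofNat 0) (K (.negSucc 77481878)) (K (.negSucc 123438146)) .nil .nil) (.node (.ofNat 0) (K (.negSucc 16936898)) (K (.negSucc 20136545)) .nil .nil) .nil .nil) .nil .nil)⟩,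
  ⟨.x, T3, (.node (.ofNat 0) (.node (.ofNat 0) (.node (.ofNat 0) (K (.negSucc 9372509)) (K (.negSucc 34122164)) .nil .nil) (.node (.ofNat 0) (K (.ofNat 448173)) (K (.ofNat 41231532)) .nil .nil) .nil .nil) (.node (.ofNat 0) (.node (.ofNat 0) (K (.ofNat 94592268)) (K (.ofNat 15695841)) .nil .nil) (.node (.ofNat 0) (K (.negSucc 40250204)) (K (.negSucc 63930494)) .nil .nil) .nil .nil) .nil .nil)⟩,
  ⟨.x, T6, (.node (.ofNat 0) .nil (.node (.ofNat 0) .nil (K (.ofNat 3955284)) .nil .nil) .nil .nil)⟩,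
  ⟨.x, T7, (.node (.ofNat 0) (.node (.ofNat 0) (K (.ofNat 3946482)) (K (.negSucc 9767213)) .nil .nil) (.node (.ofNat 0) .nil (K (.negSucc 11143421)) .nil .nil) .nil .nil)⟩,
  ⟨.x, T13, (K (.negSucc 93311))⟩] w_qr w_ql .nil .nil)

/-- data -/
def w : Cert := (.node [⟨.z, .x, (.node (.ofNat 0) (.node (.ofNat 0) (.node (.ofNat 0) (.node (.ofNat 0) (.node (.ofNat 0) (.node (.ofNat 0) (K (.ofNat 569473575)) (K (.negSucc 507170720)) .nil .nil) (.node (.ofNat 0) (K (.negSucc 210760804)) (K (.negSucc 1513512969)) .nil .nil) .nil .nil) (.node (.ofNat 0) (.node (.ofNat 0) (K (.ofNat 828096556)) (K (.negSucc 725018499)) .nil .nil) (.node (.ofNat 0) (K (.negSucc 274771101)) (K (.negSucc 1297865532)) .nil .nil) .nil .nil) .nil .nil) (.node (.ofNat 0) (.node (.ofNat 0) (.node (.ofNat 0) (K (.ofNat 608551504)) (K (.ofNat 241193205)) .nil .nil) (.node (.ofNat 0) (K (.negSucc 525463298)) (K (.negSucc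 1183959467)) .nil .nil) .nil .nil) (.node (.ofNat 0) (.node (.ofNat 0) (K (.negSucc 119396987)) (K (.ofNat 117216731)) .nil .nil) (.node (.ofNat 0) (K (.ofNat 231992253)) (K (.negSucc 237771723)) .nil .nil) .nil .nil) .nil .nil) .nil .nil) (.node (.ofNat 0) (.node (.ofNat 0) (.node (.ofNat 0) (.node (.ofNat 0) (K (.negSucc 186924314)) (K (.ofNat 831120840)) .nil .nil) (.node (.ofNat 0) (K (.ofNat 151735234)) (K (.ofNat 58325309)) .nil .nil) .nil .nil) (.node (.ofNat 0) (.node (.ofNat 0) (K (.negSucc 1257486139)) (K (.ofNat 462964160)) .nil .nil) (.node (.ofNat 0) (K (.ofNat 632743070)) (K (.ofNat 314068446)) .nil .nil) .nil .nil) .nil .nil) (.node (.ofNat 0) (.node (.ofNat 0) (.node (.ofNat 0) (K (.negSucc 536371661)) (K (.ofNat 437791082)) .nil .nil) (.node (.ofNat 0) (K (.ofNat 926085487)) (K (.ofNat 851360993)) .nil .nil) .nil .nil) (.node (.ofNat 0) (.node (.ofNat 0) (K (.negSucc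 334264303)) (K (.negSucc 288200417)) .nil .nil) (.node (.ofNat 0) (K (.ofNat 243082861)) (K (.negSucc 48229337)) .nil .nil) .nil .nil) .nil .nil) .nil .nil) .nil .nil) (.node (.ofNat 0) (.node (.ofNat 0) (.node (.ofNat 0) (.node (.ofNat 0) (.node (.ofNat 0) (K (.ofNat 372456851)) (K (.negSucc 655475501)) .nil .nil) (.node (.ofNat 0) (K (.negSucc 290607483)) (K (.negSucc 1440159833)) .nil .nil) .nil .nil) (.node (.ofNat 0) (.node (.ofNat 0) (K (.ofNat 521625888)) (K (.negSucc 690592093)) .nil .nil) (.node (.ofNat 0) (K (.negSucc 284997373)) (K (.negSucc 1107361252)) .nil .nil) .nil .nil) .nil .nil) (.node (.ofNat 0) (.node (.ofNat 0) (.node (.ofNat 0) (K (.ofNat 335191003)) (K (.negSucc 97293876)) .nil .nil) (.node (.ofNat 0) (K (.negSucc 490625832)) (K (.negSucc 1590572682)) .nil .nil) .nil .nil) (.node (.ofNat 0) (.node (.ofNat 0) (K (.negSucc 254551768)) (K (.negSucc 96588716)) .nil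 .nil) (.node (.ofNat 0) (K (.ofNat 128961883)) (K (.negSucc 293589828)) .nil .nil) .nil .nil) .nil .nil) .nil .nil) (.node (.ofNat 0) (.node (.ofNat 0) (.node (.ofNat 0) (.node (.ofNat 0) (K (.negSucc 188484004)) (K (.ofNat 323067454)) .nil .nil) (.node (.ofNat 0) (K (.ofNat 167600323)) (K (.negSucc 281367123)) .nil .nil) .nil .nil) (.node (.ofNat 0) (.node (.ofNat 0) (K (.negSucc 744861262)) (K (.negSucc 129206765)) .nil .nil) (.node (.ofNat 0) (K (.ofNat 320032055)) (K (.ofNat 98389947)) .nil .nil) .nil .nil) .nil .nil) (.node (.ofNat 0) (.node (.ofNat 0) (.node (.ofNat 0) (K (.negSucc 494949165)) (K (.ofNat 133674929)) .nil .nil) (.node (.ofNat 0) (K (.ofNat 114636639)) (K (.ofNat 152613454)) .nil .nil) .nil .nil) (.node (.ofNat 0) (.node (.ofNat 0) (K (.negSucc 671319356)) (K (.negSucc 391128253)) .nil .nil) (.node (.ofNat 0) (K (.negSucc 229996201)) (K (.negSucc 130151180)) .nil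 .nil) .nil .nil) .nil .nil) .nil .nil) .nil .nil) .nil .nil)⟩,
  ⟨.x, T0, (.node (.ofNat 0) (.node (.ofNat 0) (.node (.ofNat 0) (.node (.ofNat 0) (.node (.ofNat 0) (K (.ofNat 290493003)) (K (.negSucc 133069955)) .nil .nil) (.node (.ofNat 0) (K (.ofNat 120365233)) (K (.negSucc 838380741)) .nil .nil) .nil .nil) (.node (.ofNat 0) (.node (.ofNat 0) (K (.ofNat 3289062)) (K (.negSucc 499949481)) .nil .nil) (.node (.ofNat 0) (K (.negSucc 82698570)) (K (.negSucc 535948173)) .nil .nil) .nil .nil) .nil .nil) (.node (.ofNat 0) (.node (.ofNat 0) (.node (.ofNat 0) (K (.ofNat 98822577)) (K (.ofNat 10261273)) .nil .nil) (.node (.ofNat 0) (K (.negSucc 314354403)) (K (.negSucc 875183819)) .nil .nil) .nil .nil) (.node (.ofNat 0) (.node (.ofNat 0) (K (.negSucc 517860992)) (K (.negSucc 340424627)) .nil .nil) (.node (.ofNat 0) (K (.negSucc 66012730)) (K (.negSucc 189686700)) .nil .nil) .nil .nil) .nil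 .nil) .nil .nil) (.node (.ofNat 0) (.node (.ofNat 0) (.node (.ofNat 0) (.node (.ofNat 0) (K (.negSucc 188413765)) (K (.ofNat 1233022534)) .nil .nil) (.node (.ofNat 0) (K (.ofNat 427165905)) (K (.ofNat 404833268)) .nil .nil) .nil .nil) (.node (.ofNat 0) (.node (.ofNat 0) (K (.negSucc 1495244240)) (K (.ofNat 959271806)) .nil .nil) (.node (.ofNat 0) (K (.ofNat 1025807545)) (K (.ofNat 1174457084)) .nil .nil) .nil .nil) .nil .nil) (.node (.ofNat 0) (.node (.ofNat 0) (.node (.ofNat 0) (K (.negSucc 494573570)) (K (.ofNat 574130814)) .nil .nil) (.node (.ofNat 0) (K (.ofNat 1409649002)) (K (.ofNat 1146183189)) .nil .nil) .nil .nil) (.node (.ofNat 0) (.node (.ofNat 0) (K (.negSucc 75029552)) (K (.negSucc 471175506)) .nil .nil) (.node (.ofNat 0) (K (.ofNat 396202523)) (K (.negSucc 39648182)) .nil .nil) .nil .nil) .nil .nil) .nil .nil) .nil .nil)⟩,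
  ⟨.z, T1, (.node (.ofNat 0) (.node (.ofNat 0) (.node (.ofNat 0) (.node (.ofNat 0) (.node (.ofNat 0) (K (.ofNat 575451039)) (K (.negSucc 860507866)) .nil .nil) (.node (.ofNat 0) (K (.negSucc 557201340)) (K (.negSucc 802841143)) .nil .nil) .nil .nil) (.node (.ofNat 0) (.node (.ofNat 0) (K (.ofNat 1391840045)) (K (.negSucc 997532950)) .nil .nil) (.node (.ofNat 0) (K (.negSucc 736036951)) (K (.negSucc 1012246342)) .nil .nil) .nil .nil) .nil .nil) (.node (.ofNat 0) (.node (.ofNat 0) (.node (.ofNat 0) (K (.ofNat 1013016425)) (K (.negSucc 235347660)) .nil .nil) (.node (.ofNat 0) (K (.negSucc 1013442180)) (K (.negSucc 1072904328)) .nil .nil) .nil .nil) (.node (.ofNat 0) (.node (.ofNat 0) (K (.ofNat 232120734)) (K (.negSucc 22364977)) .nil .nil) (.node (.ofNat 0) (K (.ofNat 105784422)) (K (.ofNat 67227819)) .nil .nil) .nil .nil) .nil .nil) .nil .nil) (.node (.ofNat 0) (.node (.ofNat 0) (.node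 (.ofNat 0) (.node (.ofNat 0) (K (.ofNat 223464721)) (K (.ofNat 1111418)) .nil .nil) (.node (.ofNat 0) (K (.negSucc 238398040)) (K (.negSucc 85976612)) .nil .nil) .nil .nil) (.node (.ofNat 0) (.node (.ofNat 0) (K (.ofNat 371939345)) (K (.negSucc 250499429)) .nil .nil) (.node (.ofNat 0) (K (.negSucc 31806160)) (K (.negSucc 247976478)) .nil .nil) .nil .nil) .nil .nil) (.node (.ofNat 0) (.node (.ofNat 0) (.node (.ofNat 0) (K (.ofNat 423720488)) (K (.ofNat 35035151)) .nil .nil) (.node (.ofNat 0) (K (.negSucc 260371878)) (K (.negSucc 739005609)) .nil .nil) .nil .nil) (.node (.ofNat 0) (.node (.ofNat 0) (K (.negSucc 53700999)) (K (.negSucc 242657788)) .nil .nil) (.node (.ofNat 0) (K (.ofNat 141076840)) (K (.negSucc 56144075)) .nil .nil) .nil .nil) .nil .nil) .nil .nil) .nil .nil)⟩,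
  ⟨.x, T2, (.node (.ofNat 0) (.node (.ofNat 0) (.node (.ofNat 0) (.node (.ofNat 0) .nil .nil (K (.negSucc 5379665)) .nil) .nil (.node (.ofNat 0) (K (.ofNat 1788132)) (K (.ofNat 145199787)) .nil .nil) .nil) (.node (.ofNat 0) .nil (.node (.ofNat 0) .nil .nil .nil (K (.negSucc 1907711))) .nil (.node (.ofNat 0) (K (.ofNat 69101181)) (K (.ofNat 8232702)) .nil .nil)) .nil (.node (.ofNat 0) (.node (.ofNat 0) (K (.negSucc 100718243)) (K (.ofNat 30903720)) .nil .nil) (.node (.ofNat 0) (K (.negSucc 83873408)) (K (.negSucc 23593583)) .nil .nil) .nil .nil)) (.node (.ofNat 0) (.node (.ofNat 0) .nil (.node (.ofNat 0) .nil .nil .nil (K (.ofNat 6916074))) .nil (.node (.ofNat 0) (K (.ofNat 12401286)) (K (.negSucc 13709957)) .nil .nil)) (.node (.ofNat 0) .nil (.node (.ofNat 0) .nil .nil .nil (K (.ofNat 87480))) .nil (.node (.ofNat 0) (K (.negSucc 10013468)) (K (.ofNat 4033584)) .nil .nil)) .nil (.node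 (.ofNat 0) (.node (.ofNat 0) (K (.negSucc 98371901)) (K (.negSucc 90584540)) .nil .nil) (.node (.ofNat 0) (K (.negSucc 29196191)) (K (.negSucc 236519)) .nil .nil) .nil .nil)) .nil (.node (.ofNat 0) (.node (.ofNat 0) (.node (.ofNat 0) (K (.negSucc 116430386)) (K (.negSucc 6096731)) .nil .nil) (.node (.ofNat 0) (K (.negSucc 107676848)) (K (.ofNat 134989032)) .nil .nil) .nil .nil) (.node (.ofNat 0) (.node (.ofNat 0) (K (.ofNat 36607422)) (K (.ofNat 220501692)) .nil .nil) (.node (.ofNat 0) (K (.ofNat 11377323)) (K (.ofNat 48073500)) .nil .nil) .nil .nil) .nil .nil))⟩,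
  ⟨.x, T3, (.node (.ofNat 0) (.node (.ofNat 0) (.node (.ofNat 0) .nil .nil (.node (.ofNat 0) (K (.ofNat 48600)) (K (.negSucc 2594576)) .nil .nil) .nil) (.node (.ofNat 0) .nil (.node (.ofNat 0) .nil .nil .nil (K (.negSucc 126917))) .nil (.node (.ofNat 0) (K (.negSucc 30932426)) (K (.ofNat 116115480)) .nil .nil)) (.node (.ofNat 0) (.node (.ofNat 0) (K (.negSucc 558575)) (K (.negSucc 44398307)) .nil .nil) (.node (.ofNat 0) (K (.negSucc 46404449)) (K (.negSucc 69024251)) .nil .nil) .nil .nil) (.node (.ofNat 0) (.node (.ofNat 0) (K (.ofNat 26436942)) (K (.ofNat 17142636)) .nil .nil) (.node (.ofNat 0) (K (.ofNat 56129379)) (K (.negSucc 353522369)) .nil .nil) .nil .nil)) (.node (.ofNat 0) (.node (.ofNat 0) .nil (.node (.ofNat 0) .nil .nil .nil (K (.ofNat 1707570))) .nil (.node (.ofNat 0) (K (.ofNat 115284)) (K (.ofNat 12413004)) .nil .nil)) (.node (.ofNat 0) .nil (.node (.ofNat 0) .nil .nil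 .nil (K (.negSucc 2287997))) .nil (.node (.ofNat 0) (K (.ofNat 78449535)) (K (.ofNat 79058562)) .nil .nil)) .nil (.node (.ofNat 0) (.node (.ofNat 0) (K (.ofNat 178314360)) (K (.negSucc 58701362)) .nil .nil) (.node (.ofNat 0) (K (.negSucc 17851979)) (K (.negSucc 240927071)) .nil .nil) .nil .nil)) (.node (.ofNat 0) (.node (.ofNat 0) (.node (.ofNat 0) (K (.negSucc 20660339)) (K (.ofNat 69722895)) .nil .nil) (.node (.ofNat 0) (K (.negSucc 44584382)) (K (.negSucc 364978433)) .nil .nil) .nil .nil) (.node (.ofNat 0) (.node (.ofNat 0) (K (.ofNat 5605719)) (K (.negSucc 113749799)) .nil .nil) (.node (.ofNat 0) (K (.ofNat 20885436)) (K (.negSucc 173881352)) .nil .nil) .nil .nil) .nil .nil) .nil)⟩,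
  ⟨.x, T4, (.node (.ofNat 0) (.node (.ofNat 0) (.node (.ofNat 0) (.node (.ofNat 0) (K (.ofNat 575451039)) (K (.negSucc 872905402)) .nil .nil) (.node (.ofNat 0) (K (.negSucc 493604556)) (K (.negSucc 858190861)) .nil .nil) .nil .nil) (.node (.ofNat 0) (.node (.ofNat 0) (K (.ofNat 1577860432)) (K (.negSucc 753374725)) .nil .nil) (.node (.ofNat 0) (K (.negSucc 668742735)) (K (.negSucc 1156551160)) .nil .nil) .nil .nil) .nil .nil) (.node (.ofNat 0) (.node (.ofNat 0) (.node (.ofNat 0) (K (.ofNat 1195550787)) (K (.negSucc 176784414)) .nil .nil) (.node (.ofNat 0) (K (.negSucc 867676420)) (K (.negSucc 1529991984)) .nil .nil) .nil .nil) (.node (.ofNat 0) (.node (.ofNat 0) (K (.ofNat 419799432)) (K (.ofNat 272723389)) .nil .nil) (.node (.ofNat 0) (K (.ofNat 57244845)) (K (.negSucc 90502997)) .nil .nil) .nil .nil) .nil .nil) .nil .nil)⟩,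
  ⟨.x, T5, (.node (.ofNat 0) (.node (.ofNat 0) (.node (.ofNat 0) (.node (.ofNat 0) (K (.negSucc 257497322)) (K (.ofNat 459495110)) .nil .nil) (.node (.ofNat 0) (K (.ofNat 187303423)) (K (.ofNat 154047506)) .nil .nil) .nil .nil) (.node (.ofNat 0) (.node (.ofNat 0) (K (.negSucc 721792401)) (K (.ofNat 540848168)) .nil .nil) (.node (.ofNat 0) (K (.ofNat 506573329)) (K (.ofNat 515966300)) .nil .nil) .nil .nil) .nil .nil) (.node (.ofNat 0) (.node (.ofNat 0) (.node (.ofNat 0) (K (.negSucc 304983131)) (K (.ofNat 196385599)) .nil .nil) (.node (.ofNat 0) (K (.ofNat 761706497)) (K (.ofNat 300163156)) .nil .nil) .nil .nil) (.node (.ofNat 0) (.node (.ofNat 0) (K (.ofNat 69011577)) (K (.negSucc 96600681)) .nil .nil) (.node (.ofNat 0) (K (.ofNat 272125824)) (K (.negSucc 74007104)) .nil .nil) .nil .nil) .nil .nil) .nil .nil)⟩,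
  ⟨.z, T2, (.node (.ofNat 0) (.node (.ofNat 0) (.node (.ofNat 0) (.node (.ofNat 0) (K (.negSucc 295973015)) (K (.ofNat 323158345)) .nil .nil) (.node (.ofNat 0) (K (.ofNat 278909136)) (K (.ofNat 677482606)) .nil .nil) .nil .nil) (.node (.ofNat 0) (.node (.ofNat 0) (K (.negSucc 528112805)) (K (.ofNat 440463722)) .nil .nil) (.node (.ofNat 0) (K (.ofNat 322552783)) (K (.ofNat 569227381)) .nil .nil) .nil .nil) .nil .nil) (.node (.ofNat 0) (.node (.ofNat 0) (.node (.ofNat 0) (K (.negSucc 443151799)) (K (.ofNat 285501517)) .nil .nil) (.node (.ofNat 0) (K (.ofNat 280342946)) (K (.ofNat 585952503)) .nil .nil) .nil .nil) (.node (.ofNat 0) (.node (.ofNat 0) (K (.negSucc 270546079)) (K (.ofNat 63213135)) .nil .nil) (.node (.ofNat 0) (K (.negSucc 125434795)) (K (.ofNat 21648492)) .nil .nil) .nil .nil) .nil .nil) .nil .nil)⟩,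
  ⟨.z, T3, (.node (.ofNat 0) (.node (.ofNat 0) (.node (.ofNat 0) (.node (.ofNat 0) (K (.negSucc 295973015)) (K (.ofNat 356633089)) .nil .nil) (.node (.ofNat 0) (K (.ofNat 407508597)) (K (.ofNat 574525138)) .nil .nil) .nil .nil) (.node (.ofNat 0) (.node (.ofNat 0) (K (.negSucc 648960932)) (K (.ofNat 315767948)) .nil .nil) (.node (.ofNat 0) (K (.ofNat 356465764)) (K (.ofNat 445077175)) .nil .nil) .nil .nil) .nil .nil) (.node (.ofNat 0) (.node (.ofNat 0) (.node (.ofNat 0) (K (.negSucc 653743279)) (K (.ofNat 232366291)) .nil .nil) (.node (.ofNat 0) (K (.ofNat 264651965)) (K (.ofNat 498107064)) .nil .nil) .nil .nil) (.node (.ofNat 0) (.node (.ofNat 0) (K (.negSucc 394794328)) (K (.negSucc 9314621)) .nil .nil) (.node (.ofNat 0) (K (.negSucc 126856321)) (K (.negSucc 60155732)) .nil .nil) .nil .nil) .nil .nil) .nil .nil)⟩,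
  ⟨.x, T6, (.node (.ofNat 0) .nil (.node (.ofNat 0) .nil .nil .nil (.node (.ofNat 0) .nil (K (.ofNat 3990816)) .nil .nil)) .nil .nil)⟩,
  ⟨.x, T7, (.node (.ofNat 0) (.node (.ofNat 0) (.node (.ofNat 0) .nil .nil (K (.negSucc 112751)) .nil) (.node (.ofNat 0) .nil .nil .nil (K (.negSucc 5514479))) (.node (.ofNat 0) (K (.negSucc 2148335)) .nil .nil .nil) .nil) (.node (.ofNat 0) .nil (.node (.ofNat 0) .nil .nil .nil (K (.negSucc 5317487))) .nil .nil) .nil .nil)⟩,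
  ⟨.x, T8, (.node (.ofNat 0) (.node (.ofNat 0) (.node (.ofNat 0) (K (.negSucc 38798183)) (K (.ofNat 39620568)) .nil .nil) (.node (.ofNat 0) (K (.negSucc 24984311)) (K (.ofNat 28700088)) .nil .nil) .nil .nil) (.node (.ofNat 0) (.node (.ofNat 0) (K (.negSucc 21871319)) (K (.ofNat 34924776)) .nil .nil) (.node (.ofNat 0) (K (.ofNat 19968576)) (K (.negSucc 7797119)) .nil .nil) .nil .nil) .nil .nil)⟩,
  ⟨.z, T6, (.node (.ofNat 0) (.node (.ofNat 0) (.node (.ofNat 0) (K (.negSucc 1752575)) (K (.negSucc 77010527)) .nil .nil) (.node (.ofNat 0) (K (.ofNat 117162030)) (K (.ofNat 184701102)) .nil .nil) .nil .nil) (.node (.ofNat 0) (.node (.ofNat 0) (K (.ofNat 114575664)) (K (.ofNat 18008808)) .nil .nil) (.node (.ofNat 0) (K (.ofNat 4631040)) (K (.ofNat 80436888)) .nil .nil) .nil .nil) .nil .nil)⟩,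
  ⟨.z, T9, (.node (.ofNat 0) (.node (.ofNat 0) (.node (.ofNat 0) (K (.negSucc 27794279)) (K (.ofNat 30869256)) .nil .nil) (.node (.ofNat 0) (K (.negSucc 126529967)) (K (.negSucc 10222871)) .nil .nil) .nil .nil) (.node (.ofNat 0) (.node (.ofNat 0) (K (.negSucc 9924761)) (K (.ofNat 182659494)) .nil .nil) (.node (.ofNat 0) (K (.ofNat 26673120)) (K (.negSucc 11182751)) .nil .nil) .nil .nil) .nil .nil)⟩,
  ⟨.z, T7, (.node (.ofNat 0) (.node (.ofNat 0) (.node (.ofNat 0) (K (.negSucc 15278975)) (K (.ofNat 11096928)) .nil .nil) (.node (.ofNat 0) (K (.negSucc 90319925)) (K (.negSucc 206649149)) .nil .nil) .nil .nil) (.node (.ofNat 0) (.node (.ofNat 0) (K (.negSucc 89220791)) (K (.negSucc 43724111)) .nil .nil) (.node (.ofNat 0) (K (.ofNat 41438544)) (K (.negSucc 34689983)) .nil .nil) .nil .nil) .nil .nil)⟩,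
  ⟨.z, T10, (.node (.ofNat 0) .nil (.node (.ofNat 0) .nil (K (.ofNat 276048)) .nil .nil) .nil .nil)⟩,
  ⟨.z, T11, (.node (.ofNat 0) (.node (.ofNat 0) (K (.ofNat 1117152)) (K (.ofNat 1076976)) .nil .nil) (.node (.ofNat 0) (K (.ofNat 1201392)) (K (.ofNat 737424)) .nil .nil) .nil .nil)⟩,
  ⟨.x, T12, (.node (.ofNat 0) .nil (K (.ofNat 11664)) .nil .nil)⟩,
  ⟨.z, T13, (.node (.ofNat 0) (K (.ofNat 97200)) (K (.negSucc 3887)) .nil .nil)⟩,
  ⟨.z, T14, (.node (.ofNat 0) .nil (K (.ofNat 81648)) .nil .nil)⟩,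
  ⟨.x, T15, (K (.negSucc 93311))⟩,
  ⟨.x, T16, (K (.negSucc 81647))⟩] w_r w_l w_p w_q)

end D3

end Pool.Agent.Helper928.Sep
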