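import Pool.Agent.Helper928.Sep.Lists
import Pool.Agent.Helper928.Sep.Data1
import Pool.Agent.Helper928.Sep.Data2
import Pool.Agent.Helper928.Sep.Data3
set_option autoImplicit false
set_option maxRecDepth 100000

/-! The kernel checks of the three certificates. -/

namespace Pool.Agent.Helper928.Sep
open Pool.Agent.Helper928.NucCert

/-- `48 [c, f] y - [P1(y), x] - [P2(y), x x]` -/
def L2 : HL := hs 48 Lu ++ (hs (-1) (hr .x LP1) ++ (hl .x LP1 ++ (hs (-1) (hr (.m .x .x) LP2) ++ hl (.m .x .x) LP2)))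

/-- `(P1(y), x, z) + (P2(y), x x, z)` -/
def L3 : HL := hr .z (hr .x LP1) ++ (hs (-1) (hr (.m .x .z) LP1) ++
  (hr .z (hr (.m .x .x) LP2) ++ hs (-1) (hr (.m (.m .x .x) .z) LP2)))

theorem check1 : Tri.isZ (Tri.add (Tri.smul (Int.ofNat 12) (hpoly LI1)) (total D1.e)) = true := by
  decide +kernel

theorem check2 : Tri.isZ (Tri.add (Tri.smul (Int.ofNat 3)
    (NucCert.sub (hpoly L2) (Tri.smul (Int.ofNat 8) (Tri.mul W6 (hpoly Lm))))) (total D2.g)) = true := by
  decide +kernel

theorem check3 : Tri.isZ (Tri.add (Tri.smul (Int.ofNat 486) (hpoly L3)) (total D3.w)) = true := by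
  decide +kernel

end Pool.Agent.Helper928.Sep
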