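import Pool.Agent.Helper928.Sep.SuperZ
set_option autoImplicit false

/-! Checking the super-alternative laws of a graded table. -/

namespace Pool.Agent.Helper928.Sep.Chk
open Pool.Agent.Helper928.Sep.SuperZ

/-- binary trees -/
inductive Tr (α : Type) : Type
  | l : α → Tr α
  | n : Tr α → Tr α → Tr α

/-- look up -/
noncomputable def Tr.get {α : Type} (t : Tr α) : ℕ → α :=
  Tr.rec (fun a _ => a) (fun _ _ f g k => cond (Nat.beq (k % 2) 0) (f (k / 2)) (g (k / 2))) t

/-- a table graded by two weights -/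
structure GData where
  /-- dimension -/
  N : ℕ
  /-- products -/
  T : ℕ → ℕ → List (ℕ × ℤ)
  /-- first weight -/
  wa : ℕ → ℕ
  /-- second weight -/
  wb : ℕ → ℕ
  /-- bound for the first weight -/
  NA : ℕ
  /-- bound for the second weight -/
  NB : ℕ

namespace GData
variable (D : GData)

/-- the underlying table -/
def D0 : Data := ⟨D.N, D.T, fun i => (D.wa i + D.wb i) % 2⟩

/-- the associator of basis vectors -/
noncomputable def AR (i j k : ℕ) (a : ℤ) (tail : List (ℕ × ℤ)) : List (ℕ × ℤ) :=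
  bindR a (fun m => D.T m k) (D.T i j) (bindR (Int.neg a) (fun m => D.T i m) (D.T j k) tail)

/-- sign -/
def sgn (d e : ℕ) : ℤ := cond (Nat.beq ((d % 2) * (e % 2)) 1) (Int.negSucc 0) (Int.ofNat 1)

/-- weights of the basis vectors are bounded -/
noncomputable def chkW : Bool :=
  (List.range D.N).all fun i => Nat.ble (D.wa i) D.NA && Nat.ble (D.wb i) D.NB

/-- products are graded -/
noncomputable def chkG : Bool :=
  (List.range D.N).all fun i => (List.range D.N).all fun j => (D.T i j).all fun r =>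
    Nat.blt r.1 D.N && (Nat.beq (D.wa r.1) (D.wa i + D.wa j) && Nat.beq (D.wb r.1) (D.wb i + D.wb j))

/-- left law for the given first index -/
noncomputable def chkL1 (i : ℕ) : Bool :=
  (List.range D.N).all fun j => cond (Nat.blt j i) true
    (cond (Nat.blt D.NA (D.wa i + D.wa j)) true (cond (Nat.blt D.NB (D.wb i + D.wb j)) true
      ((List.range D.N).all fun k =>
        cond (Nat.blt D.NA (D.wa i + D.wa j + D.wa k)) true (cond (Nat.blt D.NB (D.wb i + D.wb j + D.wb k)) true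
          (zeroAux 200 (D.AR i j k (Int.ofNat 1) (D.AR j i k (sgn (D.wa i + D.wb i) (D.wa j + D.wb j)) [])))))))

/-- right law for the given first index -/
noncomputable def chkR1 (i : ℕ) : Bool :=
  (List.range D.N).all fun j =>
    (cond (Nat.blt D.NA (D.wa i + D.wa j)) true (cond (Nat.blt D.NB (D.wb i + D.wb j)) true
      ((List.range D.N).all fun k => cond (Nat.blt k j) true
        (cond (Nat.blt D.NA (D.wa i + D.wa j + D.wa k)) true (cond (Nat.blt D.NB (D.wb i + D.wb j + D.wb k)) true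
          (zeroAux 200 (D.AR i j k (Int.ofNat 1) (D.AR i k j (sgn (D.wa j + D.wb j) (D.wa k + D.wb k)) []))))))))

/-- all checks passed -/
structure Ok : Prop where
  w : D.chkW = true
  g : D.chkG = true
  l : ∀ i < D.N, D.chkL1 i = true
  r : ∀ i < D.N, D.chkR1 i = true

variable {D}

lemma all_range {n : ℕ} {p : ℕ → Bool} (h : (List.range n).all p = true) {i : ℕ} (hi : i < n) : p i = true := by
  rw [List.all_eq_true] at h
  exact h i (List.mem_range.mpr hi)

lemma Ok.wle (h : D.Ok) {i : ℕ} (hi : i < D.N) : D.wa i ≤ D.NA ∧ D.wb i ≤ D.NB := by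
  have h1 := all_range h.w hi
  rw [Bool.and_eq_true] at h1
  exact ⟨Nat.le_of_ble_eq_true h1.1, Nat.le_of_ble_eq_true h1.2⟩

lemma Ok.grade (h : D.Ok) {i j : ℕ} (hi : i < D.N) (hj : j < D.N) {p : ℕ × ℤ} (hp : p ∈ D.T i j) :
    p.1 < D.N ∧ D.wa p.1 = D.wa i + D.wa j ∧ D.wb p.1 = D.wb i + D.wb j := by
  have h1 := all_range (all_range h.g hi) hj
  rw [List.all_eq_true] at h1
  have h2 := h1 p hp
  rwa [Bool.and_eq_true, Bool.and_eq_true, Nat.blt_eq, Nat.beq_eq, Nat.beq_eq] at h2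

lemma Ok.sum_T (h : D.Ok) {i j : ℕ} (hi : i < D.N) (hj : j < D.N) (f : ℕ → ℤ) :
    ∑ m : Fin D.D0.N, D.D0.c i j m * f m = ((D.T i j).map (fun q => q.2 • f q.1)).sum := by
  have h := sum_cf (N := D.N) (D.T i j) (fun p hp => (h.grade hi hj hp).1) f
  rw [← h]
  rfl

lemma Ok.cf_AR (h : D.Ok) {i j k : ℕ} (hi : i < D.N) (hj : j < D.N) (hk : k < D.N) (l : ℕ) (a : ℤ)
    (tail : List (ℕ × ℤ)) : cf l (D.AR i j k a tail) = a * D.D0.A i j k l + cf l tail := by
  unfold AR
  rw [cf_bindR, cf_bindR]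
  unfold Data.A
  have h1 := h.sum_T hi hj (fun m => D.D0.c m k l)
  have h2 : ∑ m : Fin D.D0.N, D.D0.c j k m * D.D0.c i m l = ((D.T j k).map (fun q => q.2 • cf l (D.T i q.1))).sum :=
    h.sum_T hj hk (fun m => D.D0.c i m l)
  rw [h1, h2]
  have h3 : Int.neg a = -a := rfl
  rw [h3]
  have h4 : (List.map (fun q => q.2 • cf l (D.T q.1 k)) (D.T i j)).sum =
    (List.map (fun q => q.2 • D.D0.c q.1 k l) (D.T i j)).sum := rfl
  rw [h4]
  ring

lemma sgn_eq (a b : ℕ) : sgn a b = if a % 2 * (b % 2) = 1 then -1 else 1 := by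
  unfold sgn
  by_cases h : a % 2 * (b % 2) = 1
  · rw [if_pos h]
    have : Nat.beq (a % 2 * (b % 2)) 1 = true := by rw [Nat.beq_eq]; exact h
    rw [this]
    rfl
  · rw [if_neg h]
    have : Nat.beq (a % 2 * (b % 2)) 1 = false := by
      rw [← Bool.not_eq_true, Nat.beq_eq]; exact h
    rw [this]
    rfl

lemma sg_sq (E : Data) (i j : ℕ) : E.sg i j * E.sg i j = 1 := by
  unfold Data.sg; split_ifs <;> ring

lemma sg_comm (E : Data) (i j : ℕ) : E.sg i j = E.sg j i := by
  unfold Data.sg; rw [mul_comm]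

lemma Ok.c_ne (h : D.Ok) {i j m : ℕ} (hi : i < D.N) (hj : j < D.N) (h0 : D.D0.c i j m ≠ 0) :
    m < D.N ∧ D.wa m = D.wa i + D.wa j ∧ D.wb m = D.wb i + D.wb j := by
  obtain ⟨p, hp, hpk⟩ := cf_ne_zero h0
  have := h.grade hi hj hp
  rwa [hpk] at this

lemma Ok.A_ne (h : D.Ok) {i j k l : ℕ} (hi : i < D.N) (hj : j < D.N) (hk : k < D.N) (h0 : D.D0.A i j k l ≠ 0) :
    l < D.N ∧ D.wa l = D.wa i + D.wa j + D.wa k ∧ D.wb l = D.wb i + D.wb j + D.wb k := by
  unfold Data.A at h0
  by_cases h1 : (∑ m : Fin D.D0.N, D.D0.c i j m * D.D0.c m k l) = 0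
  · rw [h1, zero_sub, neg_ne_zero] at h0
    obtain ⟨m, _, hm⟩ := Finset.exists_ne_zero_of_sum_ne_zero h0
    have h2 := h.c_ne hj hk (left_ne_zero_of_mul hm)
    have h3 := h.c_ne hi m.2 (right_ne_zero_of_mul hm)
    exact ⟨h3.1, by omega, by omega⟩
  · obtain ⟨m, _, hm⟩ := Finset.exists_ne_zero_of_sum_ne_zero h1
    have h2 := h.c_ne hi hj (left_ne_zero_of_mul hm)
    have h3 := h.c_ne m.2 hk (right_ne_zero_of_mul hm)
    exact ⟨h3.1, by omega, by omega⟩

lemma cond_true_or {b : Bool} {c : Bool} (h : cond b true c = true) : b = true ∨ c = true := by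
  cases b
  · right; exact h
  · left; rfl

lemma cond_skip {a n : ℕ} {c : Bool} (h : cond (Nat.blt n a) true c = true) (ha : a ≤ n) : c = true := by
  rcases cond_true_or h with h1 | h1
  · rw [Nat.blt_eq] at h1; omega
  · exact h1

lemma Ok.left_le (h : D.Ok) {i j k : ℕ} (hi : i < D.N) (hj : j < D.N) (hk : k < D.N) (hij : i ≤ j) (l : ℕ) :
    D.D0.A i j k l + D.D0.sg i j * D.D0.A j i k l = 0 := by
  by_cases h0 : D.D0.A i j k l = 0 ∧ D.D0.A j i k l = 0
  · rw [h0.1, h0.2]; simp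
  have hw : l < D.N ∧ D.wa l = D.wa i + D.wa j + D.wa k ∧ D.wb l = D.wb i + D.wb j + D.wb k := by
    by_cases h1 : D.D0.A i j k l = 0
    · have h2 : D.D0.A j i k l ≠ 0 := fun h2 => h0 ⟨h1, h2⟩
      have := h.A_ne hj hi hk h2
      exact ⟨this.1, by omega, by omega⟩
    · exact h.A_ne hi hj hk h1
  have hwl := h.wle hw.1
  have h2 := all_range (h.l i hi) hj
  have h3 := cond_skip (cond_skip (cond_skip h2 hij) (by omega)) (by omega)
  have h4 := all_range h3 hk
  have h5 := cond_skip (cond_skip h4 (by omega)) (by omega)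
  have h12 := zeroAux_ok _ _ h5 l
  rw [h.cf_AR hi hj hk, h.cf_AR hj hi hk, sgn_eq] at h12
  show D.D0.A i j k l + (if (D.wa i + D.wb i) % 2 * ((D.wa j + D.wb j) % 2) = 1 then (-1 : ℤ) else 1) * _ = 0
  have e1 : (Int.ofNat 1) = (1 : ℤ) := rfl
  rw [e1, one_mul, cf, add_zero] at h12
  exact h12

lemma Ok.right_le (h : D.Ok) {i j k : ℕ} (hi : i < D.N) (hj : j < D.N) (hk : k < D.N) (hjk : j ≤ k) (l : ℕ) :
    D.D0.A i j k l + D.D0.sg j k * D.D0.A i k j l = 0 := by
  by_cases h0 : D.D0.A i j k l = 0 ∧ D.D0.A i k j l = 0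
  · rw [h0.1, h0.2]; simp
  have hw : l < D.N ∧ D.wa l = D.wa i + D.wa j + D.wa k ∧ D.wb l = D.wb i + D.wb j + D.wb k := by
    by_cases h1 : D.D0.A i j k l = 0
    · have h2 : D.D0.A i k j l ≠ 0 := fun h2 => h0 ⟨h1, h2⟩
      have := h.A_ne hi hk hj h2
      exact ⟨this.1, by omega, by omega⟩
    · exact h.A_ne hi hj hk h1
  have hwl := h.wle hw.1
  have h2 := all_range (h.r i hi) hj
  have h3 := cond_skip (cond_skip h2 (by omega)) (by omega)
  have h4 := all_range h3 hk
  have h5 := cond_skip (cond_skip (cond_skip h4 hjk) (by omega)) (by omega)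
  have h12 := zeroAux_ok _ _ h5 l
  rw [h.cf_AR hi hj hk, h.cf_AR hi hk hj, sgn_eq] at h12
  show D.D0.A i j k l + (if (D.wa j + D.wb j) % 2 * ((D.wa k + D.wb k) % 2) = 1 then (-1 : ℤ) else 1) * _ = 0
  have e1 : (Int.ofNat 1) = (1 : ℤ) := rfl
  rw [e1, one_mul, cf, add_zero] at h12
  exact h12

theorem Ok.good (h : D.Ok) : D.D0.Good where
  par_le := fun i _ => Nat.mod_lt _ (by norm_num)
  par_add := by
    intro i hi j hj p hp
    obtain ⟨_, h1, h2⟩ := h.grade hi hj hp
    show (D.wa p.1 + D.wb p.1) % 2 = ((D.wa i + D.wb i) % 2 + (D.wa j + D.wb j) % 2) % 2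
    rw [h1, h2]
    omega
  left := by
    intro i hi j hj k hk l _
    rcases le_total i j with hij | hij
    · exact h.left_le hi hj hk hij l
    · have h1 := h.left_le hj hi hk hij l
      have h2 := congrArg (fun z => D.D0.sg i j * z) h1
      simp only [mul_add, mul_zero] at h2
      rw [← mul_assoc, sg_comm _ j i, sg_sq, one_mul] at h2
      rw [add_comm]
      exact h2
  right := by
    intro i hi j hj k hk l _
    rcases le_total j k with hij | hij
    · exact h.right_le hi hj hk hij l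
    · have h1 := h.right_le hi hk hj hij l
      have h2 := congrArg (fun z => D.D0.sg j k * z) h1
      simp only [mul_add, mul_zero] at h2
      rw [← mul_assoc, sg_comm _ k j, sg_sq, one_mul] at h2
      rw [add_comm]
      exact h2

end GData
end Pool.Agent.Helper928.Sep.Chk
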