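import Pool.Agent.Helper928.Sep.Ids
set_option autoImplicit false
set_option linter.unusedSimpArgs false

/-! The multilinear function behind `[c, f]`. -/

namespace Pool.Agent.Helper928.Sep.DFun
open Pool.Agent.Helper928.Sep Pool.Agent.Helper928.Nuc.Ext Pool.Agent.Helper928.Nuc.Tens Pool.Agent.Helper928.Nuc.NFun

section
variable {A : Type} [NonUnitalNonAssocRing A]

/-- the multilinear polynomial `[(w₀,w₁,w₂), (w₃w₄,w₅,w₆)]` -/
def U7 (a b c d e f g : A) : A := br (as a b c) (as (d * e) f g)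

/-- its alternating sum -/
def dd (x : Fin 7 → A) : A :=
  ∑ σ : Equiv.Perm (Fin 7), ((Equiv.Perm.sign σ : ℤˣ) : ℤ) • U7 (x (σ 0)) (x (σ 1)) (x (σ 2)) (x (σ 3)) (x (σ 4)) (x (σ 5)) (x (σ 6))

variable {n : ℕ}

/-- the generic odd element -/
noncomputable def XI (ι : Fin 7 → Fin n) (x : Fin 7 → A) : TS A n := ∑ i : Fin 7, te (x i) [ι i]

lemma XI_mem (ι : Fin 7 → Fin n) (x : Fin 7 → A) : XI ι x ∈ PP (A := A) (n := n) 1 := by
  unfold XI
  exact AddSubgroup.sum_mem _ (fun i _ => te_mem (x i) [ι i])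

section
variable {R : Type} [NonUnitalNonAssocRing R] {κ : Type} (s : Finset κ) (g : κ → R)

lemma as_sum1 (b c : R) : as (∑ i ∈ s, g i) b c = ∑ i ∈ s, as (g i) b c :=
  add_sum_of s (fun a => as a b c) (as_z1 _ _) (fun a b' => as_add1 a b' b c) g
lemma as_sum2 (a c : R) : as a (∑ i ∈ s, g i) c = ∑ i ∈ s, as a (g i) c :=
  add_sum_of s (fun b => as a b c) (as_z2 _ _) (fun b b' => as_add2 a b b' c) g
lemma as_sum3 (a b : R) : as a b (∑ i ∈ s, g i) = ∑ i ∈ s, as a b (g i) :=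
  add_sum_of s (fun c => as a b c) (as_z3 _ _) (fun c c' => as_add3 a b c c') g
lemma br_z1 (b : R) : br 0 b = 0 := by unfold br; simp
lemma br_z2 (b : R) : br b 0 = 0 := by unfold br; simp
lemma br_sum1 (b : R) : br (∑ i ∈ s, g i) b = ∑ i ∈ s, br (g i) b :=
  add_sum_of s (fun a => br a b) (br_z1 _) (fun a a' => br_add1 a a' b) g
lemma br_sum2 (a : R) : br a (∑ i ∈ s, g i) = ∑ i ∈ s, br a (g i) :=
  add_sum_of s (fun b => br a b) (br_z2 _) (fun b b' => br_add2 a b b') g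
end

lemma cc_XI (ι : Fin 7 → Fin n) (x : Fin 7 → A) :
    cc (XI ι x) = ∑ i : Fin 7, ∑ j : Fin 7, ∑ k : Fin 7, te (as (x i) (x j) (x k)) [ι i, ι j, ι k] := by
  unfold cc XI
  rw [as_sum1]
  refine Finset.sum_congr rfl fun i _ => ?_
  rw [as_sum2]
  refine Finset.sum_congr rfl fun j _ => ?_
  rw [as_sum3]
  refine Finset.sum_congr rfl fun k _ => ?_
  rw [as_te]; rfl

lemma ff_XI (ι : Fin 7 → Fin n) (x : Fin 7 → A) :
    ff (XI ι x) = ∑ i : Fin 7, ∑ j : Fin 7, ∑ k : Fin 7, ∑ l : Fin 7,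
      te (as (x i * x j) (x k) (x l)) [ι i, ι j, ι k, ι l] := by
  unfold ff XI
  rw [Finset.sum_mul, as_sum1]
  refine Finset.sum_congr rfl fun i _ => ?_
  rw [Finset.mul_sum, as_sum1]
  refine Finset.sum_congr rfl fun j _ => ?_
  rw [as_sum2]
  refine Finset.sum_congr rfl fun k _ => ?_
  rw [as_sum3]
  refine Finset.sum_congr rfl fun l _ => ?_
  rw [te_mul, as_te]; rfl

lemma uu_XI_sum (ι : Fin 7 → Fin n) (x : Fin 7 → A) :
    uu (XI ι x) = ∑ a : Fin 7, ∑ b : Fin 7, ∑ c : Fin 7, ∑ d : Fin 7, ∑ e : Fin 7, ∑ f : Fin 7, ∑ g : Fin 7,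
      te (U7 (x a) (x b) (x c) (x d) (x e) (x f) (x g)) [ι a, ι b, ι c, ι d, ι e, ι f, ι g] := by
  unfold uu
  rw [cc_XI, ff_XI, br_sum1]
  refine Finset.sum_congr rfl fun a _ => ?_
  rw [br_sum1]
  refine Finset.sum_congr rfl fun b _ => ?_
  rw [br_sum1]
  refine Finset.sum_congr rfl fun c _ => ?_
  rw [br_sum2]
  refine Finset.sum_congr rfl fun d _ => ?_
  rw [br_sum2]
  refine Finset.sum_congr rfl fun e _ => ?_
  rw [br_sum2]
  refine Finset.sum_congr rfl fun f _ => ?_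
  rw [br_sum2]
  refine Finset.sum_congr rfl fun g _ => ?_
  rw [br_even _ _ [ι a, ι b, ι c] [ι d, ι e, ι f, ι g] (show Even (3 * 4) by decide)]
  rfl

lemma sum7 {M : Type} [AddCommMonoid M] (f : (Fin 7 → Fin 7) → M) :
    ∑ i1 : Fin 7, ∑ i2 : Fin 7, ∑ i3 : Fin 7, ∑ i4 : Fin 7, ∑ i5 : Fin 7, ∑ i6 : Fin 7, ∑ i7 : Fin 7,
      f ![i1, i2, i3, i4, i5, i6, i7] = ∑ r, f r := by
  rw [← (Fin.consEquiv (fun _ : Fin 7 => Fin 7)).sum_comp, Fintype.sum_prod_type]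
  refine Finset.sum_congr rfl fun i1 _ => ?_
  rw [← (Fin.consEquiv (fun _ : Fin 6 => Fin 7)).sum_comp, Fintype.sum_prod_type]
  refine Finset.sum_congr rfl fun i2 _ => ?_
  rw [← (Fin.consEquiv (fun _ : Fin 5 => Fin 7)).sum_comp, Fintype.sum_prod_type]
  refine Finset.sum_congr rfl fun i3 _ => ?_
  rw [← (Fin.consEquiv (fun _ : Fin 4 => Fin 7)).sum_comp, Fintype.sum_prod_type]
  refine Finset.sum_congr rfl fun i4 _ => ?_
  rw [← (Fin.consEquiv (fun _ : Fin 3 => Fin 7)).sum_comp, Fintype.sum_prod_type]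
  refine Finset.sum_congr rfl fun i5 _ => ?_
  rw [← (Fin.consEquiv (fun _ : Fin 2 => Fin 7)).sum_comp, Fintype.sum_prod_type]
  refine Finset.sum_congr rfl fun i6 _ => ?_
  rw [← (Fin.consEquiv (fun _ : Fin 1 => Fin 7)).sum_comp, Fintype.sum_prod_type]
  refine Finset.sum_congr rfl fun i7 _ => ?_
  rw [Fintype.sum_unique]
  congr 1

theorem uu_XI (ι : Fin 7 → Fin n) (x : Fin 7 → A) : uu (XI ι x) = te (dd x) (List.ofFn ι) := by
  rw [uu_XI_sum]
  have h1 := sum7 (fun r : Fin 7 → Fin 7 => te (U7 (x (r 0)) (x (r 1)) (x (r 2)) (x (r 3)) (x (r 4)) (x (r 5)) (x (r 6)))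
    [ι (r 0), ι (r 1), ι (r 2), ι (r 3), ι (r 4), ι (r 5), ι (r 6)])
  refine h1.trans ?_
  have h2 : ∀ r : Fin 7 → Fin 7, [ι (r 0), ι (r 1), ι (r 2), ι (r 3), ι (r 4), ι (r 5), ι (r 6)] =
      List.ofFn (fun i => ι (r i)) := by
    intro r; simp [List.ofFn_succ]
  simp only [h2]
  have hinj : Function.Injective (fun σ : Equiv.Perm (Fin 7) => (σ : Fin 7 → Fin 7)) := Equiv.coe_fn_injective
  rw [← Finset.sum_subset (Finset.subset_univ (Finset.univ.map ⟨_, hinj⟩)), Finset.sum_map]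
  · unfold dd
    have h3 : te (∑ σ : Equiv.Perm (Fin 7), ((Equiv.Perm.sign σ : ℤˣ) : ℤ) • U7 (x (σ 0)) (x (σ 1)) (x (σ 2)) (x (σ 3)) (x (σ 4)) (x (σ 5)) (x (σ 6)))
        (List.ofFn ι) = ∑ σ : Equiv.Perm (Fin 7), te (((Equiv.Perm.sign σ : ℤˣ) : ℤ) •
          U7 (x (σ 0)) (x (σ 1)) (x (σ 2)) (x (σ 3)) (x (σ 4)) (x (σ 5)) (x (σ 6))) (List.ofFn ι) := by
      have h4 := map_sum (AddMonoidHom.mk' (fun a : A => (te a (List.ofFn ι) : TS A n)) (fun a b => (te_add a b _).symm))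
        (fun σ : Equiv.Perm (Fin 7) => ((Equiv.Perm.sign σ : ℤˣ) : ℤ) • U7 (x (σ 0)) (x (σ 1)) (x (σ 2)) (x (σ 3)) (x (σ 4)) (x (σ 5)) (x (σ 6))) Finset.univ
      exact h4
    rw [h3]
    refine Finset.sum_congr rfl fun σ _ => ?_
    rw [te_zsmul]
    show te _ (List.ofFn (fun i => ι (σ i))) = _
    unfold te
    rw [E_perm ℤ n 7 ι σ]
    have h5 : ∀ (m : ℤ) (a : A) (u : ExteriorAlgebra ℤ (Fin n → ℤ)), tm a (m • u) = m • tm a u := by
      intro m a u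
      exact map_zsmul (AddMonoidHom.mk' (fun u => (tm a u : TS A n)) (fun u v => tm_addr a u v)) m u
    rw [h5]
    rfl
  · intro r _ hr
    unfold te
    rw [E_noninj, tm_zeror]
    intro hri
    apply hr
    rw [Finset.mem_map]
    have hri' : Function.Injective r := fun a b hab => hri (by show ι (r a) = ι (r b); rw [hab])
    exact ⟨Equiv.ofBijective r (Finite.injective_iff_bijective.mp hri'), Finset.mem_univ _, rfl⟩

end

end Pool.Agent.Helper928.Sep.DFun
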