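import Pool.Agent.Helper928.Sep.Chk
import Pool.Agent.Helper928.Nuc.Ext
import Pool.Agent.Helper928.Nuc.Tens
set_option autoImplicit false

/-! The Grassmann envelope of an integral superalgebra over an arbitrary commutative ring. -/

namespace Pool.Agent.Helper928.Sep.Env
open Pool.Agent.Helper928.Sep.SuperZ Pool.Agent.Helper928.Nuc.Ext Pool.Agent.Helper928.Nuc.Tens

section
variable (K : Type) [CommRing K] (n : ℕ)

/-- the exterior algebra -/
abbrev Lam : Type := ExteriorAlgebra K (Fin n → K)

/-- even and odd part -/
noncomputable def part (b : ℕ) : Submodule K (Lam K n) :=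
  Submodule.span K {u | ∃ l : List (Fin n), l.length % 2 = b ∧ u = E K n l}

variable {K n}

lemma E_mem (l : List (Fin n)) : E K n l ∈ part K n (l.length % 2) :=
  Submodule.subset_span ⟨l, rfl, rfl⟩

lemma part_mul {a b : ℕ} {u v : Lam K n} (hu : u ∈ part K n a) (hv : v ∈ part K n b) :
    u * v ∈ part K n ((a + b) % 2) := by
  induction hu using Submodule.span_induction with
  | mem u hu =>
    obtain ⟨l, hl, rfl⟩ := hu
    induction hv using Submodule.span_induction with
    | mem v hv =>
      obtain ⟨l', hl', rfl⟩ := hv
      rw [← E_append]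
      have h2 := E_mem (K := K) (l ++ l')
      have h3 : (l ++ l').length % 2 = (a + b) % 2 := by
        rw [List.length_append]; omega
      rwa [h3] at h2
    | zero => rw [mul_zero]; exact Submodule.zero_mem _
    | add x y _ _ hx hy => rw [mul_add]; exact Submodule.add_mem _ hx hy
    | smul r x _ hx => rw [mul_smul_comm]; exact Submodule.smul_mem _ _ hx
  | zero => rw [zero_mul]; exact Submodule.zero_mem _
  | add x y _ _ hx hy => rw [add_mul]; exact Submodule.add_mem _ hx hy
  | smul r x _ hx => rw [smul_mul_assoc]; exact Submodule.smul_mem _ _ hx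

lemma part_swap {a b : ℕ} {u v : Lam K n} (ha : a < 2) (hb : b < 2) (hu : u ∈ part K n a) (hv : v ∈ part K n b) :
    u * v = (if a * b = 1 then (-1 : ℤ) else 1) • (v * u) := by
  induction hu using Submodule.span_induction with
  | mem u hu =>
    obtain ⟨l, hl, rfl⟩ := hu
    induction hv using Submodule.span_induction with
    | mem v hv =>
      obtain ⟨l', hl', rfl⟩ := hv
      have h := E_swap K n l l'
      rw [h]
      split_ifs with hab
      · have h1 : a = 1 := Nat.eq_one_of_mul_eq_one_right hab
        have h2 : b = 1 := Nat.eq_one_of_mul_eq_one_left hab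
        have : Odd (l.length * l'.length) :=
          (Nat.odd_iff.mpr (by omega)).mul (Nat.odd_iff.mpr (by omega))
        rw [this.neg_one_pow, neg_one_smul, neg_one_mul]
      · have : Even (l.length * l'.length) := by
          rcases Nat.lt_or_ge 0 a with h1 | h1
          · rcases Nat.lt_or_ge 0 b with h2 | h2
            · have h3 : a = 1 := by omega
              have h4 : b = 1 := by omega
              rw [h3, h4] at hab
              exact absurd rfl hab
            · exact (Nat.even_iff.mpr (by omega)).mul_left _
          · exact (Nat.even_iff.mpr (by omega)).mul_right _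
        rw [this.neg_one_pow, one_smul, one_mul]
    | zero => rw [mul_zero, zero_mul, smul_zero]
    | add x y _ _ hx hy => rw [mul_add, add_mul, smul_add, hx, hy]
    | smul r x _ hx => rw [mul_smul_comm, smul_mul_assoc, hx, smul_comm]
  | zero => rw [mul_zero, zero_mul, smul_zero]
  | add x y _ _ hx hy => rw [mul_add, add_mul, smul_add, hx, hy]
  | smul r x _ hx => rw [mul_smul_comm, smul_mul_assoc, hx, smul_comm]

lemma E_sq (l : List (Fin n)) (hl : l ≠ []) : E K n l * E K n l = 0 := by
  cases l with
  | nil => exact absurd rfl hl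
  | cons i l =>
    rw [E_cons, mul_assoc, ← mul_assoc (E K n l)]
    have h := gen_E_swap K n i l
    have h2 : E K n l * gen K n i = (-1) ^ l.length * (gen K n i * E K n l) := by
      rw [h, ← mul_assoc, ← pow_add, ← two_mul, pow_mul]
      simp
    have h3 : gen K n i * gen K n i = 0 := by unfold gen; simp
    have hc : Commute (gen K n i) ((-1 : Lam K n) ^ l.length) := ((Commute.neg_one_left _).pow_left _).symm
    rw [h2, mul_assoc, ← mul_assoc (gen K n i), hc.eq, mul_assoc, mul_assoc (gen K n i), ← mul_assoc (gen K n i) (gen K n i),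
      h3]
    simp

lemma part_sq {u : Lam K n} (hu : u ∈ part K n 1) : u * u = 0 := by
  have key : u ∈ part K n 1 ∧ u * u = 0 := by
    refine Submodule.span_induction (p := fun u _ => u ∈ part K n 1 ∧ u * u = 0) ?_ ?_ ?_ ?_ hu
    · rintro x ⟨l, hl, rfl⟩
      refine ⟨?_, E_sq l ?_⟩
      · have := E_mem (K := K) l
        rwa [hl] at this
      · rintro rfl
        simp at hl
    · exact ⟨Submodule.zero_mem _, mul_zero _⟩
    · rintro x y _ _ ⟨hx, hx2⟩ ⟨hy, hy2⟩
      refine ⟨Submodule.add_mem _ hx hy, ?_⟩
      have h := part_swap (by norm_num) (by norm_num) hx hy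
      rw [if_pos (by norm_num), neg_one_smul] at h
      rw [mul_add, add_mul, add_mul, hx2, hy2, h]
      simp
    · rintro r x _ ⟨hx, hx2⟩
      refine ⟨Submodule.smul_mem _ _ hx, ?_⟩
      rw [smul_mul_assoc, mul_smul_comm, hx2, smul_zero, smul_zero]
  exact key.2

variable (K n) in
/-- the Grassmann algebra -/
noncomputable def G0 : SuperRing K (Lam K n) where
  part := part K n
  mul_mem := part_mul
  swap := part_swap
  sq := part_sq

end

/-- the ambient algebra -/
def RM (D : Data) (Λ : Type) : Type := Fin D.N → Λ

namespace RM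
variable {D : Data} {Λ : Type} [Ring Λ]
noncomputable instance : AddCommGroup (RM D Λ) := inferInstanceAs (AddCommGroup (Fin D.N → Λ))
noncomputable instance : Mul (RM D Λ) := ⟨fun v w => rmul D v w⟩

lemma mul_def (v w : RM D Λ) : v * w = rmul D v w := rfl

noncomputable instance : NonUnitalNonAssocRing (RM D Λ) where
  left_distrib := fun a b c => rmul_add a b c
  right_distrib := fun a b c => add_rmul a b c
  zero_mul := fun a => zero_rmul a
  mul_zero := fun a => rmul_zero a

variable {K : Type} [CommRing K] [Algebra K Λ]
noncomputable instance : Module K (RM D Λ) := inferInstanceAs (Module K (Fin D.N → Λ))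
instance : IsScalarTower K (RM D Λ) (RM D Λ) := ⟨fun r a b => smul_rmul r a b⟩
instance : SMulCommClass K (RM D Λ) (RM D Λ) := ⟨fun r a b => (rmul_smul r a b).symm⟩
end RM

section
variable (K : Type) [CommRing K] (n : ℕ) {D : Data}

/-- the Grassmann envelope as a subalgebra -/
noncomputable def BS (hD : D.Good) : NonUnitalSubalgebra K (RM D (Lam K n)) where
  carrier := {v | v ∈ env (G0 K n) D}
  add_mem' := fun ha hb => (env (G0 K n) D).add_mem ha hb
  zero_mem' := (env (G0 K n) D).zero_mem
  mul_mem' := fun ha hb => rmul_mem (G0 K n) hD ha hb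
  smul_mem' := fun r _ ha => (env (G0 K n) D).smul_mem r ha

lemma BS_alt (hD : D.Good) : IsAlt (BS K n hD) where
  left := by
    intro x y
    apply Subtype.ext
    funext l
    exact left_alt (G0 K n) hD (x.2) l
  right := by
    intro x y
    apply Subtype.ext
    funext l
    exact right_alt (G0 K n) hD (x.2) l

/-- the inclusion as an additive and multiplicative map -/
noncomputable def BS.incl (hD : D.Good) : BS K n hD →ₙ+* RM D (Lam K n) where
  toFun := fun b => (b : RM D (Lam K n))
  map_mul' := fun _ _ => rfl
  map_zero' := rfl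
  map_add' := fun _ _ => rfl

end

end Pool.Agent.Helper928.Sep.Env
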