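import Pool.Agent.Helper928.Sep.Tab56
set_option autoImplicit false

/-! The kernel checks for the 56-dimensional table. -/

namespace Pool.Agent.Helper928.Sep.TabChk56
open Pool.Agent.Helper928.Sep.SuperZ Pool.Agent.Helper928.Sep.Chk Pool.Agent.Helper928.Sep.Tab56

theorem okW : D.chkW = true := by decide +kernel
theorem okG : D.chkG = true := by decide +kernel
theorem okL : (List.range 56).all D.chkL1 = true := by decide +kernel
theorem okR : (List.range 56).all D.chkR1 = true := by decide +kernel

theorem ok : D.Ok where
  w := okW
  g := okG
  l := fun _ hi => GData.all_range okL hi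
  r := fun _ hi => GData.all_range okR hi

end Pool.Agent.Helper928.Sep.TabChk56
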