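import Pool.Agent.Helper928.Sep.Env
import Pool.Agent.Helper928.Sep.TabChk56
set_option autoImplicit false
open scoped TensorProduct

/-! Evaluation of `[c, f]` on the Grassmann envelope of the 56-dimensional superalgebra. -/

namespace Pool.Agent.Helper928.Sep.Eval
open Pool.Agent.Helper928.Sep.SuperZ Pool.Agent.Helper928.Sep.Chk Pool.Agent.Helper928.Nuc.Ext
  Pool.Agent.Helper928.Nuc.Tens Pool.Agent.Helper928.Sep.Env

/-! ### powers of sums of commuting elements with square zero -/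

section
variable {S : Type} [Ring S]

lemma add_pow_sq {s t : S} (h : Commute s t) (ht : t * t = 0) (n : ℕ) :
    (s + t) ^ (n + 1) = s ^ (n + 1) + (n + 1) • (s ^ n * t) := by
  induction n with
  | zero => simp
  | succ n ih =>
    rw [pow_succ, ih, add_mul, mul_add, mul_add, smul_mul_assoc, smul_mul_assoc, mul_assoc, mul_assoc, ht, h.symm.eq,
      ← mul_assoc, ← pow_succ, ← pow_succ, mul_zero, smul_zero, add_zero, add_assoc, succ_nsmul _ (n + 1)]
    congr 1
    abel

lemma pow4 {t0 t1 t2 t3 : S} (h01 : Commute t0 t1) (h02 : Commute t0 t2) (h03 : Commute t0 t3) (h12 : Commute t1 t2)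
    (h13 : Commute t1 t3) (h23 : Commute t2 t3) (h0 : t0 * t0 = 0) (h1 : t1 * t1 = 0) (h2 : t2 * t2 = 0)
    (h3 : t3 * t3 = 0) : (t0 + t1 + t2 + t3) ^ 4 = 24 • (t0 * t1 * t2 * t3) := by
  have q0 : t0 ^ 2 = 0 := by rw [pow_two, h0]
  have a2 : (t0 + t1) ^ 2 = 2 • (t0 * t1) := by
    rw [add_pow_sq h01 h1 1, q0, zero_add, pow_one]
  have a3 : (t0 + t1) ^ 3 = 0 := by
    rw [add_pow_sq h01 h1 2, q0, pow_succ, q0]; simp
  have c2 : Commute (t0 + t1) t2 := h02.add_left h12
  have b3 : (t0 + t1 + t2) ^ 3 = 6 • (t0 * t1 * t2) := by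
    rw [add_pow_sq c2 h2 2, a3, a2, zero_add, smul_mul_assoc, smul_smul]
    norm_num
  have b4 : (t0 + t1 + t2) ^ 4 = 0 := by
    rw [add_pow_sq c2 h2 3, a3, pow_succ, a3]; simp
  have c3 : Commute (t0 + t1 + t2) t3 := (h03.add_left h13).add_left h23
  rw [add_pow_sq c3 h3 3, b4, b3, zero_add, smul_mul_assoc, smul_smul]
  norm_num

lemma pow3 {t0 t1 t2 : S} (h01 : Commute t0 t1) (h02 : Commute t0 t2) (h12 : Commute t1 t2)
    (h0 : t0 * t0 = 0) (h1 : t1 * t1 = 0) (h2 : t2 * t2 = 0) :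
    (t0 + t1 + t2) ^ 3 = 6 • (t0 * t1 * t2) := by
  have q0 : t0 ^ 2 = 0 := by rw [pow_two, h0]
  have a2 : (t0 + t1) ^ 2 = 2 • (t0 * t1) := by
    rw [add_pow_sq h01 h1 1, q0, zero_add, pow_one]
  have a3 : (t0 + t1) ^ 3 = 0 := by
    rw [add_pow_sq h01 h1 2, q0, pow_succ, q0]; simp
  have c2 : Commute (t0 + t1) t2 := h02.add_left h12
  rw [add_pow_sq c2 h2 2, a3, a2, zero_add, smul_mul_assoc, smul_smul]
  norm_num

end

/-! ### sparse tensors -/

section
variable (D : GData)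

/-- product of sparse vectors -/
noncomputable def mulL (L L' : List (ℕ × ℤ)) : List (ℕ × ℤ) :=
  bindR (Int.ofNat 1) (fun i => bindR (Int.ofNat 1) (fun j => D.T i j) L' []) L []

/-- combine equal keys -/
noncomputable def nrm (n : ℕ) : List (ℕ × ℤ) → List (ℕ × ℤ) :=
  Nat.rec (fun L => L)
    (fun _ f L => List.rec [] (fun q M _ => (q.1, Int.add q.2 (ksum q.1 M)) :: f (krem q.1 M)) L) n

/-- associator of sparse vectors -/
noncomputable def asL (L L' L'' : List (ℕ × ℤ)) : List (ℕ × ℤ) :=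
  nrm 100 (mulL D (mulL D L L') L'' ++ axpy (Int.negSucc 0) (mulL D L (mulL D L' L'')) [])

/-- commutator of sparse vectors -/
noncomputable def brL (L L' : List (ℕ × ℤ)) : List (ℕ × ℤ) :=
  nrm 100 (mulL D L L' ++ axpy (Int.negSucc 0) (mulL D L' L) [])

/-- keys are indices -/
def OkL (L : List (ℕ × ℤ)) : Prop := ∀ p ∈ L, p.1 < D.N

variable {D}

lemma ok_nil : OkL D [] := by intro p hp; simp at hp

lemma ok_axpy (a : ℤ) {M tail : List (ℕ × ℤ)} (hM : OkL D M) (ht : OkL D tail) : OkL D (axpy a M tail) := by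
  induction M with
  | nil => exact ht
  | cons q M ih =>
    have h : axpy a (q :: M) tail = (q.1, Int.mul a q.2) :: axpy a M tail := rfl
    rw [h]
    intro p hp
    rcases List.mem_cons.mp hp with h1 | h1
    · rw [h1]; exact hM q (by simp)
    · exact ih (fun p hp => hM p (by simp [hp])) p h1

lemma ok_bindR (a : ℤ) (f : ℕ → List (ℕ × ℤ)) {L tail : List (ℕ × ℤ)} (hf : ∀ q ∈ L, OkL D (f q.1)) (ht : OkL D tail) :
    OkL D (bindR a f L tail) := by
  induction L with
  | nil => exact ht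
  | cons q L ih =>
    have h : bindR a f (q :: L) tail = axpy (Int.mul a q.2) (f q.1) (bindR a f L tail) := rfl
    rw [h]
    exact ok_axpy _ (hf q (by simp)) (ih (fun q hq => hf q (by simp [hq])))

lemma ok_mulL (hD : D.Ok) {L L' : List (ℕ × ℤ)} (h : OkL D L) (h' : OkL D L') : OkL D (mulL D L L') :=
  ok_bindR _ _ (fun q hq => ok_bindR _ _ (fun q' hq' => fun _ hp => (hD.grade (h q hq) (h' q' hq') hp).1) ok_nil) ok_nil

lemma ok_krem (k : ℕ) {L : List (ℕ × ℤ)} (h : OkL D L) : OkL D (krem k L) := by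
  induction L with
  | nil => exact h
  | cons q L ih =>
    have h1 : krem k (q :: L) = cond (Nat.beq q.1 k) (krem k L) (q :: krem k L) := rfl
    rw [h1]
    have h2 := ih (fun p hp => h p (by simp [hp]))
    cases Nat.beq q.1 k
    · intro p hp
      rcases List.mem_cons.mp hp with h3 | h3
      · rw [h3]; exact h q (by simp)
      · exact h2 p h3
    · exact h2

lemma ok_nrm (n : ℕ) : ∀ {L : List (ℕ × ℤ)}, OkL D L → OkL D (nrm n L) := by
  induction n with
  | zero => intro L h; exact h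
  | succ n ih =>
    intro L h
    cases L with
    | nil => exact ok_nil
    | cons q M =>
      have h1 : nrm (n + 1) (q :: M) = (q.1, Int.add q.2 (ksum q.1 M)) :: nrm n (krem q.1 M) := rfl
      rw [h1]
      intro p hp
      rcases List.mem_cons.mp hp with h3 | h3
      · rw [h3]; exact h q (by simp)
      · exact ih (ok_krem _ (fun p hp => h p (by simp [hp]))) p h3

lemma cf_nrm (n : ℕ) (k : ℕ) : ∀ L : List (ℕ × ℤ), cf k (nrm n L) = cf k L := by
  induction n with
  | zero => intro L; rfl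
  | succ n ih =>
    intro L
    cases L with
    | nil => rfl
    | cons q M =>
      have h1 : nrm (n + 1) (q :: M) = (q.1, Int.add q.2 (ksum q.1 M)) :: nrm n (krem q.1 M) := rfl
      rw [h1, cf, cf, ih, cf_krem]
      have h2 : Int.add q.2 (ksum q.1 M) = q.2 + ksum q.1 M := rfl
      rw [h2]
      by_cases hk : q.1 = k
      · subst hk
        simp only [if_true]
        rw [ksum_eq]
        ring
      · have hk' : ¬ (k = q.1) := fun h => hk h.symm
        rw [if_neg hk, if_neg hk, if_neg hk']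

lemma cf_bind_sum {L : List (ℕ × ℤ)} (hL : OkL D L) (f : ℕ → List (ℕ × ℤ)) (k : ℕ) :
    cf k (bindR (Int.ofNat 1) f L []) = ∑ i : Fin D.N, cf i L * cf k (f i) := by
  rw [cf_bindR]
  have h := sum_cf (N := D.N) L hL (fun i => cf k (f i))
  simp only [smul_eq_mul] at h ⊢
  rw [← h]
  simp [cf]

lemma cf_mulL {L L' : List (ℕ × ℤ)} (hL : OkL D L) (hL' : OkL D L') (k : ℕ) :
    cf k (mulL D L L') = ∑ i : Fin D.N, ∑ j : Fin D.N, cf i L * (cf j L' * D.D0.c i j k) := by
  unfold mulL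
  rw [cf_bind_sum hL]
  refine Finset.sum_congr rfl fun i _ => ?_
  rw [cf_bind_sum hL', Finset.mul_sum]
  rfl

variable {S : Type} [Ring S] {a b : S}

variable (D a b) in
/-- the sparse vector `L` with generic even coefficients -/
def V (L : List (ℕ × ℤ)) : RM D.D0 S := fun k => cf k L • (a ^ D.wa k * b ^ D.wb k)

lemma V_mul (hD : D.Ok) (hab : Commute a b) {L L' : List (ℕ × ℤ)} (hL : OkL D L) (hL' : OkL D L') :
    V D a b L * V D a b L' = V D a b (mulL D L L') := by
  rw [RM.mul_def]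
  funext k
  show ∑ i : Fin D.N, ∑ j : Fin D.N, D.D0.c i j k • ((cf i L • (a ^ D.wa i * b ^ D.wb i)) *
    (cf j L' • (a ^ D.wa j * b ^ D.wb j))) = cf k (mulL D L L') • (a ^ D.wa k * b ^ D.wb k)
  rw [cf_mulL hL hL', Finset.sum_smul]
  refine Finset.sum_congr rfl fun i _ => ?_
  rw [Finset.sum_smul]
  refine Finset.sum_congr rfl fun j _ => ?_
  by_cases h0 : D.D0.c i j k = 0
  · rw [h0]; simp
  · obtain ⟨_, h1, h2⟩ := hD.c_ne i.2 j.2 h0
    have h3 : a ^ D.wa i * b ^ D.wb i * (a ^ D.wa j * b ^ D.wb j) = a ^ D.wa k * b ^ D.wb k := by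
      rw [h1, h2, pow_add, pow_add, mul_assoc, mul_assoc, ← mul_assoc (b ^ D.wb i),
        ← ((hab.pow_pow (D.wa j) (D.wb i)).eq), mul_assoc]
    rw [smul_mul_assoc, mul_smul_comm, h3, smul_smul, smul_smul]
    congr 1
    ring

lemma V_append (L L' : List (ℕ × ℤ)) : V D a b L + V D a b L' = V D a b (L ++ L') := by
  funext k
  show cf k L • (a ^ D.wa k * b ^ D.wb k) + cf k L' • (a ^ D.wa k * b ^ D.wb k) = cf k (L ++ L') • (a ^ D.wa k * b ^ D.wb k)
  rw [cf_append, add_smul]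

lemma V_neg (L : List (ℕ × ℤ)) : V D a b (axpy (Int.negSucc 0) L []) = - V D a b L := by
  funext k
  show cf k _ • (a ^ D.wa k * b ^ D.wb k) = - (cf k L • (a ^ D.wa k * b ^ D.wb k))
  rw [cf_axpy]
  have : (Int.negSucc 0) = (-1 : ℤ) := rfl
  rw [this, cf, add_zero, neg_one_mul, neg_smul]

lemma V_nrm (n : ℕ) (L : List (ℕ × ℤ)) : V D a b (nrm n L) = V D a b L := by
  funext k
  show cf k _ • (a ^ D.wa k * b ^ D.wb k) = cf k L • (a ^ D.wa k * b ^ D.wb k)
  rw [cf_nrm]

lemma ok_append {L L' : List (ℕ × ℤ)} (h : OkL D L) (h' : OkL D L') : OkL D (L ++ L') := by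
  intro p hp
  rcases List.mem_append.mp hp with h1 | h1
  · exact h p h1
  · exact h' p h1

lemma ok_asL (hD : D.Ok) {L L' L'' : List (ℕ × ℤ)} (h : OkL D L) (h' : OkL D L') (h'' : OkL D L'') :
    OkL D (asL D L L' L'') :=
  ok_nrm _ (ok_append (ok_mulL hD (ok_mulL hD h h') h'') (ok_axpy _ (ok_mulL hD h (ok_mulL hD h' h'')) ok_nil))

lemma V_as (hD : D.Ok) (hab : Commute a b) {L L' L'' : List (ℕ × ℤ)} (h : OkL D L) (h' : OkL D L') (h'' : OkL D L'') :
    as (V D a b L) (V D a b L') (V D a b L'') = V D a b (asL D L L' L'') := by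
  unfold as asL
  rw [V_mul hD hab h h', V_mul hD hab (ok_mulL hD h h') h'', V_mul hD hab h' h'', V_mul hD hab h (ok_mulL hD h' h''),
    V_nrm, ← V_append, V_neg, sub_eq_add_neg]

lemma V_br (hD : D.Ok) (hab : Commute a b) {L L' : List (ℕ × ℤ)} (h : OkL D L) (h' : OkL D L') :
    br (V D a b L) (V D a b L') = V D a b (brL D L L') := by
  unfold br brL
  rw [V_mul hD hab h h', V_mul hD hab h' h, V_nrm, ← V_append, V_neg, sub_eq_add_neg]

end

end Pool.Agent.Helper928.Sep.Eval
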