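import Pool.Agent.Helper928.Sep.Red
set_option autoImplicit false

/-! The multilinear identities for `[c, f]`. -/

namespace Pool.Agent.Helper928.Sep.Fin7
open Pool.Agent.Helper928.Sep Pool.Agent.Helper928.Nuc.Ext Pool.Agent.Helper928.Nuc.Tens Pool.Agent.Helper928.Nuc.NFun
  Pool.Agent.Helper928.Sep.DFun Pool.Agent.Helper928.NucCert Pool.Agent.Helper928.Nuc.Alt
  Pool.Agent.Helper928.Sep.Red

section
variable {R : Type} [NonUnitalNonAssocRing R] {P : ℕ → AddSubgroup R} (hP : SuperAlt R P)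
include hP

lemma as_mem {i j k : ℕ} {a b c : R} (ha : a ∈ P (i % 2)) (hb : b ∈ P (j % 2)) (hc : c ∈ P (k % 2)) :
    as a b c ∈ P ((i + j + k) % 2) := by
  unfold as
  refine AddSubgroup.sub_mem _ (mul_mem' hP (mul_mem' hP ha hb) hc) ?_
  have := mul_mem' hP ha (mul_mem' hP hb hc)
  rwa [← add_assoc] at this

lemma as_zsmul1 (m : ℤ) (a b c : R) : as (m • a) b c = m • as a b c := by
  unfold as; simp only [smul_mul_assoc, smul_sub]

end

section
variable {A : Type} [NonUnitalNonAssocRing A] {n : ℕ} (hA : IsAlt A)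
include hA

lemma cc_mem {X : TS A n} (hX : X ∈ PP (A := A) (n := n) 1) : cc X ∈ PP (A := A) (n := n) (3 % 2) :=
  as_mem (superAlt hA) (i := 1) (j := 1) (k := 1) hX hX hX

lemma ff_mem {X : TS A n} (hX : X ∈ PP (A := A) (n := n) 1) : ff X ∈ PP (A := A) (n := n) (4 % 2) :=
  as_mem (superAlt hA) (i := 2) (j := 1) (k := 1) (mul_mem' (superAlt hA) (i := 1) (j := 1) hX hX) hX hX

lemma mm_mem {X Y : TS A n} (hX : X ∈ PP (A := A) (n := n) 1) (hY : Y ∈ PP (A := A) (n := n) 0) :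
    mm X Y ∈ PP (A := A) (n := n) 0 := by
  have h := hval_mem hA hX hY homLm
  rw [Lm_val] at h
  exact h

lemma M5_mem {X M : TS A n} (hX : X ∈ PP (A := A) (n := n) 1) (hM : M ∈ PP (A := A) (n := n) 0) :
    M5 X X X X X M ∈ PP (A := A) (n := n) (5 % 2) := by
  obtain ⟨g, hg, hv⟩ := W6_sound (superAlt hA) hX hX
  have h := hg.mem 0 M hM
  rw [zero_add] at h
  rw [hv]
  exact zsmul_mem h _

lemma nucN_super {X R' S' : TS A n} (hX : X ∈ PP (A := A) (n := n) 1)
    (hR : R' ∈ PP (A := A) (n := n) 0) (hS : S' ∈ PP (A := A) (n := n) 0) :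
    (12 : ℤ) • as (uu X) R' S' = 0 := by
  have hP := superAlt (n := n) hA
  have hSR : S' * R' ∈ PP (A := A) (n := n) 0 := mul_mem' hP (i := 0) (j := 0) hS hR
  have e : as (uu X) R' S' = as (cc X) (ff X) (S' * R') - S' * as (cc X) (ff X) R' - as (cc X) (ff X) S' * R' :=
    comm_id hP (i := 3) (j := 4) (by decide) (cc_mem hA hX) (ff_mem hA hX) hR hS
  rw [e, smul_sub, smul_sub, F1 hP hX hSR, ← mul_smul_comm, F1 hP hX hR, ← smul_mul_assoc, F1 hP hX hS]
  simp

lemma nucI_super (i j : Fin n) {X Y R' S' : TS A n} (hX : X ∈ PP (A := A) (n := n) 1) (hY : Y ∈ PP (A := A) (n := n) 0)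
    (hR : R' ∈ PP (A := A) (n := n) 0) (hS : S' ∈ PP (A := A) (n := n) 0) :
    (107495424 : ℤ) • rho j (rho i (as (uu X * Y) R' S')) = 0 := by
  have hP := superAlt (n := n) hA
  have hM := mm_mem hA hX hY
  have h12 := part12 hA i hX hY hR hS
  have h4 := part4 hA i j hX hM hR hS (M5_mem hA hX hM)
  have h2 := F2 hP hX hY
  set T1 := br (K1 X Y) X
  set T2 := br (K2 X Y) (X * X)
  set T3 := M5 X X X X X (mm X Y)
  set W := uu X * Y
  have h3 : as ((3 : ℤ) • ((48 : ℤ) • W - T1 - T2 - T3)) R' S' = 0 := by rw [h2, as_z1]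
  rw [as_zsmul1 hP, as_sub1, as_sub1, as_sub1, as_zsmul1 hP] at h3
  have h5 := congrArg (fun v => rho j (rho i v)) h3
  simp only [map_zsmul, map_sub, map_zero] at h5
  have h6 : (486 : ℤ) • rho j (rho i (as T1 R' S' + as T2 R' S')) = 0 := by
    rw [← map_zsmul, h12, map_zero]
  rw [map_add, map_add] at h6
  have h7 := congrArg (fun v => (746496 : ℤ) • v) h5
  simp only [smul_zero] at h7
  have h8 := congrArg (fun v => (4608 : ℤ) • v) h6
  simp only [smul_zero] at h8
  have h9 := congrArg (fun v => (3 : ℤ) • v) h4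
  simp only [smul_zero] at h9
  have e : (107495424 : ℤ) • rho j (rho i (as W R' S')) =
    (746496 : ℤ) • (3 : ℤ) • ((48 : ℤ) • rho j (rho i (as W R' S')) - rho j (rho i (as T1 R' S')) -
      rho j (rho i (as T2 R' S')) - rho j (rho i (as T3 R' S'))) +
    (4608 : ℤ) • (486 : ℤ) • (rho j (rho i (as T1 R' S')) + rho j (rho i (as T2 R' S'))) +
    (3 : ℤ) • (746496 : ℤ) • rho j (rho i (as T3 R' S')) := by
    module
  rw [e, h7, h8, h9]
  simp

/-- `12 ([c,f], r, s) = 0` -/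
theorem nucN (x : Fin 7 → A) (r s : A) : (12 : ℤ) • as (dd x) r s = 0 := by
  let ι : Fin 7 → Fin 9 := Fin.castLE (by norm_num)
  have h := nucN_super hA (XI_mem ι x) (te_mem r []) (te_mem s [])
  rw [uu_XI, as_te, ← te_zsmul] at h
  have h1 := congrArg (fun v => rho 8 (rho 7 v)) h
  simp only [rho_te, map_zero] at h1
  have h2 : (List.ofFn ι ++ [] ++ [] ++ [7] ++ [8] : List (Fin 9)) = List.ofFn (fun i : Fin 9 => i) := by decide
  rw [h2] at h1
  have h3 := congrArg ext h1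
  rwa [ext_te, map_zero] at h3

/-- `κ ([c,f] y, r, s) = 0` -/
theorem nucI (x : Fin 7 → A) (y r s : A) : (107495424 : ℤ) • as (dd x * y) r s = 0 := by
  let ι : Fin 7 → Fin 9 := Fin.castLE (by norm_num)
  have h := nucI_super hA 7 8 (XI_mem ι x) (te_mem y []) (te_mem r []) (te_mem s [])
  rw [uu_XI, te_mul, as_te, rho_te, rho_te, ← te_zsmul] at h
  have h2 : (List.ofFn ι ++ [] ++ [] ++ [] ++ [7] ++ [8] : List (Fin 9)) = List.ofFn (fun i : Fin 9 => i) := by decide
  rw [h2] at h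
  have h3 := congrArg ext h
  rwa [ext_te, map_zero] at h3

end

end Pool.Agent.Helper928.Sep.Fin7
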