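import Pool.Agent.Helper928.NucCert.Target
set_option autoImplicit false

/-! Monomials with a hole in super-alternative rings and their operator words. -/

namespace Pool.Agent.Helper928.Sep
open Pool.Agent.Helper928.Nuc.Tens Pool.Agent.Helper928.Nuc.NFun Pool.Agent.Helper928.NucCert

/-- monomials containing a hole exactly once -/
inductive HT
  | h : HT
  | l : Tr → HT → HT
  | r : HT → Tr → HT

namespace HT

/-- degree in the two letters -/
def deg : HT → ℕ
  | h => 0
  | l a t => t.deg + a.deg
  | r t a => t.deg + a.deg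

/-- degree modulo `2` -/
def odd : HT → Bool
  | h => false
  | l a t => Bool.xor t.odd a.odd
  | r t a => Bool.xor t.odd a.odd

/-- value -/
def val {R : Type} [NonUnitalNonAssocRing R] (u v y : R) : HT → R
  | h => y
  | l a t => a.val u v * t.val u v y
  | r t a => t.val u v y * a.val u v

/-- the operator polynomial (for an even element in the hole) -/
noncomputable def poly (t : HT) : Tri :=
  HT.rec (motive := fun _ => Tri) (.node (.ofNat 1) .nil .nil .nil .nil)
    (fun a t ih => Tri.smul (Bool.rec (Int.ofNat 1) (Int.negSucc 0) (and t.odd a.odd)) (Tri.mul (Lp a) ih))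
    (fun _ a ih => Tri.mul (Rp a) ih) t

theorem poly_h : poly h = .node (.ofNat 1) .nil .nil .nil .nil := rfl
theorem poly_l (a : Tr) (t : HT) : poly (l a t) =
  Tri.smul (Bool.rec (Int.ofNat 1) (Int.negSucc 0) (and t.odd a.odd)) (Tri.mul (Lp a) (poly t)) := rfl
theorem poly_r (t : HT) (a : Tr) : poly (r t a) = Tri.mul (Rp a) (poly t) := rfl

theorem odd_iff (t : HT) : t.odd = true ↔ Odd t.deg := by
  induction t with
  | h => simp [HT.odd, HT.deg]
  | l a t ih =>
    rw [HT.odd, HT.deg, Nat.odd_add, ← ih, ← Nat.not_odd_iff_even, ← NucCert.odd_iff]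
    cases t.odd <;> cases a.odd <;> simp
  | r t a ih =>
    rw [HT.odd, HT.deg, Nat.odd_add, ← ih, ← Nat.not_odd_iff_even, ← NucCert.odd_iff]
    cases t.odd <;> cases a.odd <;> simp

theorem sgn_eq (t : HT) (a : Tr) :
    (Bool.rec (Int.ofNat 1) (Int.negSucc 0) (and t.odd a.odd) : ℤ) = (-1) ^ (t.deg * a.deg) := by
  have h : (t.odd && a.odd) = true ↔ Odd (t.deg * a.deg) := by
    rw [Bool.and_eq_true, odd_iff, NucCert.odd_iff, Nat.odd_mul]
  by_cases h1 : (t.odd && a.odd) = true
  · rw [(h.mp h1).neg_one_pow, h1]; rfl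
  · have := mt h.mpr h1
    rw [Nat.not_odd_iff_even] at this
    rw [this.neg_one_pow, Bool.eq_false_iff.mpr h1]; rfl

end HT

section
variable {R : Type} [NonUnitalNonAssocRing R] {P : ℕ → AddSubgroup R} {x z : R}

theorem Op.one : Op P x z (.node (.ofNat 1) .nil .nil .nil .nil) 0 (fun _ m => m) where
  mem e m hm := hm
  eval f hf e m hm := by simp [ev]

theorem Op.nil (d : ℕ) : Op P x z .nil d (fun _ _ => 0) where
  mem e m hm := AddSubgroup.zero_mem _
  eval f hf e m hm := by rw [ev, hf.zero]

variable (hP : SuperAlt R P) (hx : x ∈ P 1) (hz : z ∈ P 1)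
include hP hx hz

theorem HT.sound (t : HT) : ∃ g : ℕ → R → R, Op P x z t.poly t.deg g ∧ ∀ m, g 0 m = t.val x z m := by
  induction t with
  | h => exact ⟨_, Op.one, fun _ => rfl⟩
  | l a t ih =>
    obtain ⟨g, hg, hv⟩ := ih
    refine ⟨_, (hg.mul (RL_sound hP hx hz a).2).smul _, fun m => ?_⟩
    rw [HT.sgn_eq]
    show ((-1 : ℤ) ^ (t.deg * a.deg)) • (((-1 : ℤ) ^ ((0 + t.deg) * a.deg)) • (a.val x z * g 0 m)) = a.val x z * t.val x z m
    rw [hv, zero_add, smul_smul, ← mul_pow]
    simp
  | r t a ih =>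
    obtain ⟨g, hg, hv⟩ := ih
    refine ⟨_, hg.mul (RL_sound hP hx hz a).1, fun m => ?_⟩
    show g 0 m * a.val x z = _
    rw [hv]; rfl

omit hP hx hz

/-- linear combinations of monomials with a hole -/
abbrev HL := List (ℤ × HT)

/-- the polynomial -/
noncomputable def hpoly (l : HL) : Tri :=
  List.rec (motive := fun _ => Tri) Tri.nil (fun i _ ih => Tri.add (Tri.smul i.1 i.2.poly) ih) l

theorem hpoly_cons (i : ℤ × HT) (l : HL) : hpoly (i :: l) = Tri.add (Tri.smul i.1 i.2.poly) (hpoly l) := rfl

/-- the value -/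
def hval (u v y : R) : HL → R
  | [] => 0
  | i :: l => i.1 • i.2.val u v y + hval u v y l

include hP hx hz in
theorem hpoly_sound (l : HL) (d : ℕ) (hd : ∀ i ∈ l, i.2.deg = d) :
    ∃ g : ℕ → R → R, Op P x z (hpoly l) d g ∧ ∀ m, g 0 m = hval x z m l := by
  induction l with
  | nil => exact ⟨_, Op.nil d, fun _ => rfl⟩
  | cons i l ih =>
    obtain ⟨g, hg, hv⟩ := ih (fun j hj => hd j (List.mem_cons_of_mem _ hj))
    obtain ⟨g', hg', hv'⟩ := HT.sound hP hx hz i.2
    rw [hd i List.mem_cons_self] at hg'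
    refine ⟨_, (hg'.smul i.1).add hg, fun m => ?_⟩
    show i.1 • g' 0 m + g 0 m = _
    rw [hv, hv']; rfl

/-- multiply on the right by a monomial -/
def hr (a : Tr) (l : HL) : HL := l.map (fun i => (i.1, .r i.2 a))
/-- multiply on the left by a monomial -/
def hl (a : Tr) (l : HL) : HL := l.map (fun i => (i.1, .l a i.2))
/-- multiply by an integer -/
def hs (k : ℤ) (l : HL) : HL := l.map (fun i => (k * i.1, i.2))

theorem hval_append (u v y : R) (l l' : HL) : hval u v y (l ++ l') = hval u v y l + hval u v y l' := by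
  induction l with
  | nil => simp [hval]
  | cons i l ih => simp only [List.cons_append, hval, ih, add_assoc]

theorem hval_hr (u v y : R) (a : Tr) (l : HL) : hval u v y (hr a l) = hval u v y l * a.val u v := by
  induction l with
  | nil => simp [hr, hval]
  | cons i l ih =>
    simp only [hr, List.map_cons, hval, HT.val, add_mul, smul_mul_assoc] at ih ⊢
    rw [ih]

theorem hval_hl (u v y : R) (a : Tr) (l : HL) : hval u v y (hl a l) = a.val u v * hval u v y l := by
  induction l with
  | nil => simp [hl, hval]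
  | cons i l ih =>
    simp only [hl, List.map_cons, hval, HT.val, mul_add, mul_smul_comm] at ih ⊢
    rw [ih]

theorem hval_hs (u v y : R) (k : ℤ) (l : HL) : hval u v y (hs k l) = k • hval u v y l := by
  induction l with
  | nil => simp [hs, hval]
  | cons i l ih =>
    simp only [hs, List.map_cons, hval, smul_add, mul_smul] at ih ⊢
    rw [ih]

/-- the degree of all monomials -/
def homog (d : ℕ) (l : HL) : Prop := ∀ i ∈ l, i.2.deg = d

theorem homog.append {d : ℕ} {l l' : HL} (h : homog d l) (h' : homog d l') : homog d (l ++ l') := by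
  intro i hi
  rcases List.mem_append.mp hi with hi | hi
  · exact h i hi
  · exact h' i hi
theorem homog.hr {d e : ℕ} {l : HL} (h : homog d l) {a : Tr} (he : e = d + a.deg) : homog e (hr a l) := by
  intro i hi
  obtain ⟨j, hj, rfl⟩ := List.mem_map.mp hi
  rw [he, ← h j hj]; rfl
theorem homog.hl {d e : ℕ} {l : HL} (h : homog d l) {a : Tr} (he : e = d + a.deg) : homog e (hl a l) := by
  intro i hi
  obtain ⟨j, hj, rfl⟩ := List.mem_map.mp hi
  rw [he, ← h j hj]; rfl
theorem homog.hs {d : ℕ} {l : HL} (h : homog d l) (k : ℤ) : homog d (hs k l) := by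
  intro i hi
  obtain ⟨j, hj, rfl⟩ := List.mem_map.mp hi
  exact h j hj

end

end Pool.Agent.Helper928.Sep
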