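import Pool.Agent.Helper928.Sep.Check
set_option autoImplicit false
set_option maxRecDepth 100000
set_option linter.unusedSimpArgs false

/-! The three super identities. -/

namespace Pool.Agent.Helper928.Sep
open Pool.Agent.Helper928.Nuc.Tens Pool.Agent.Helper928.Nuc.NFun Pool.Agent.Helper928.NucCert

section
variable {R : Type} [NonUnitalNonAssocRing R]

/-- `c = (x, x, x)` -/
def cc (x : R) : R := as x x x
/-- `f = (x x, x, x)` -/
def ff (x : R) : R := as (x * x) x x
/-- `u = [c, f]` -/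
def uu (x : R) : R := br (cc x) (ff x)
/-- first companion -/
def K1 (x y : R) : R := hval x x y LP1
/-- second companion -/
def K2 (x y : R) : R := hval x x y LP2
/-- the argument of `M5` -/
def mm (x y : R) : R := (2 : ℤ) • (y * (x * x)) - (y * x) * x - x * (x * y)

variable {P : ℕ → AddSubgroup R} {x z y : R}

theorem W6_sound' (hP : SuperAlt R P) (hx : x ∈ P 1) (hz : z ∈ P 1) :
    ∃ g : ℕ → R → R, Op P x z W6 5 g ∧ ∀ y, M5 x x x x x y = (8 : ℤ) • g 2 y := by
  have hr : Op P x z lx 1 (fun _ m => m * x) := (RL_sound hP hx hz .x).1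
  have hl : Op P x z ly 1 (fun e m => ((-1 : ℤ) ^ (e * 1)) • (x * m)) := (RL_sound hP hx hz .x).2
  have hw := hl.sub hr
  have hS := (hw.mul (RmL_sound hP hx hz t4)).smul (.ofNat 3)
  have hV := hw.mul (((RpL_sound hP hx hz (.m .x (.m t2 .x))).add (RpL_sound hP hx hz (.m (.m t2 .x) .x))).sub
    ((RpL_sound hP hx hz (.m .x (.m .x t2))).add (RpL_sound hP hx hz (.m (.m .x t2) .x))))
  have hT := (((RmL_sound hP hx hz (.m t2 .x)).sub (RmL_sound hP hx hz (.m .x t2))).mul
    (RpL_sound hP hx hz t2)).smul (.ofNat 2)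
  have h := hS.add (hV.add (hT.congr (d' := 5) rfl (fun _ _ _ => rfl)))
  refine ⟨_, h, fun y => ?_⟩
  simp only [Tr.deg, Tr.val, t2, t4, M5, br, jo, as]
  simp only [Int.ofNat_eq_natCast, Nat.cast_ofNat]
  norm_num
  simp only [mul_add, add_mul, mul_sub, sub_mul, smul_add, smul_sub, mul_neg, neg_mul, smul_neg, smul_smul]
  abel

theorem LI1_val (x z y : R) : hval x z y LI1 = as (cc x) (ff x) y := by
  simp only [LI1, hval, HT.val, Tr.val, cc, ff, as, Int.ofNat_eq_natCast, Nat.cast_one, one_smul, Int.negSucc_eq,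
    Nat.cast_zero, zero_add, neg_smul, mul_sub, sub_mul]
  abel

theorem Lu_val (x z y : R) : hval x z y Lu = uu x * y := by
  simp only [Lu, hval, HT.val, Tr.val, uu, br, cc, ff, as, Int.ofNat_eq_natCast, Nat.cast_one, one_smul, Int.negSucc_eq,
    Nat.cast_zero, zero_add, neg_smul, mul_sub, sub_mul]
  abel

theorem Lm_val (x z y : R) : hval x z y Lm = mm x y := by
  simp only [Lm, hval, HT.val, Tr.val, mm, Int.ofNat_eq_natCast, Nat.cast_one, one_smul, Int.negSucc_eq,
    Nat.cast_zero, zero_add, neg_smul, mul_sub, sub_mul, Nat.cast_ofNat]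
  abel

theorem LP1_val (x z y : R) : hval x z y LP1 = K1 x y := rfl
theorem LP2_val (x z y : R) : hval x z y LP2 = K2 x y := rfl

theorem F1 (hP : SuperAlt R P) (hx : x ∈ P 1) (hy : y ∈ P 0) : (12 : ℤ) • as (cc x) (ff x) y = 0 := by
  obtain ⟨g, hg, hv⟩ := hpoly_sound hP hx hx LI1 7 (by unfold LI1; decide)
  have h := cert_sound hP hx hx D1.e _ (Int.ofNat 12) _ _ hg check1 0 y hy
  rw [hv, LI1_val] at h
  exact h

theorem homLP1 : homog 6 LP1 := by unfold LP1 homog; decide
theorem homLP2 : homog 5 LP2 := by unfold LP2 homog; decide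
theorem homLu : homog 7 Lu := by unfold Lu homog; decide
theorem homLm : homog 2 Lm := by unfold Lm homog; decide

theorem F2 (hP : SuperAlt R P) (hx : x ∈ P 1) (hy : y ∈ P 0) :
    (3 : ℤ) • ((48 : ℤ) • (uu x * y) - br (K1 x y) x - br (K2 x y) (x * x) - M5 x x x x x (mm x y)) = 0 := by
  obtain ⟨g, hg, hv⟩ := hpoly_sound hP hx hx L2 7
    ((homLu.hs 48).append (((homLP1.hr rfl).hs (-1)).append ((homLP1.hl rfl).append
      (((homLP2.hr rfl).hs (-1)).append (homLP2.hl rfl)))))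
  obtain ⟨g', hg', hv'⟩ := hpoly_sound hP hx hx Lm 2 homLm
  obtain ⟨w, hw, hwv⟩ := W6_sound' hP hx hx
  have h0 := hg.sub (((hg'.mul hw).congr (d' := 7) rfl (fun _ _ _ => rfl)).smul (Int.ofNat 8))
  have h := cert_sound hP hx hx D2.g _ (Int.ofNat 3) _ _ h0 check2 0 y hy
  have h1 : (3 : ℤ) • (g 0 y - (8 : ℤ) • w (0 + 2) (g' 0 y)) = 0 := h
  rw [zero_add, ← hwv, hv', Lm_val, hv] at h1
  rw [← h1]
  congr 2
  unfold L2
  rw [hval_append, hval_append, hval_append, hval_append, hval_hs, hval_hs, hval_hs, hval_hr, hval_hr, hval_hl, hval_hl,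
    Lu_val, LP1_val, LP2_val]
  simp only [Tr.val, br, neg_smul, one_smul]
  abel

theorem F3 (hP : SuperAlt R P) (hx : x ∈ P 1) (hz : z ∈ P 1) (hy : y ∈ P 0) :
    (486 : ℤ) • (as (K1 x y) x z + as (K2 x y) (x * x) z) = 0 := by
  obtain ⟨g, hg, hv⟩ := hpoly_sound hP hx hz L3 8
    (((homLP1.hr (e := 7) rfl).hr rfl).append (((homLP1.hr rfl).hs (-1)).append
      (((homLP2.hr (e := 7) rfl).hr rfl).append ((homLP2.hr rfl).hs (-1)))))
  have h := cert_sound hP hx hz D3.w _ (Int.ofNat 486) _ _ hg check3 0 y hy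
  rw [hv] at h
  rw [← h]
  show _ = (486 : ℤ) • hval x z y L3
  congr 1
  unfold L3
  rw [hval_append, hval_append, hval_append, hval_hs, hval_hs]
  simp only [hval_hr, LP1_val, LP2_val]
  simp only [Tr.val, as, neg_smul, one_smul]
  abel

end
end Pool.Agent.Helper928.Sep
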