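import Pool.Agent.Helper928.Sep.HT
set_option autoImplicit false
set_option maxRecDepth 100000

/-! The targets of the three certificates. -/

namespace Pool.Agent.Helper928.Sep
open Pool.Agent.Helper928.NucCert

/-- `(c, f, y)` -/
def LI1 : HL := [((.ofNat 1), (.l (.m (.m (.m .x .x) .x) (.m (.m (.m .x .x) .x) .x)) .h)),
  ((.negSucc 0), (.l (.m (.m (.m .x .x) .x) (.m (.m .x .x) (.m .x .x))) .h)),
  ((.negSucc 0), (.l (.m (.m .x (.m .x .x)) (.m (.m (.m .x .x) .x) .x)) .h)),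
  ((.ofNat 1), (.l (.m (.m .x (.m .x .x)) (.m (.m .x .x) (.m .x .x))) .h)),
  ((.negSucc 0), (.l (.m (.m .x .x) .x) (.l (.m (.m (.m .x .x) .x) .x) .h))),
  ((.ofNat 1), (.l (.m (.m .x .x) .x) (.l (.m (.m .x .x) (.m .x .x)) .h))),
  ((.ofNat 1), (.l (.m .x (.m .x .x)) (.l (.m (.m (.m .x .x) .x) .x) .h))),
  ((.negSucc 0), (.l (.m .x (.m .x .x)) (.l (.m (.m .x .x) (.m .x .x)) .h)))]

/-- `[c, f] y` -/
def Lu : HL := [((.ofNat 1), (.l (.m (.m (.m .x .x) .x) (.m (.m (.m .x .x) .x) .x)) .h)),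
  ((.negSucc 0), (.l (.m (.m (.m .x .x) .x) (.m (.m .x .x) (.m .x .x))) .h)),
  ((.negSucc 0), (.l (.m (.m .x (.m .x .x)) (.m (.m (.m .x .x) .x) .x)) .h)),
  ((.ofNat 1), (.l (.m (.m .x (.m .x .x)) (.m (.m .x .x) (.m .x .x))) .h)),
  ((.negSucc 0), (.l (.m (.m (.m (.m .x .x) .x) .x) (.m (.m .x .x) .x)) .h)),
  ((.ofNat 1), (.l (.m (.m (.m (.m .x .x) .x) .x) (.m .x (.m .x .x))) .h)),
  ((.ofNat 1), (.l (.m (.m (.m .x .x) (.m .x .x)) (.m (.m .x .x) .x)) .h)),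
  ((.negSucc 0), (.l (.m (.m (.m .x .x) (.m .x .x)) (.m .x (.m .x .x))) .h))]

/-- the argument of `M5` -/
def Lm : HL := [((.ofNat 2), (.r .h (.m .x .x))),
  ((.negSucc 0), (.r (.r .h .x) .x)),
  ((.negSucc 0), (.l .x (.l .x .h)))]

/-- first companion -/
def LP1 : HL := [((.negSucc 23), (.l .x (.l .x (.l .x (.l .x (.r .h (.m .x .x))))))),
  ((.negSucc 503), (.l .x (.l .x (.r .h (.m (.m .x (.m .x .x)) .x))))),
  ((.ofNat 336), (.l .x (.l .x (.r (.l .x (.r .h (.m .x .x))) .x)))),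
  ((.ofNat 24), (.r .h (.m (.m .x (.m .x (.m (.m .x .x) .x))) .x))),
  ((.negSucc 23), (.r (.r .h (.m .x (.m .x (.m (.m .x .x) .x)))) .x)),
  ((.negSucc 647), (.l .x (.l .x (.l .x (.r (.r .h (.m .x .x)) .x))))),
  ((.negSucc 23), (.r (.r .h (.m (.m .x (.m .x (.m .x .x))) .x)) .x)),
  ((.negSucc 119), (.r .h (.m (.m .x (.m .x (.m .x (.m .x .x)))) .x))),
  ((.negSucc 23), (.l .x (.r (.r .h (.m .x (.m .x (.m .x .x)))) .x))),
  ((.ofNat 264), (.l .x (.l .x (.r (.r .h (.m .x (.m .x .x))) .x)))),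
  ((.ofNat 48), (.r .h (.m .x (.m (.m .x (.m .x (.m .x .x))) .x)))),
  ((.ofNat 24), (.l .x (.r .h (.m (.m .x (.m .x (.m .x .x))) .x)))),
  ((.ofNat 240), (.l .x (.l .x (.r .h (.m .x (.m (.m .x .x) .x)))))),
  ((.ofNat 48), (.l .x (.l .x (.r (.r .h (.m (.m .x .x) .x)) .x)))),
  ((.ofNat 72), (.r (.r .h (.m .x (.m .x (.m .x (.m .x .x))))) .x)),
  ((.ofNat 312), (.l .x (.l .x (.l .x (.r .h (.m (.m .x .x) .x))))))]

/-- second companion -/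
def LP2 : HL := [((.negSucc 47), (.l .x (.r (.l .x (.r .h (.m .x .x))) .x))),
  ((.ofNat 48), (.l .x (.r .h (.m .x (.m (.m .x .x) .x))))),
  ((.negSucc 275), (.r .h (.m .x (.m .x (.m (.m .x .x) .x))))),
  ((.ofNat 480), (.r .h (.m (.m .x (.m .x (.m .x .x))) .x))),
  ((.negSucc 47), (.r (.l .x (.r .h (.m .x (.m .x .x)))) .x)),
  ((.ofNat 276), (.r .h (.m .x (.m .x (.m .x (.m .x .x)))))),
  ((.ofNat 24), (.l .x (.l .x (.r .h (.m .x (.m .x .x)))))),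
  ((.negSucc 23), (.l .x (.l .x (.l .x (.l .x (.r .h .x)))))),
  ((.ofNat 24), (.l .x (.l .x (.l .x (.l .x (.l .x .h)))))),
  ((.ofNat 48), (.l .x (.r (.r .h (.m (.m .x .x) .x)) .x))),
  ((.ofNat 252), (.r (.r .h (.m (.m .x (.m .x .x)) .x)) .x)),
  ((.negSucc 95), (.l .x (.r .h (.m .x (.m .x (.m .x .x)))))),
  ((.negSucc 131), (.r (.r .h (.m .x (.m .x (.m .x .x)))) .x)),
  ((.negSucc 23), (.l .x (.l .x (.r (.l .x (.r .h .x)) .x)))),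
  ((.ofNat 48), (.l .x (.l .x (.l .x (.r (.r .h .x) .x))))),
  ((.negSucc 251), (.r .h (.m .x (.m (.m .x (.m .x .x)) .x)))),
  ((.negSucc 299), (.r (.r .h (.m .x (.m (.m .x .x) .x))) .x))]

end Pool.Agent.Helper928.Sep
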