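import Pool.Agent.Helper928.Sep.Wit
set_option autoImplicit false
open scoped TensorProduct

/-! The witness for `[c, f]`. -/

namespace Pool.Agent.Helper928.Sep.Wit
open Pool.Agent.Helper928.Sep Pool.Agent.Helper928.Sep.SuperZ Pool.Agent.Helper928.Sep.Chk
  Pool.Agent.Helper928.Nuc.Ext Pool.Agent.Helper928.Nuc.Tens Pool.Agent.Helper928.Sep.Env
  Pool.Agent.Helper928.Sep.Eval Pool.Agent.Helper928.Sep.Tab56 Pool.Agent.Helper928.Sep.TabChk56

/-- the generic sparse vector -/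
def L0 : List (ℕ × ℤ) := [(0, 1), (1, 1)]

/-- the value of `[c, f]` -/
noncomputable def uL : List (ℕ × ℤ) :=
  brL D (asL D L0 L0 L0) (asL D (mulL D L0 L0) L0 L0)

lemma ok_L0 : OkL D L0 := by
  intro p hp
  have h1 : p = (0, 1) ∨ p = (1, 1) := by simpa [L0] using hp
  rcases h1 with h | h <;> rw [h]
  · show 0 < 56; norm_num
  · show 1 < 56; norm_num

lemma uL_val : ksum 55 uL = Int.negSucc 1119743 := by decide +kernel

section
variable {S' : Type} [Ring S'] {a b : S'}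

lemma V_uu (hab : Commute a b) : uu (V D a b L0) = V D a b uL := by
  unfold uu cc ff uL
  rw [V_as ok hab ok_L0 ok_L0 ok_L0, V_mul ok hab ok_L0 ok_L0, V_as ok hab (ok_mulL ok ok_L0 ok_L0) ok_L0 ok_L0,
    V_br ok hab (ok_asL ok ok_L0 ok_L0 ok_L0) (ok_asL ok (ok_mulL ok ok_L0 ok_L0) ok_L0 ok_L0)]

end

section
variable (K : Type) [CommRing K]

/-- the basic vectors -/
def bv (i : Fin 7) : List (ℕ × ℤ) := if i.val < 4 then [(1, 1)] else [(0, 1)]

/-- the generic vectors in the envelope -/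
noncomputable def vv (i : Fin 7) : RM D.D0 (Lam K 7) := fun k => cf k (bv i) • E K 7 [i]

lemma par01 : D.D0.par 0 = 1 ∧ D.D0.par 1 = 1 := by decide +kernel

lemma vv_mem (i : Fin 7) : vv K i ∈ BS K 7 ok.good := by
  intro k
  unfold vv
  show cf k (bv i) • E K 7 [i] ∈ part K 7 (D.D0.par k)
  by_cases h0 : (k : ℕ) = 0 ∨ (k : ℕ) = 1
  · have : D.D0.par k = 1 := by
      rcases h0 with h | h
      · rw [h]; exact par01.1
      · rw [h]; exact par01.2
    rw [this]
    exact zsmul_mem (E_mem (K := K) [i]) _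
  · have h1 : cf k (bv i) = 0 := by
      apply cf_eq_zero_of_notMem
      intro p hp hk
      apply h0
      unfold bv at hp
      split_ifs at hp
      · have : p = (1, 1) := by simpa using hp
        right; rw [← hk, this]
      · have : p = (0, 1) := by simpa using hp
        left; rw [← hk, this]
    rw [h1, zero_smul]
    exact Submodule.zero_mem _

variable {K}

lemma w01 : D.wa 0 = 0 ∧ D.wb 0 = 1 ∧ D.wa 1 = 1 ∧ D.wb 1 = 0 := by decide +kernel
lemma w55 : D.wa 55 = 4 ∧ D.wb 55 = 3 := by decide +kernel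

variable {A : Type} [NonUnitalNonAssocRing A]

lemma hh_X (g : A →ₙ+* RM D.D0 (Lam K 7)) (x : Fin 7 → A) (hx : ∀ i, g (x i) = vv K i) :
    hh g (∑ i : Fin 7, te (x i) [i]) = V D (ta (K := K)) tb L0 := by
  rw [map_sum]
  simp only [hh_te, hx]
  funext k
  have h1 : (∑ i : Fin 7, (fun k => (vv K i : Fin D.D0.N → Lam K 7) k ⊗ₜ[ℤ] E ℤ 7 [i] : Fin D.D0.N → S K)) k =
      ∑ i : Fin 7, cf k (bv i) • tt (K := K) i := by
    rw [Finset.sum_apply]
    refine Finset.sum_congr rfl fun i _ => ?_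
    exact (TensorProduct.smul_tmul' (cf k (bv i)) (E K 7 [i]) (E ℤ 7 [i])).symm
  refine h1.trans ?_
  show _ = cf k L0 • (ta ^ D.wa k * tb ^ D.wb k)
  by_cases hk0 : (k : ℕ) = 0
  · rw [hk0, w01.1, w01.2.1, Fin.sum_univ_seven]
    have e0 : cf 0 [(0, 1)] = 1 := rfl
    have e1 : cf 0 [(1, 1)] = 0 := rfl
    have e2 : cf 0 L0 = 1 := rfl
    simp only [bv, e2]
    norm_num [e0, e1]
    rfl
  · by_cases hk1 : (k : ℕ) = 1
    · rw [hk1, w01.2.2.1, w01.2.2.2, Fin.sum_univ_seven]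
      have e0 : cf 1 [(0, 1)] = 0 := rfl
      have e1 : cf 1 [(1, 1)] = 1 := rfl
      have e2 : cf 1 L0 = 1 := rfl
      simp only [bv, e2]
      norm_num [e0, e1]
      rfl
    · have e0 : cf k [(0, 1)] = 0 := cf_eq_zero_of_notMem _ _ (by
        intro p hp h; have : p = (0, 1) := by simpa using hp
        rw [this] at h; exact hk0 h.symm)
      have e1 : cf k [(1, 1)] = 0 := cf_eq_zero_of_notMem _ _ (by
        intro p hp h; have : p = (1, 1) := by simpa using hp
        rw [this] at h; exact hk1 h.symm)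
      have e2 : cf k L0 = 0 := by
        have : cf k L0 = cf k ([(0, 1)] ++ [(1, 1)]) := rfl
        rw [this, cf_append, e0, e1]; rfl
      rw [e2, zero_smul]
      refine Finset.sum_eq_zero fun i _ => ?_
      unfold bv
      split_ifs
      · rw [e1, zero_smul]
      · rw [e0, zero_smul]

/-- coefficient of a generic sparse vector -/
lemma V_apply (L : List (ℕ × ℤ)) (k : Fin D.D0.N) :
    (V D (ta (K := K)) tb L : Fin D.D0.N → S K) k = cf k L • (ta ^ D.wa k * tb ^ D.wb k) := rfl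

lemma theta_val : theta (ta (K := K) ^ 4 * tb ^ 3) = 144 := by
  rw [tab_pow, map_nsmul, theta_top, nsmul_eq_mul, mul_one]
  norm_num

lemma uL_cf : cf 55 uL = -1119744 := by
  rw [← ksum_eq, uL_val]; rfl

lemma hh_uu (g : A →ₙ+* RM D.D0 (Lam K 7)) (x : Fin 7 → A) (hx : ∀ i, g (x i) = vv K i) (k : ℤ) :
    hh g (k • uu (∑ i : Fin 7, te (x i) [i])) = k • V D (ta (K := K)) tb uL := by
  rw [map_zsmul, map_uu, hh_X g x hx, V_uu tab_comm]

lemma V_ne {L : List (ℕ × ℤ)} {n : ℕ} (hn : n < D.D0.N) {k c : ℤ} (hc : cf n L = c) (ha : D.wa n = 4) (hb : D.wb n = 3)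
    (h : k • V D (ta (K := K)) tb L = 0) : ((k * c * 144 : ℤ) : K) = 0 := by
  have h2 : k • (cf n L • (ta (K := K) ^ D.wa n * tb ^ D.wb n)) = 0 :=
    congrFun h (⟨n, hn⟩ : Fin D.D0.N)
  rw [hc, ha, hb] at h2
  have h4 := congrArg (theta (K := K)) h2
  rw [map_zsmul, map_zsmul, theta_val, map_zero, smul_smul, zsmul_eq_mul] at h4
  push_cast at h4 ⊢
  exact h4

/-- the value of `[c, f]` is not killed by `k` -/
theorem uu_ne (g : A →ₙ+* RM D.D0 (Lam K 7)) (x : Fin 7 → A) (hx : ∀ i, g (x i) = vv K i) (k : ℤ)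
    (hk : ((k * (-1119744) * 144 : ℤ) : K) ≠ 0) : k • uu (∑ i : Fin 7, te (x i) [i]) ≠ 0 := by
  intro h0
  have h1 := congrArg (hh g) h0
  rw [hh_uu g x hx, map_zero] at h1
  exact hk (V_ne (show 55 < 56 by norm_num) uL_cf w55.1 w55.2 h1)

end

end Pool.Agent.Helper928.Sep.Wit
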