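import Pool.Agent.Helper928.Sep.Fin7
import Pool.Agent.Helper928.Sep.Wit2
set_option autoImplicit false

/-! `U ∩ D ≠ 0` in free alternative algebras over rings in which `6` is not nilpotent. -/

namespace Pool.Agent.Helper928.Sep.Main
open Pool.Agent.Helper928.Sep Pool.Agent.Helper928.Nuc.Ext Pool.Agent.Helper928.Nuc.Tens Pool.Agent.Helper928.Nuc.NFun
  Pool.Agent.Helper928.Sep.DFun Pool.Agent.Helper928.NucCert Pool.Agent.Helper928.Nuc.Alt
  Pool.Agent.Helper928.Sep.Red Pool.Agent.Helper928.Sep.Fin7 Pool.Agent.Helper928.Nuc.Free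
  Pool.Agent.Helper928.Sep.Wit Pool.Agent.Helper928.Sep.Env Pool.Agent.Helper928.Sep.TabChk56
  Pool.Agent.Helper928.Sep.Tab56

section
variable {Φ : Type} [CommRing Φ] {A : Type} [NonUnitalNonAssocRing A] [Module Φ A] [IsScalarTower Φ A A]
    [SMulCommClass Φ A A]

lemma ideal_idealGen (S : Set A) : IsIdeal Φ A (idealGen Φ A S) := by
  intro a x hx
  unfold idealGen at *
  simp only [Submodule.mem_sInf] at *
  exact ⟨fun I hI => (hI.1 a x (hx I hI)).1, fun I hI => (hI.1 a x (hx I hI)).2⟩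

lemma subset_idealGen (S : Set A) {s : A} (hs : s ∈ S) : s ∈ idealGen Φ A S := by
  unfold idealGen
  simp only [Submodule.mem_sInf]
  exact fun I hI => hI.2 hs

lemma as_mem_D (a b c : A) : as a b c ∈ Dideal Φ A := subset_idealGen _ ⟨a, b, c, rfl⟩

lemma D_br (a b c t : A) : br (as a b c) t ∈ Dideal Φ A := by
  have h := ideal_idealGen (Φ := Φ) {z : A | ∃ a b c : A, z = (a * b) * c - a * (b * c)} t _ (as_mem_D (Φ := Φ) a b c)
  exact Submodule.sub_mem _ h.2 h.1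

lemma dd_mem_D (x : Fin 7 → A) : dd x ∈ Dideal Φ A := by
  unfold dd
  exact Submodule.sum_mem _ (fun σ _ => zsmul_mem (D_br _ _ _ _) _)

lemma as_smul (r : Φ) (a b c : A) : as (r • a) b c = r • as a b c := by
  unfold as; rw [smul_mul_assoc, smul_mul_assoc, smul_mul_assoc, smul_sub]

variable (Φ) in
/-- the ideal of nuclear elements annihilating all associators -/
def J (hA : IsAlt A) : Submodule Φ A where
  carrier := {m | IsNuc m ∧ ∀ y r s, m * as y r s = 0}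
  add_mem' := by
    rintro a b ⟨ha, ha'⟩ ⟨hb, hb'⟩
    exact ⟨fun r s => by rw [as_add1, ha, hb, add_zero], fun y r s => by rw [add_mul, ha', hb', add_zero]⟩
  zero_mem' := ⟨fun r s => as_z1 _ _, fun y r s => zero_mul _⟩
  smul_mem' := by
    rintro c a ⟨ha, ha'⟩
    exact ⟨fun r s => by rw [as_smul, ha, smul_zero], fun y r s => by rw [smul_mul_assoc, ha', smul_zero]⟩

lemma J_ideal (hA : IsAlt A) : IsIdeal Φ A (J Φ hA) := by
  rintro a m ⟨hm, hm'⟩
  have h2 : IsNuc (m * a) := fun b c => by rw [hm.mul_left hA, hm']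
  refine ⟨⟨fun b c => by rw [hm.mul_right hA, hm'], fun y r s => ?_⟩, ⟨h2, fun y r s => ?_⟩⟩
  · have h := hm.two hA a (as y r s)
    unfold as at h
    rw [sub_eq_zero] at h
    have h3 := hm' y r s
    unfold as at h3 ⊢
    rw [h, h3, mul_zero]
  · have h := hm a y
    unfold as at h
    rw [sub_eq_zero] at h
    rw [← h2.mul_left hA, h, hm.mul_left hA, hm']

lemma J_le (hA : IsAlt A) : J Φ hA ≤ Uideal Φ A :=
  le_sSup ⟨J_ideal hA, fun _ hm => (mem_nucleus hA).mpr hm.1⟩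

/-- the multiple of `[c, f]` lies in `U` -/
theorem dd_mem_U (hA : IsAlt A) (x : Fin 7 → A) : (107495424 : ℤ) • dd x ∈ Uideal Φ A := by
  apply J_le hA
  have h1 : IsNuc ((107495424 : ℤ) • dd x) := by
    intro r s
    have h := nucN hA x r s
    have e : (107495424 : ℤ) • dd x = (12 : ℤ) • (8957952 : ℤ) • dd x := by rw [smul_smul]; norm_num
    rw [e]
    unfold as at h ⊢
    simp only [smul_mul_assoc, ← smul_sub]
    rw [smul_comm, h, smul_zero]
  refine ⟨h1, fun y r s => ?_⟩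
  rw [← h1.mul_left hA, smul_mul_assoc]
  have h := nucI hA x y r s
  unfold as at h ⊢
  simp only [smul_mul_assoc, ← smul_sub]
  exact h

end

/-- the multiple of `[c, f]` is nonzero in the free alternative algebra -/
theorem dd_ne (Φ : Type) [CommRing Φ] (k : ℤ) (hk : ((k * (-1119744) * 144 : ℤ) : Φ) ≠ 0) (X : Type) (ι : Fin 7 ↪ X) :
    k • dd (fun i => (FreeAlt.gen (ι i) : FreeAlt Φ X)) ≠ 0 := by
  classical
  intro h0
  have hB := BS_alt Φ 7 ok.good
  let v : Fin 7 → BS Φ 7 ok.good := fun i => ⟨vv Φ i, vv_mem Φ i⟩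
  let f : X → BS Φ 7 ok.good := fun x => if h : ∃ i, ι i = x then v h.choose else 0
  have hf : ∀ i, f (ι i) = v i := by
    intro i
    have h : ∃ j, ι j = ι i := ⟨i, rfl⟩
    show (if h : ∃ j, ι j = ι i then v h.choose else 0) = v i
    rw [dif_pos h]
    exact congrArg v (ι.injective h.choose_spec)
  let g : FreeAlt Φ X →ₙₐ[Φ] BS Φ 7 ok.good := FreeAlt.lift (fun a b => ⟨hB.left a b, hB.right a b⟩) f
  let g' : FreeAlt Φ X →ₙ+* BS Φ 7 ok.good :=
    { toFun := g, map_mul' := map_mul g, map_zero' := map_zero g, map_add' := map_add g }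
  have hg : ∀ i, g' (FreeAlt.gen (ι i)) = v i := fun i =>
    (FreeAlt.lift_gen (fun a b => ⟨hB.left a b, hB.right a b⟩) f (ι i)).trans (hf i)
  let g'' : FreeAlt Φ X →ₙ+* RM D.D0 (Lam Φ 7) := (BS.incl Φ 7 ok.good).comp g'
  have hg'' : ∀ i, g'' (FreeAlt.gen (ι i)) = vv Φ i := by
    intro i
    show (BS.incl Φ 7 ok.good) (g' (FreeAlt.gen (ι i))) = vv Φ i
    rw [hg]; rfl
  have h1 := uu_ne g'' (fun i => (FreeAlt.gen (ι i) : FreeAlt Φ X)) hg'' k hk
  apply h1
  have h2 : (∑ i : Fin 7, te (FreeAlt.gen (ι i) : FreeAlt Φ X) [i]) = XI (fun i : Fin 7 => i) (fun i => (FreeAlt.gen (ι i) : FreeAlt Φ X)) := rfl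
  rw [h2, uu_XI, ← te_zsmul, h0]
  exact tm_zero _

/-- `U ∩ D ≠ 0` when `6` is not nilpotent -/
theorem main (Φ : Type) [CommRing Φ] (h6 : ¬ IsNilpotent (6 : Φ)) (X : Type) (ι : Fin 7 ↪ X) :
    ∃ z : FreeAlt Φ X, z ≠ 0 ∧ z ∈ Dideal Φ (FreeAlt Φ X) ∧ z ∈ Uideal Φ (FreeAlt Φ X) := by
  have hA : IsAlt (FreeAlt Φ X) := freeAlt_isAlt
  refine ⟨(107495424 : ℤ) • dd (fun i => (FreeAlt.gen (ι i) : FreeAlt Φ X)), dd_ne Φ _ ?_ X ι,
    zsmul_mem (dd_mem_D _) _, dd_mem_U hA _⟩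
  intro h
  apply h6
  refine ⟨27, ?_⟩
  have e : (6 : ℤ) ^ 27 = (-59049) * (107495424 * (-1119744) * 144) := by norm_num
  have e2 := congrArg (fun m : ℤ => (m : Φ)) e
  simp only [Int.cast_pow, Int.cast_ofNat] at e2
  rw [e2, Int.cast_mul, h, mul_zero]

end Pool.Agent.Helper928.Sep.Main
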