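import Pool.Agent.Helper928.Sep.DFun
import Pool.Agent.Helper928.NucCert.Super
import Pool.Agent.Helper928.Nuc.Alt
import Pool.Agent.Helper928.Nuc.Reduce
set_option autoImplicit false

/-! From the super identities to the multilinear identities for `[c, f]`. -/

namespace Pool.Agent.Helper928.Sep.Red
open Pool.Agent.Helper928.Sep Pool.Agent.Helper928.Nuc.Ext Pool.Agent.Helper928.Nuc.Tens Pool.Agent.Helper928.Nuc.NFun
  Pool.Agent.Helper928.Sep.DFun Pool.Agent.Helper928.NucCert Pool.Agent.Helper928.Nuc.Alt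

/-! ### super versions of the elementary identities -/

section
variable {R : Type} [NonUnitalNonAssocRing R] {P : ℕ → AddSubgroup R} (hP : SuperAlt R P)
include hP

lemma s12 {i j k : ℕ} {a b c : R} (h : Even (i * j)) (ha : a ∈ P (i % 2)) (hb : b ∈ P (j % 2)) (hc : c ∈ P (k % 2)) :
    as a b c = - as b a c := by
  rw [left' hP ha hb hc, h.neg_one_pow, one_smul]

lemma s23 {i j k : ℕ} {a b c : R} (h : Even (j * k)) (ha : a ∈ P (i % 2)) (hb : b ∈ P (j % 2)) (hc : c ∈ P (k % 2)) :
    as a b c = - as a c b := by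
  rw [right' hP ha hb hc, h.neg_one_pow, one_smul]

lemma sc1 {i j k : ℕ} {a b c : R} (h1 : Even (i * j)) (h2 : Even (i * k)) (ha : a ∈ P (i % 2)) (hb : b ∈ P (j % 2))
    (hc : c ∈ P (k % 2)) : as a b c = as b c a := by
  rw [s12 hP h1 ha hb hc, s23 hP h2 hb ha hc, neg_neg]

lemma sc2 {i j k : ℕ} {a b c : R} (h1 : Even (j * k)) (h2 : Even (i * k)) (ha : a ∈ P (i % 2)) (hb : b ∈ P (j % 2))
    (hc : c ∈ P (k % 2)) : as a b c = as c a b := by
  rw [s23 hP h1 ha hb hc, s12 hP h2 ha hc hb, neg_neg]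

/-- `([c, x], r, s)` in terms of `(c, x, ·)` when at most one of `c, x` is odd and `r, s` are even -/
theorem comm_id {i j : ℕ} {c x r s : R} (hij : Even (i * j)) (hc : c ∈ P (i % 2)) (hx : x ∈ P (j % 2))
    (hr : r ∈ P (0 % 2)) (hs : s ∈ P (0 % 2)) :
    as (br c x) r s = as c x (s * r) - s * as c x r - as c x s * r := by
  have hji : Even (j * i) := by rwa [mul_comm]
  have z0 : ∀ m : ℕ, Even (0 * m) := fun m => by simp
  have z1 : ∀ m : ℕ, Even (m * 0) := fun m => by simp
  have hcx : c * x ∈ P ((i + j) % 2) := mul_mem' hP hc hx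
  have hxr : x * r ∈ P (j % 2) := mul_mem' hP hx hr
  have hxs : x * s ∈ P (j % 2) := mul_mem' hP hx hs
  have hcr : c * r ∈ P (i % 2) := mul_mem' hP hc hr
  have hsc : s * c ∈ P (i % 2) := by have := mul_mem' hP hs hc; rwa [zero_add] at this
  have hrs : r * s ∈ P (0 % 2) := mul_mem' hP hr hs
  have hsr : s * r ∈ P (0 % 2) := mul_mem' hP hs hr
  have h0 : as (br c x) r s = as (c * x) r s - as (x * c) r s := as_sub1 _ _ _ _
  have k0 : as (c * x) r s = as r s (c * x) := sc1 hP (z1 _) (z1 _) hcx hr hs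
  have k2 : as c (x * r) s = -(as c s (x * r)) := s23 hP (z1 _) hc hxr hs
  have k3 : c * as x s r = -(c * as x r s) := by rw [s23 hP (z1 _) hx hs hr, mul_neg]
  have k4 : as (c * x) s r = -(as r s (c * x)) := by
    rw [s23 hP (z1 _) hcx hs hr, k0]
  have k5 : as c (x * s) r = -(as c r (x * s)) := s23 hP (z1 _) hc hxs hr
  have k6 : as x (c * r) s = -(as x s (c * r)) := s23 hP (z1 _) hx hcr hs
  have k7 : as x c (r * s) = -(as c x (r * s)) := s12 hP hji hx hc hrs
  have k8 : as x c r * s = -(as c x r * s) := by rw [s12 hP hji hx hc hr, neg_mul]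
  have k9 : x * as s c r = x * as c r s := by rw [sc1 hP (z0 _) (z0 _) hs hc hr]
  have k10 : as (x * s) c r = as c r (x * s) := sc1 hP hji (z1 _) hxs hc hr
  have k11 : as x (s * c) r = -(as x r (s * c)) := s23 hP (z1 _) hx hsc hr
  have k12 : as x s c * r = as c x s * r := by rw [sc2 hP (z0 _) hji hx hs hc]
  have k13 : as (s * c) x r = as x r (s * c) := sc1 hP hij (z1 _) hsc hx hr
  have k14 : as s (c * x) r = as r s (c * x) := sc2 hP (z1 _) (z0 _) hs hcx hr
  have k15 : as s c (x * r) = -(as c s (x * r)) := s12 hP (z0 _) hs hc hxr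
  have k17 : as (s * r) c x = as c x (s * r) := sc1 hP (z0 _) (z0 _) hsr hc hx
  have k18 : s * as r c x = s * as c x r := by rw [sc1 hP (z0 _) (z0 _) hr hc hx]
  have k19 : as s c x * r = as c x s * r := by rw [sc1 hP (z0 _) (z0 _) hs hc hx]
  rw [h0]
  linear_combination (norm := abel) cocycle c x r s + cocycle c x s r + cocycle x c r s - cocycle x s c r +
    cocycle s c x r + (2:ℤ) • k0 - k2 - k3 + k4 - k5 - k6 + k7 - k8 + k9 - k10 + k11 + k12 + k13 - k14 + k15 - k19

end

/-! ### right multiplication by an exterior generator -/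

section
variable {A : Type} [NonUnitalNonAssocRing A] {n : ℕ}

lemma TS_ind {p : TS A n → Prop} (h0 : p 0)
    (ha : ∀ x y, p x → p y → p (x + y)) (ht : ∀ a u, p (tm a u)) (x : TS A n) : p x :=
  TensorProduct.induction_on (motive := fun z : TensorProduct ℤ A (ExteriorAlgebra ℤ (Fin n → ℤ)) => p z) x h0
    (fun a u => ht a u) (fun x y hx hy => ha x y hx hy)

/-- right multiplication by an exterior generator -/
noncomputable def rho (j : Fin n) : TS A n →+ TS A n :=
  (TensorProduct.map (LinearMap.id : A →ₗ[ℤ] A)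
    (LinearMap.mulRight ℤ (E ℤ n [j]))).toAddMonoidHom

lemma rho_tm (j : Fin n) (a : A) (u : ExteriorAlgebra ℤ (Fin n → ℤ)) : rho j (tm a u) = tm a (u * E ℤ n [j]) := rfl

lemma rho_te (j : Fin n) (a : A) (l : List (Fin n)) : rho j (te a l) = te a (l ++ [j]) := by
  unfold te
  rw [rho_tm, E_append]

lemma mul_rho (j : Fin n) (x y : TS A n) : x * rho j y = rho j (x * y) := by
  induction x using TS_ind with
  | h0 => rw [zero_mul, zero_mul, map_zero]
  | ha x x' hx hx' => rw [add_mul, add_mul, map_add, hx, hx']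
  | ht a u =>
    induction y using TS_ind with
    | h0 => rw [mul_zero, map_zero, mul_zero]
    | ha y y' hy hy' => rw [mul_add, map_add, map_add, mul_add, hy, hy']
    | ht b v => rw [rho_tm, tm_mul, tm_mul, rho_tm, mul_assoc]

lemma rho_mul (j : Fin n) (x : TS A n) {y : TS A n} (hy : y ∈ PP (A := A) (n := n) 0) : rho j x * y = rho j (x * y) := by
  induction hy using AddSubgroup.closure_induction with
  | mem y hy =>
    obtain ⟨b, l', hl', rfl⟩ := hy
    induction x using TS_ind with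
    | h0 => rw [map_zero, zero_mul, map_zero]
    | ha x x' hx hx' => rw [map_add, add_mul, add_mul, map_add, hx, hx']
    | ht a u =>
      unfold te
      have hev : Even (([j] : List (Fin n)).length * l'.length) := by
        show Even (1 * l'.length)
        rw [one_mul]; exact Nat.even_iff.mpr hl'
      rw [rho_tm, tm_mul, tm_mul, rho_tm, mul_assoc, mul_assoc, E_swap ℤ n [j] l', hev.neg_one_pow, one_mul]
  | zero => rw [mul_zero, mul_zero, map_zero]
  | add y y' _ _ hy hy' => rw [mul_add, mul_add, map_add, hy, hy']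
  | neg y _ hy => rw [mul_neg, mul_neg, map_neg, hy]

lemma rho_mem (j : Fin n) {i : ℕ} {x : TS A n} (hx : x ∈ PP (A := A) (n := n) i) : rho j x ∈ PP (A := A) (n := n) ((i + 1) % 2) := by
  induction hx using AddSubgroup.closure_induction with
  | mem x hx =>
    obtain ⟨a, l, hl, rfl⟩ := hx
    rw [rho_te]
    have h := te_mem a (l ++ [j])
    have h2 : (l ++ [j]).length % 2 = (i + 1) % 2 := by rw [List.length_append, List.length_singleton]; omega
    rwa [h2] at h
  | zero => rw [map_zero]; exact AddSubgroup.zero_mem _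
  | add x y _ _ hx hy => rw [map_add]; exact AddSubgroup.add_mem _ hx hy
  | neg x _ hx => rw [map_neg]; exact AddSubgroup.neg_mem _ hx

lemma rho_mem0 (j : Fin n) {x : TS A n} (hx : x ∈ PP (A := A) (n := n) 0) : rho j x ∈ PP (A := A) (n := n) 1 := by
  have h := rho_mem j hx
  have e : (0 + 1) % 2 = 1 := rfl
  rwa [e] at h

lemma rho_sq (j : Fin n) (x : TS A n) : rho j (rho j x) = 0 := by
  induction x using TS_ind with
  | h0 => rw [map_zero, map_zero]
  | ha x x' hx hx' => rw [map_add, map_add, hx, hx', add_zero]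
  | ht a u =>
    rw [rho_tm, rho_tm, mul_assoc]
    have : E ℤ n [j] * E ℤ n [j] = 0 := by
      unfold E gen
      simp
    rw [this, mul_zero, tm_zeror]

lemma rho_comm (i j : Fin n) (x : TS A n) : rho i (rho j x) = - rho j (rho i x) := by
  induction x using TS_ind with
  | h0 => simp only [map_zero, neg_zero]
  | ha x x' hx hx' => simp only [map_add, hx, hx', neg_add]
  | ht a u =>
    rw [rho_tm, rho_tm, rho_tm, rho_tm, mul_assoc, mul_assoc, E_swap ℤ n [j] [i]]
    have : ((-1 : ExteriorAlgebra ℤ (Fin n → ℤ)) ^ (([j] : List (Fin n)).length * ([i] : List (Fin n)).length)) = -1 := by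
      simp
    rw [this, neg_one_mul, mul_neg, tm_negr]

lemma as_rho3 (j : Fin n) (x y z : TS A n) : as x y (rho j z) = rho j (as x y z) := by
  unfold as
  rw [mul_rho, mul_rho, mul_rho, map_sub]

lemma as_rho2 (j : Fin n) (x y : TS A n) {z : TS A n} (hz : z ∈ PP (A := A) (n := n) 0) :
    as x (rho j y) z = rho j (as x y z) := by
  unfold as
  rw [mul_rho, rho_mul j _ hz, rho_mul j _ hz, mul_rho, map_sub]

variable (hA : IsAlt A)
include hA

/-- memberships of the companions -/
lemma hval_mem {X Y : TS A n} (hX : X ∈ PP (A := A) (n := n) 1) (hY : Y ∈ PP (A := A) (n := n) 0) {l : HL} {d : ℕ}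
    (hd : homog d l) : hval X X Y l ∈ PP (A := A) (n := n) (d % 2) := by
  obtain ⟨g, hg, hv⟩ := hpoly_sound (superAlt hA) hX hX l d hd
  have := hg.mem 0 Y hY
  rwa [zero_add, hv] at this

/-- the part of the identity coming from `F3` -/
lemma part3 (j : Fin n) {X Y Z : TS A n} (hX : X ∈ PP (A := A) (n := n) 1) (hY : Y ∈ PP (A := A) (n := n) 0)
    (hZ : Z ∈ PP (A := A) (n := n) 0) :
    (486 : ℤ) • rho j (as (K1 X Y) X Z + as (K2 X Y) (X * X) Z) = 0 := by
  have h := F3 (superAlt hA) hX (rho_mem0 j hZ) hY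
  rw [as_rho3, as_rho3, ← map_add] at h
  exact h

lemma part12 (j : Fin n) {X Y R' S' : TS A n} (hX : X ∈ PP (A := A) (n := n) 1) (hY : Y ∈ PP (A := A) (n := n) 0)
    (hR : R' ∈ PP (A := A) (n := n) 0) (hS : S' ∈ PP (A := A) (n := n) 0) :
    (486 : ℤ) • rho j (as (br (K1 X Y) X) R' S' + as (br (K2 X Y) (X * X)) R' S') = 0 := by
  have hP := superAlt (n := n) hA
  have hK1 : K1 X Y ∈ PP (A := A) (n := n) (6 % 2) := hval_mem hA hX hY homLP1
  have hK2 : K2 X Y ∈ PP (A := A) (n := n) (5 % 2) := hval_mem hA hX hY homLP2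
  have hX2 : X * X ∈ PP (A := A) (n := n) (2 % 2) := mul_mem' hP (i := 1) (j := 1) hX hX
  have hSR : S' * R' ∈ PP (A := A) (n := n) 0 := mul_mem' hP (i := 0) (j := 0) hS hR
  rw [comm_id hP (i := 6) (j := 1) (by decide) hK1 hX hR hS, comm_id hP (i := 5) (j := 2) (by decide) hK2 hX2 hR hS]
  have e1 := part3 hA j hX hY hSR
  have e2 := part3 hA j hX hY hR
  have e3 := part3 hA j hX hY hS
  have e : as (K1 X Y) X (S' * R') - S' * as (K1 X Y) X R' - as (K1 X Y) X S' * R' +
      (as (K2 X Y) (X * X) (S' * R') - S' * as (K2 X Y) (X * X) R' - as (K2 X Y) (X * X) S' * R') =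
      (as (K1 X Y) X (S' * R') + as (K2 X Y) (X * X) (S' * R')) -
      S' * (as (K1 X Y) X R' + as (K2 X Y) (X * X) R') - (as (K1 X Y) X S' + as (K2 X Y) (X * X) S') * R' := by
    rw [mul_add, add_mul]; abel
  rw [e, map_sub, map_sub, ← mul_rho, ← rho_mul j _ hR, smul_sub, smul_sub, e1, ← mul_smul_comm, e2, mul_zero,
    ← smul_mul_assoc, e3, zero_mul]
  simp

lemma part4 (i j : Fin n) {X M R' S' : TS A n} (hX : X ∈ PP (A := A) (n := n) 1) (hM : M ∈ PP (A := A) (n := n) 0)
    (hR : R' ∈ PP (A := A) (n := n) 0) (hS : S' ∈ PP (A := A) (n := n) 0)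
    (hMM : M5 X X X X X M ∈ PP (A := A) (n := n) (5 % 2)) :
    (746496 : ℤ) • rho j (rho i (as (M5 X X X X X M) R' S')) = 0 := by
  have hP := superAlt (n := n) hA
  have h := nuc_super hP hX (AddSubgroup.add_mem _ (rho_mem0 i hR) (rho_mem0 j hS)) hM
  rw [as_add2, as_add3, as_add3] at h
  have e1 : as (M5 X X X X X M) (rho i R') (rho i R') = 0 := by
    rw [as_rho3, as_rho2 i _ _ hR, rho_sq]
  have e2 : as (M5 X X X X X M) (rho j S') (rho j S') = 0 := by
    rw [as_rho3, as_rho2 j _ _ hS, rho_sq]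
  have e3 : as (M5 X X X X X M) (rho i R') (rho j S') = rho j (rho i (as (M5 X X X X X M) R' S')) := by
    rw [as_rho3, as_rho2 i _ _ hS]
  have e4 : as (M5 X X X X X M) (rho j S') (rho i R') = rho j (rho i (as (M5 X X X X X M) R' S')) := by
    rw [as_rho3, as_rho2 j _ _ hR, s23 hP (i := 5) (j := 0) (k := 0) (by decide) hMM hS hR, map_neg, map_neg, rho_comm, neg_neg]
  rw [e1, e2, e3, e4, zero_add, add_zero, ← two_smul ℤ, smul_smul] at h
  exact h

end

end Pool.Agent.Helper928.Sep.Red
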