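import Mathlib
set_option autoImplicit false

/-! Finite dimensional superalgebras over `ℤ` given by sparse tables, and their Grassmann envelopes over
arbitrary commutative rings. -/

namespace Pool.Agent.Helper928.Sep.SuperZ

/-- coefficient of `k` in a sparse vector -/
def cf (k : ℕ) : List (ℕ × ℤ) → ℤ
  | [] => 0
  | p :: L => (if p.1 = k then p.2 else 0) + cf k L

lemma cf_nil (k : ℕ) : cf k [] = 0 := rfl

lemma cf_append (k : ℕ) (L L' : List (ℕ × ℤ)) : cf k (L ++ L') = cf k L + cf k L' := by
  induction L with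
  | nil => simp [cf]
  | cons p L ih => simp [cf, ih, add_assoc]

lemma cf_eq_zero_of_notMem (k : ℕ) (L : List (ℕ × ℤ)) (h : ∀ p ∈ L, p.1 ≠ k) : cf k L = 0 := by
  induction L with
  | nil => rfl
  | cons p L ih =>
    simp only [cf]
    rw [if_neg (h p (by simp)), ih (fun q hq => h q (by simp [hq]))]
    exact add_zero _

lemma cf_ne_zero {k : ℕ} {L : List (ℕ × ℤ)} (h : cf k L ≠ 0) : ∃ p ∈ L, p.1 = k := by
  by_contra hcon
  push Not at hcon
  exact h (cf_eq_zero_of_notMem k L hcon)

/-- linear combination along a sparse vector -/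
lemma sum_cf {N : ℕ} {W : Type*} [AddCommGroup W] (L : List (ℕ × ℤ)) (hL : ∀ p ∈ L, p.1 < N)
    (g : ℕ → W) :
    ∑ m : Fin N, cf m L • g m = (L.map (fun p => p.2 • g p.1)).sum := by
  induction L with
  | nil => simp [cf]
  | cons p L ih =>
    simp only [cf, add_smul, Finset.sum_add_distrib, List.map_cons, List.sum_cons]
    rw [ih (fun q hq => hL q (by simp [hq]))]
    congr 1
    have hp : p.1 < N := hL p (by simp)
    rw [Finset.sum_eq_single (⟨p.1, hp⟩ : Fin N)]
    · simp
    · intro b _ hb
      rw [if_neg, zero_smul]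
      intro h
      apply hb
      ext
      exact h.symm
    · intro h; exact absurd (Finset.mem_univ _) h

/-- a table -/
structure Data where
  /-- dimension -/
  N : ℕ
  /-- products of basis vectors -/
  T : ℕ → ℕ → List (ℕ × ℤ)
  /-- parities of basis vectors -/
  par : ℕ → ℕ

namespace Data
variable (D : Data)

/-- structure constants -/
def c (i j k : ℕ) : ℤ := cf k (D.T i j)

/-- the sign of two basis vectors -/
def sg (i j : ℕ) : ℤ := if D.par i * D.par j = 1 then -1 else 1

/-- coefficient of the associator of basis vectors -/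
def A (i j k l : ℕ) : ℤ :=
  (∑ m : Fin D.N, D.c i j m * D.c m k l) - ∑ m : Fin D.N, D.c j k m * D.c i m l

/-- the super-alternative laws on basis vectors -/
structure Good : Prop where
  par_le : ∀ i < D.N, D.par i < 2
  par_add : ∀ i < D.N, ∀ j < D.N, ∀ p ∈ D.T i j, D.par p.1 = (D.par i + D.par j) % 2
  left : ∀ i < D.N, ∀ j < D.N, ∀ k < D.N, ∀ l < D.N, D.A i j k l + D.sg i j * D.A j i k l = 0
  right : ∀ i < D.N, ∀ j < D.N, ∀ k < D.N, ∀ l < D.N, D.A i j k l + D.sg j k * D.A i k j l = 0

end Data

section Mul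
variable {Λ : Type} [Ring Λ] (D : Data)

/-- raw product -/
def rmul (v w : Fin D.N → Λ) : Fin D.N → Λ :=
  fun k => ∑ i : Fin D.N, ∑ j : Fin D.N, D.c i j k • (v i * w j)

variable {D}

lemma rmul_add (v w w' : Fin D.N → Λ) : rmul D v (w + w') = rmul D v w + rmul D v w' := by
  funext k
  simp only [rmul, Pi.add_apply, mul_add, smul_add, Finset.sum_add_distrib]

lemma add_rmul (v v' w : Fin D.N → Λ) : rmul D (v + v') w = rmul D v w + rmul D v' w := by
  funext k
  simp only [rmul, Pi.add_apply, add_mul, smul_add, Finset.sum_add_distrib]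

lemma rmul_zero (v : Fin D.N → Λ) : rmul D v 0 = 0 := by
  funext k
  simp only [rmul, Pi.zero_apply, mul_zero, smul_zero, Finset.sum_const_zero]

lemma zero_rmul (v : Fin D.N → Λ) : rmul D 0 v = 0 := by
  funext k
  simp only [rmul, Pi.zero_apply, zero_mul, smul_zero, Finset.sum_const_zero]

lemma rmul_smul {K : Type} [CommRing K] [Algebra K Λ] (r : K) (v w : Fin D.N → Λ) :
    rmul D v (r • w) = r • rmul D v w := by
  funext k
  simp only [rmul, Pi.smul_apply, Finset.smul_sum, mul_smul_comm]
  refine Finset.sum_congr rfl fun i _ => Finset.sum_congr rfl fun j _ => ?_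
  rw [smul_comm]

lemma smul_rmul {K : Type} [CommRing K] [Algebra K Λ] (r : K) (v w : Fin D.N → Λ) :
    rmul D (r • v) w = r • rmul D v w := by
  funext k
  simp only [rmul, Pi.smul_apply, Finset.smul_sum, smul_mul_assoc]
  refine Finset.sum_congr rfl fun i _ => Finset.sum_congr rfl fun j _ => ?_
  rw [smul_comm]

/-- associator in components -/
lemma rmul_assoc (v w z : Fin D.N → Λ) (l : Fin D.N) :
    rmul D (rmul D v w) z l - rmul D v (rmul D w z) l =
      ∑ i : Fin D.N, ∑ j : Fin D.N, ∑ k : Fin D.N, D.A i j k l • (v i * w j * z k) := by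
  have h1 : rmul D (rmul D v w) z l =
      ∑ i : Fin D.N, ∑ j : Fin D.N, ∑ k : Fin D.N,
        (∑ m : Fin D.N, D.c i j m * D.c m k l) • (v i * w j * z k) := by
    simp only [rmul, Finset.sum_mul, Finset.smul_sum, Finset.sum_smul]
    rw [Finset.sum_comm]
    have : ∀ k : Fin D.N, (∑ m : Fin D.N, ∑ i : Fin D.N, ∑ j : Fin D.N,
        D.c m k l • (D.c i j m • (v i * w j) * z k)) =
        ∑ i : Fin D.N, ∑ j : Fin D.N, ∑ m : Fin D.N, (D.c i j m * D.c m k l) • (v i * w j * z k) := by
      intro k
      rw [Finset.sum_comm]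
      refine Finset.sum_congr rfl fun i _ => ?_
      rw [Finset.sum_comm]
      refine Finset.sum_congr rfl fun j _ => Finset.sum_congr rfl fun m _ => ?_
      rw [smul_mul_assoc, smul_smul, mul_comm]
    simp only [this]
    rw [Finset.sum_comm]
    refine Finset.sum_congr rfl fun i _ => ?_
    rw [Finset.sum_comm]
  have h2 : rmul D v (rmul D w z) l =
      ∑ i : Fin D.N, ∑ j : Fin D.N, ∑ k : Fin D.N,
        (∑ m : Fin D.N, D.c j k m * D.c i m l) • (v i * w j * z k) := by
    simp only [rmul, Finset.mul_sum, Finset.smul_sum, Finset.sum_smul]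
    refine Finset.sum_congr rfl fun i _ => ?_
    rw [Finset.sum_comm]
    refine Finset.sum_congr rfl fun j _ => ?_
    rw [Finset.sum_comm]
    refine Finset.sum_congr rfl fun k _ => Finset.sum_congr rfl fun m _ => ?_
    rw [mul_smul_comm, smul_smul, mul_assoc, mul_comm (D.c j k m)]
  rw [h1, h2, ← Finset.sum_sub_distrib]
  refine Finset.sum_congr rfl fun i _ => ?_
  rw [← Finset.sum_sub_distrib]
  refine Finset.sum_congr rfl fun j _ => ?_
  rw [← Finset.sum_sub_distrib]
  refine Finset.sum_congr rfl fun k _ => ?_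
  rw [← sub_smul, Data.A]

end Mul

section Envelope
variable (K : Type) [CommRing K]

/-- a ring with even and odd parts that commute up to sign, odd elements having square zero -/
structure SuperRing (Λ : Type) [Ring Λ] [Algebra K Λ] where
  /-- even part and odd part -/
  part : ℕ → Submodule K Λ
  mul_mem : ∀ {a b : ℕ} {u v : Λ}, u ∈ part a → v ∈ part b → u * v ∈ part ((a + b) % 2)
  swap : ∀ {a b : ℕ} {u v : Λ}, a < 2 → b < 2 → u ∈ part a → v ∈ part b →
    u * v = (if a * b = 1 then (-1 : ℤ) else 1) • (v * u)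
  sq : ∀ {u : Λ}, u ∈ part 1 → u * u = 0

variable {K}
variable {Λ : Type} [Ring Λ] [Algebra K Λ] (G : SuperRing K Λ) (D : Data)

/-- the Grassmann envelope -/
def env : Submodule K (Fin D.N → Λ) where
  carrier := {v | ∀ i : Fin D.N, v i ∈ G.part (D.par i)}
  add_mem' := fun ha hb i => (G.part _).add_mem (ha i) (hb i)
  zero_mem' := fun i => (G.part _).zero_mem
  smul_mem' := fun r _ ha i => (G.part _).smul_mem r (ha i)

variable {D}

lemma rmul_mem (hD : D.Good) {v w : Fin D.N → Λ} (hv : v ∈ env G D) (hw : w ∈ env G D) :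
    rmul D v w ∈ env G D := by
  intro k
  apply Submodule.sum_mem
  intro i _
  apply Submodule.sum_mem
  intro j _
  by_cases h : D.c i j k = 0
  · rw [h, zero_smul]; exact Submodule.zero_mem _
  · obtain ⟨p, hp, hpk⟩ := cf_ne_zero h
    have h1 := hD.par_add i i.2 j j.2 p hp
    rw [hpk] at h1
    rw [h1]
    exact zsmul_mem (G.mul_mem (hv i) (hw j)) _

/-- an antisymmetric double sum with zero diagonal vanishes -/
lemma sum_antisymm {M : Type*} [AddCommGroup M] {n : ℕ} (f : Fin n → Fin n → M) (h : ∀ i j, f i j + f j i = 0)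
    (h0 : ∀ i, f i i = 0) : ∑ i, ∑ j, f i j = 0 := by
  rw [← Finset.sum_product']
  refine Finset.sum_involution (fun p _ => (p.2, p.1)) (fun p _ => h p.1 p.2) (fun p _ hp heq => hp ?_)
    (fun p _ => Finset.mem_product.mpr ⟨Finset.mem_univ _, Finset.mem_univ _⟩) (fun _ _ => rfl)
  have : p.2 = p.1 := congrArg Prod.fst heq
  show f p.1 p.2 = 0
  rw [this]; exact h0 _

lemma left_alt (hD : D.Good) {v z : Fin D.N → Λ} (hv : v ∈ env G D) (l : Fin D.N) :
    rmul D (rmul D v v) z l = rmul D v (rmul D v z) l := by
  rw [← sub_eq_zero, rmul_assoc]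
  apply sum_antisymm
  · intro i j
    rw [← Finset.sum_add_distrib]
    refine Finset.sum_eq_zero fun k _ => ?_
    rw [G.swap (hD.par_le j j.2) (hD.par_le i i.2) (hv j) (hv i)]
    have h := hD.left i i.2 j j.2 k k.2 l l.2
    have h' : D.A i j k l = - (D.sg i j * D.A j i k l) := by linear_combination h
    rw [h']
    unfold Data.sg
    rw [mul_comm (D.par j) (D.par i)]
    split_ifs with hh
    · simp
    · simp
  · intro i
    refine Finset.sum_eq_zero fun k _ => ?_
    have h := hD.left i i.2 i i.2 k k.2 l l.2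
    have hp := hD.par_le i i.2
    rcases (show D.par i = 0 ∨ D.par i = 1 by omega) with h0 | h1
    · have : D.A i i k l = 0 := by
        unfold Data.sg at h
        rw [h0] at h
        simp at h
        omega
      rw [this, zero_smul]
    · have hvi := hv i
      rw [h1] at hvi
      rw [G.sq hvi, zero_mul, smul_zero]

lemma right_alt (hD : D.Good) {v z : Fin D.N → Λ} (hz : z ∈ env G D) (l : Fin D.N) :
    rmul D (rmul D v z) z l = rmul D v (rmul D z z) l := by
  rw [← sub_eq_zero, rmul_assoc]
  refine Finset.sum_eq_zero fun i _ => ?_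
  apply sum_antisymm
  · intro j k
    rw [mul_assoc, mul_assoc, G.swap (hD.par_le k k.2) (hD.par_le j j.2) (hz k) (hz j)]
    have h := hD.right i i.2 j j.2 k k.2 l l.2
    have h' : D.A i j k l = - (D.sg j k * D.A i k j l) := by linear_combination h
    rw [h']
    unfold Data.sg
    rw [mul_comm (D.par k) (D.par j)]
    split_ifs with hh
    · simp
    · simp
  · intro j
    have h := hD.right i i.2 j j.2 j j.2 l l.2
    have hp := hD.par_le j j.2
    rcases (show D.par j = 0 ∨ D.par j = 1 by omega) with h0 | h1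
    · have : D.A i j j l = 0 := by
        unfold Data.sg at h
        rw [h0] at h
        simp at h
        omega
      rw [this, zero_smul]
    · have hvj := hz j
      rw [h1] at hvj
      rw [mul_assoc, G.sq hvj, mul_zero, smul_zero]

end Envelope

/-! ### sparse arithmetic -/

/-- append the multiple of a sparse vector -/
noncomputable def axpy (a : ℤ) (M tail : List (ℕ × ℤ)) : List (ℕ × ℤ) :=
  List.rec tail (fun q _ ih => (q.1, Int.mul a q.2) :: ih) M

/-- append the sum of the `f q` over a sparse vector -/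
noncomputable def bindR (a : ℤ) (f : ℕ → List (ℕ × ℤ)) (L tail : List (ℕ × ℤ)) : List (ℕ × ℤ) :=
  List.rec tail (fun q _ ih => axpy (Int.mul a q.2) (f q.1) ih) L

/-- sum of the entries with key k -/
noncomputable def ksum (k : ℕ) (L : List (ℕ × ℤ)) : ℤ :=
  List.rec (Int.ofNat 0) (fun q _ ih => cond (Nat.beq q.1 k) (Int.add q.2 ih) ih) L

/-- remove the entries with key k -/
noncomputable def krem (k : ℕ) (L : List (ℕ × ℤ)) : List (ℕ × ℤ) :=
  List.rec [] (fun q _ ih => cond (Nat.beq q.1 k) ih (q :: ih)) L

/-- is this integer zero? -/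
def isz : ℤ → Bool
  | .ofNat n => Nat.beq n 0
  | .negSucc _ => false

/-- is the sparse vector zero? -/
noncomputable def zeroAux (n : ℕ) : List (ℕ × ℤ) → Bool :=
  Nat.rec (fun L => List.rec true (fun _ _ _ => false) L)
    (fun _ f L => List.rec true (fun q M _ =>
      cond (isz (Int.add q.2 (ksum q.1 M))) (f (krem q.1 M)) false) L) n

lemma isz_eq {k : ℤ} (h : isz k = true) : k = 0 := by
  cases k with
  | ofNat n =>
    simp only [isz] at h
    have := Nat.eq_of_beq_eq_true h
    subst this; rfl
  | negSucc n => simp [isz] at h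

lemma cf_axpy (l : ℕ) (a : ℤ) (M tail : List (ℕ × ℤ)) :
    cf l (axpy a M tail) = a * cf l M + cf l tail := by
  induction M with
  | nil => simp [axpy, cf]
  | cons q M ih =>
    have h : axpy a (q :: M) tail = (q.1, Int.mul a q.2) :: axpy a M tail := rfl
    rw [h, cf, cf, ih]
    have h2 : Int.mul a q.2 = a * q.2 := rfl
    simp only [h2]
    split_ifs
    · ring
    · ring

lemma cf_bindR (l : ℕ) (a : ℤ) (f : ℕ → List (ℕ × ℤ)) (L tail : List (ℕ × ℤ)) :
    cf l (bindR a f L tail) = a * (L.map (fun q => q.2 • cf l (f q.1))).sum + cf l tail := by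
  induction L with
  | nil => simp [bindR]
  | cons q L ih =>
    have h : bindR a f (q :: L) tail = axpy (Int.mul a q.2) (f q.1) (bindR a f L tail) := rfl
    rw [h, cf_axpy, ih, List.map_cons, List.sum_cons]
    have h2 : Int.mul a q.2 = a * q.2 := rfl
    rw [h2, smul_eq_mul]
    ring

lemma ksum_eq (k : ℕ) (L : List (ℕ × ℤ)) : ksum k L = cf k L := by
  induction L with
  | nil => rfl
  | cons q L ih =>
    have h : ksum k (q :: L) = cond (Nat.beq q.1 k) (Int.add q.2 (ksum k L)) (ksum k L) := rfl
    rw [h, cf, ← ih]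
    by_cases hq : q.1 = k
    · subst hq
      simp only [Nat.beq_refl, cond_true, if_true]
      rfl
    · have : Nat.beq q.1 k = false := by
        rw [← Bool.not_eq_true, Nat.beq_eq]; exact hq
      rw [this]
      simp [hq]

lemma cf_krem (k l : ℕ) (L : List (ℕ × ℤ)) : cf l (krem k L) = if l = k then 0 else cf l L := by
  induction L with
  | nil => simp [krem, cf]
  | cons q L ih =>
    have h : krem k (q :: L) = cond (Nat.beq q.1 k) (krem k L) (q :: krem k L) := rfl
    rw [h]
    by_cases hq : q.1 = k
    · subst hq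
      simp only [Nat.beq_refl, cond_true, ih, cf]
      by_cases hl : l = q.1
      · simp [hl]
      · have : ¬ (q.1 = l) := fun h => hl h.symm
        simp [hl, this]
    · have : Nat.beq q.1 k = false := by
        rw [← Bool.not_eq_true, Nat.beq_eq]; exact hq
      rw [this]
      simp only [cond_false, cf, ih]
      by_cases hl : l = k
      · subst hl; simp [hq]
      · simp [hl]

lemma zeroAux_ok (n : ℕ) : ∀ L : List (ℕ × ℤ), zeroAux n L = true → ∀ k, cf k L = 0 := by
  induction n with
  | zero =>
    intro L h k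
    cases L with
    | nil => rfl
    | cons q L =>
      have h1 : zeroAux 0 (q :: L) = false := rfl
      rw [h1] at h
      exact absurd h (by simp)
  | succ n ih =>
    intro L h k
    cases L with
    | nil => rfl
    | cons q M =>
      have h1 : zeroAux (n + 1) (q :: M) =
        cond (isz (Int.add q.2 (ksum q.1 M))) (zeroAux n (krem q.1 M)) false := rfl
      rw [h1] at h
      have h2 : isz (Int.add q.2 (ksum q.1 M)) = true := by
        by_contra hc
        rw [Bool.not_eq_true] at hc
        rw [hc] at h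
        exact absurd h (by simp)
      rw [h2, cond_true] at h
      have h3 : q.2 + ksum q.1 M = 0 := isz_eq h2
      rw [ksum_eq] at h3
      have h4 := ih _ h k
      rw [cf_krem] at h4
      rw [cf]
      by_cases hk : q.1 = k
      · subst hk
        simpa using h3
      · rw [if_neg (fun h => hk h.symm)] at h4
        simp [hk, h4]

end Pool.Agent.Helper928.Sep.SuperZ
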