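import Pool.Agent.Helper928.Sep.Chk
set_option autoImplicit false
set_option maxRecDepth 100000

/-! A 56-dimensional superalternative superalgebra over the integers, generated by two odd elements. -/

namespace Pool.Agent.Helper928.Sep.Tab56
open Pool.Agent.Helper928.Sep.SuperZ Pool.Agent.Helper928.Sep.Chk
open Tr

/-- empty entry -/
def e : Tr (List (ℕ × ℤ)) := l []

/-- products of basis vector 0 -/
def r0 : Tr (List (ℕ × ℤ)) := (n (n (n (n (n (n (l [(2, (.ofNat 6))]) (l [(44, (.ofNat 12))])) (n (l [(31, (.ofNat 6))]) e)) (n (n (l [(18, (.ofNat 6))]) (l [(50, (.ofNat 6))])) (n (l [(42, (.ofNat 6))]) e))) (n (n (n (l [(9, (.ofNat 6))]) (l [(44, (.negSucc 5))])) e) (n (n (l [(22, (.ofNat 6))]) e) e))) (n (n (n (n (l [(6, (.ofNat 6))]) (l [(45, (.negSucc 2))])) e) (n (n (l [(20, (.ofNat 6))]) e) e)) (n (n (n e (l [(45, (.negSucc 5))])) (n (l [(42, (.ofNat 6))]) (l [(55, (.ofNat 6))])))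 (n (n (l [(24, (.ofNat 6))]) (l [(52, (.ofNat 6))])) (n (l [(42, (.negSucc 5))]) e))))) (n (n (n (n (n (l [(3, (.ofNat 6))]) (l [(45, (.ofNat 6))])) (n (l [(32, (.ofNat 6))]) (l [(53, (.ofNat 6))]))) (n (n (l [(19, (.ofNat 6))]) (l [(51, (.ofNat 6))])) (n (l [(42, (.ofNat 6)), (43, (.negSucc 11))]) e))) (n (n (n (l [(12, (.ofNat 6))]) (l [(44, (.ofNat 6))])) e) (n (n (l [(23, (.ofNat 6))]) e) (n (l [(43, (.negSucc 5))]) e)))) (n (n (n (n (l [(8, (.ofNat 6))]) (l [(46, (.ofNat 6))])) (n e (l [(53, (.ofNat 18))]))) (n (n (l [(21, (.ofNat 6))]) e) (n (l [(42, (.ofNat 6)), (43, (.negSucc 5))]) e))) (n (n (n e (l [(49, (.ofNat 6))])) (n (l [(43, (.ofNat 6))]) e)) (n (n (l [(25, (.ofNat 6))]) (l [(52, (.ofNat 6))])) (n (l [(44, (.ofNat 6))]) e))))))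

/-- products of basis vector 1 -/
def r1 : Tr (List (ℕ × ℤ)) := (n (n (n (n (n (n (l [(4, (.ofNat 6))]) (l [(49, (.ofNat 6)), (50, (.negSucc 3)), (51, (.ofNat 4))])) (n (l [(39, (.ofNat 6))]) (l [(54, (.ofNat 6))]))) (n (n (l [(26, (.ofNat 6))]) e) (n (l [(44, (.ofNat 6))]) e))) (n (n (n (l [(14, (.ofNat 6))]) (l [(49, (.ofNat 6))])) (n (l [(43, (.ofNat 6))]) e)) (n (n (l [(33, (.ofNat 6))]) e) (n (l [(45, (.negSucc 2))]) e)))) (n (n (n (n (l [(10, (.ofNat 6))]) (l [(49, (.negSucc 5)), (50, (.ofNat 6))])) (n (l [(42, (.ofNat 6))]) e)) (n (n (l [(22, (.negSucc 5)), (23, (.ofNat 6)), (27, (.ofNat 6))]) (l [(52, (.ofNat 6))])) (n (l [(45, (.negSucc 8)), (46, (.ofNat 6))]) e))) (n (n (n (l [(18, (.negSucc 11)), (19, (.ofNat 42)), (20, (.negSucc 29)), (21, (.ofNat 12))]) (l [(49, (.negSucc 5)), (50, (.ofNat 8)), (51, (.ofNat 4))])) (n (l [(44, (.ofNat 6))]) e)) (n (n (l [(35, (.ofNat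 6))]) (l [(53, (.negSucc 5))])) (n (l [(47, (.ofNat 6))]) e))))) (n (n (n (n (n (l [(5, (.ofNat 6))]) (l [(49, (.ofNat 6))])) (n (l [(40, (.ofNat 6))]) e)) (n (n (l [(27, (.ofNat 6))]) e) (n (l [(44, (.negSucc 5)), (45, (.ofNat 6))]) e))) (n (n (n (l [(16, (.ofNat 6))]) (l [(49, (.ofNat 6)), (50, (.negSucc 1)), (51, (.ofNat 2))])) (n (l [(42, (.ofNat 6)), (43, (.negSucc 5))]) e)) (n (n (l [(34, (.ofNat 6))]) e) (n (l [(44, (.negSucc 5)), (45, (.negSucc 8)), (46, (.ofNat 6))]) e)))) (n (n (n (n (l [(13, (.ofNat 6))]) (l [(49, (.ofNat 6)), (50, (.ofNat 2)), (51, (.negSucc 1))])) (n (l [(43, (.ofNat 6))]) e)) (n (n (l [(28, (.ofNat 6))]) e) (n (l [(45, (.ofNat 6))]) e))) (n (n (n (l [(18, (.negSucc 17)), (19, (.ofNat 132)), (20, (.negSucc 131)), (21, (.ofNat 36))]) e) (n (l [(44, (.ofNat 6)), (45, (.negSucc 14)), (46, (.ofNat 6))]) e)) (n (n (l [(36, (.ofNat 6))]) e) (n (l [(50, (.ofNat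 4)), (51, (.ofNat 2))]) e))))))

/-- products of basis vector 2 -/
def r2 : Tr (List (ℕ × ℤ)) := (n (n (n (n (n (n (l [(7, (.ofNat 6))]) (l [(52, (.ofNat 24))])) (n (l [(44, (.ofNat 12)), (48, (.ofNat 6))]) e)) (n (n e (l [(53, (.ofNat 6)), (54, (.negSucc 5))])) e)) (n (n (n (l [(18, (.negSucc 5)), (19, (.negSucc 65)), (20, (.ofNat 78)), (21, (.negSucc 17))]) (l [(52, (.ofNat 6))])) e) (n (n (l [(42, (.ofNat 12)), (43, (.negSucc 17))]) e) e))) (n (n (n (n e (l [(52, (.ofNat 6))])) (n e (l [(55, (.negSucc 5))]))) e) (n (n (n e (l [(52, (.ofNat 6))])) e) (n (n (l [(42, (.ofNat 18)), (43, (.negSucc 23))]) e) e)))) (n (n (n (n (n (l [(11, (.ofNat 6))]) (l [(52, (.negSucc 11))])) (n (l [(44, (.negSucc 17)), (45, (.negSucc 20)), (46, (.ofNat 24)), (47, (.negSucc 5))]) (l [(55, (.ofNat 6))]))) (n (n e (l [(53, (.ofNat 6)), (54, (.negSucc 5))])) e)) (n (n (n (l [(22, (.negSucc 5)), (23, (.ofNat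 6)), (25, (.ofNat 12)), (26, (.ofNat 6)), (28, (.negSucc 5)), (30, (.negSucc 5))]) (l [(52, (.ofNat 12))])) e) (n (n (l [(42, (.negSucc 5))]) e) e))) (n (n (n (n (l [(18, (.ofNat 6)), (19, (.negSucc 35)), (20, (.ofNat 42)), (21, (.negSucc 5))]) (l [(52, (.negSucc 5))])) (n e (l [(55, (.ofNat 12))]))) e) (n (n (n e (l [(53, (.negSucc 17))])) e) (n (n (l [(43, (.negSucc 11))]) e) (n (l [(52, (.ofNat 6))]) e))))))

/-- products of basis vector 3 -/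
def r3 : Tr (List (ℕ × ℤ)) := (n (n (n (n (n (n (l [(8, (.negSucc 5)), (9, (.ofNat 6)), (11, (.ofNat 6))]) (l [(53, (.negSucc 23))])) (n (l [(49, (.ofNat 6)), (50, (.ofNat 6)), (51, (.negSucc 5))]) (l [(55, (.ofNat 6))]))) (n e (n (l [(52, (.ofNat 6))]) e))) (n (n (n (l [(22, (.negSucc 5)), (23, (.ofNat 6)), (24, (.ofNat 6)), (25, (.ofNat 6)), (30, (.negSucc 5))]) (l [(53, (.negSucc 5))])) e) (n (n (l [(44, (.negSucc 17)), (45, (.negSucc 2)), (46, (.ofNat 6))]) e) e))) (n (n (n (n (l [(19, (.ofNat 54)), (20, (.negSucc 53)), (21, (.ofNat 12))]) e) e) (n (n (l [(42, (.ofNat 6)), (43, (.negSucc 5))]) e) (n (l [(52, (.ofNat 12))]) e))) (n (n (n e (l [(53, (.ofNat 6))])) (n (l [(52, (.ofNat 6))]) e)) (n (n (l [(44, (.negSucc 11)), (45, (.negSucc 5)), (46, (.ofNat 12))]) (l [(55, (.negSucc 5))])) (n (l [(52, (.ofNat 18))]) e))))) (n (n (n (n (n (l [(15, (.ofNat 6))]) (l [(53, (.ofNat 12))]))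 (n (l [(50, (.ofNat 6))]) e)) (n (n (l [(42, (.ofNat 6)), (43, (.negSucc 11))]) e) e)) (n (n (n (l [(31, (.ofNat 6)), (32, (.ofNat 6)), (37, (.negSucc 5))]) (l [(53, (.negSucc 11))])) e) (n (n (l [(45, (.ofNat 3)), (48, (.ofNat 6))]) e) e))) (n (n (n (n (l [(23, (.ofNat 6)), (25, (.ofNat 6)), (29, (.negSucc 5))]) (l [(53, (.ofNat 6))])) e) (n (n (l [(42, (.ofNat 6)), (43, (.negSucc 11))]) e) (n (l [(52, (.ofNat 12))]) e))) (n (n e (n (l [(52, (.ofNat 12))]) e)) (n (n (l [(44, (.negSucc 17)), (45, (.negSucc 14)), (46, (.ofNat 12))]) e) e)))))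

/-- products of basis vector 4 -/
def r4 : Tr (List (ℕ × ℤ)) := (n (n (n (n (n (n (l [(8, (.negSucc 5)), (10, (.ofNat 6)), (11, (.ofNat 6))]) (l [(53, (.negSucc 41))])) (n (l [(50, (.ofNat 10)), (51, (.negSucc 3))]) e)) (n (n (l [(42, (.ofNat 6))]) e) (n (l [(52, (.ofNat 12))]) e))) (n (n (n (l [(22, (.negSucc 5)), (23, (.ofNat 6)), (25, (.ofNat 6)), (27, (.ofNat 6)), (30, (.negSucc 5))]) (l [(53, (.negSucc 11))])) e) (n (n (l [(44, (.negSucc 11)), (45, (.negSucc 8)), (46, (.ofNat 6))]) e) e))) (n (n (n (n (l [(18, (.negSucc 11)), (19, (.ofNat 96)), (20, (.negSucc 89)), (21, (.ofNat 24))]) (l [(53, (.ofNat 6))])) e) (n (n (l [(42, (.ofNat 6))]) e) (n (l [(52, (.ofNat 6))]) e))) (n (n e (n (l [(52, (.ofNat 12))]) e)) (n (n (l [(44, (.negSucc 5)), (45, (.negSucc 5)), (46, (.ofNat 6))]) (l [(55, (.negSucc 5))])) (n (l [(52, (.ofNat 6))]) e))))) (n (n (n (n (n (l [(12, (.negSucc 5)),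 (13, (.ofNat 6)), (15, (.ofNat 6))]) (l [(53, (.ofNat 6))])) (n (l [(49, (.ofNat 6)), (50, (.negSucc 3)), (51, (.ofNat 4))]) e)) (n e (n (l [(52, (.ofNat 6))]) e))) (n (n (n (l [(32, (.ofNat 6)), (33, (.ofNat 6)), (37, (.negSucc 5))]) (l [(53, (.negSucc 23))])) e) (n (n (l [(44, (.ofNat 6)), (45, (.negSucc 8)), (46, (.ofNat 6)), (48, (.ofNat 6))]) e) (n (l [(52, (.negSucc 5))]) e)))) (n (n (n (n (l [(25, (.ofNat 6)), (26, (.ofNat 6)), (29, (.negSucc 5))]) e) e) (n (n (l [(42, (.ofNat 12)), (43, (.negSucc 17))]) e) (n (l [(52, (.ofNat 18))]) e))) (n (n e (n (l [(52, (.ofNat 6))]) e)) (n (n (l [(44, (.negSucc 17)), (45, (.negSucc 8)), (46, (.ofNat 12))]) e) (n (l [(53, (.negSucc 5))]) e))))))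

/-- products of basis vector 5 -/
def r5 : Tr (List (ℕ × ℤ)) := (n (n (n (n (n (n (l [(12, (.negSucc 5)), (14, (.ofNat 6)), (15, (.ofNat 6))]) e) e) (n (n (l [(45, (.negSucc 5)), (46, (.ofNat 6))]) e) (n (l [(53, (.negSucc 11))]) e))) (n (n (n (l [(31, (.ofNat 6)), (33, (.negSucc 5)), (35, (.ofNat 6)), (36, (.ofNat 6)), (37, (.negSucc 5))]) e) (n (l [(52, (.ofNat 6))]) e)) (n (n (l [(49, (.ofNat 6)), (50, (.ofNat 2)), (51, (.negSucc 1))]) e) (n (l [(54, (.ofNat 6))]) e)))) (n (n (n (n (l [(23, (.ofNat 6)), (26, (.negSucc 5)), (27, (.ofNat 6)), (28, (.ofNat 6)), (29, (.negSucc 5))]) e) (n (l [(52, (.ofNat 6))]) e)) (n (n (l [(44, (.ofNat 6)), (45, (.negSucc 2)), (46, (.ofNat 6))]) (l [(55, (.negSucc 5))])) (n (l [(53, (.negSucc 5))]) e))) (n (n (n (l [(42, (.ofNat 12)), (43, (.negSucc 29))]) e) (n (l [(53, (.negSucc 11))]) e)) (n (n (l [(49, (.ofNat 6)), (50, (.ofNat 2)), (51, (.negSucc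 1))]) e) (n (l [(53, (.negSucc 5))]) e))))) (n (n (n (n (n (l [(17, (.ofNat 6))]) e) e) (n (n (l [(44, (.negSucc 17)), (45, (.negSucc 14)), (46, (.ofNat 18)), (47, (.negSucc 5)), (48, (.negSucc 5))]) e) (n (l [(53, (.negSucc 5))]) e))) (n (n (n (l [(39, (.ofNat 6)), (40, (.ofNat 6)), (41, (.negSucc 5))]) e) (n (l [(52, (.ofNat 24))]) e)) (n (n (l [(50, (.ofNat 2)), (51, (.negSucc 1))]) e) (n (l [(53, (.ofNat 6)), (54, (.ofNat 6))]) e)))) (n (n (n (n (l [(34, (.ofNat 6)), (36, (.ofNat 6)), (38, (.negSucc 5))]) e) e) (n (n (l [(45, (.negSucc 2)), (47, (.ofNat 6)), (48, (.ofNat 6))]) e) (n (l [(53, (.negSucc 17)), (54, (.negSucc 5))]) e))) (n (n (n (l [(42, (.ofNat 18)), (43, (.negSucc 23))]) e) (n (l [(53, (.negSucc 5)), (54, (.ofNat 6))]) e)) (n (n (l [(49, (.ofNat 6)), (50, (.ofNat 10)), (51, (.negSucc 9))]) e) e)))))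

/-- products of basis vector 6 -/
def r6 : Tr (List (ℕ × ℤ)) := (n (n (n (n (n e (n (l [(52, (.ofNat 6))]) e)) (n (n e (l [(55, (.ofNat 6))])) e)) e) e) (n (n (n (n (n (l [(19, (.negSucc 53)), (20, (.ofNat 60)), (21, (.negSucc 5))]) e) (n (l [(52, (.ofNat 6))]) e)) (n (n e (l [(55, (.ofNat 6))])) e)) (n (n (n (l [(42, (.ofNat 18)), (43, (.negSucc 11))]) e) e) e)) (n e (n (n (n e (l [(55, (.ofNat 6))])) e) e))))

/-- products of basis vector 7 -/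
def r7 : Tr (List (ℕ × ℤ)) := (n (n (n (n e (n (n e (l [(55, (.negSucc 17))])) e)) e) e) (n (n (n (n (n (l [(18, (.ofNat 6)), (19, (.ofNat 18)), (20, (.negSucc 17)), (21, (.ofNat 6))]) e) (n (l [(52, (.ofNat 36))]) e)) e) (n (n (n (l [(42, (.ofNat 6)), (43, (.negSucc 23))]) e) e) e)) e))

/-- products of basis vector 8 -/
def r8 : Tr (List (ℕ × ℤ)) := (n (n (n (n (n (n (l [(18, (.negSucc 5)), (19, (.ofNat 42)), (20, (.negSucc 41)), (21, (.ofNat 12))]) (l [(55, (.ofNat 6))])) (n (l [(53, (.ofNat 6))]) e)) e) (n (n (n (l [(42, (.negSucc 5)), (43, (.ofNat 6))]) (l [(55, (.ofNat 6))])) e) e)) (n (n (n (n e (l [(55, (.negSucc 5))])) e) e) (n (n (n e (l [(55, (.negSucc 5))])) e) (n (n (l [(52, (.ofNat 6))]) e) e)))) (n (n (n (n (n (l [(29, (.ofNat 6))]) (l [(55, (.ofNat 6))])) (n (l [(53, (.negSucc 5)), (54, (.negSucc 5))]) e)) e) (n (n (n (l [(44, (.ofNat 12)), (45, (.ofNat 3)), (48, (.ofNat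 6))]) (l [(55, (.ofNat 6))])) e) e)) (n (n (n (n (l [(42, (.ofNat 6))]) (l [(55, (.ofNat 6))])) e) e) e)))

/-- products of basis vector 9 -/
def r9 : Tr (List (ℕ × ℤ)) := (n (n (n (n (n (n (l [(19, (.ofNat 72)), (20, (.negSucc 71)), (21, (.ofNat 24))]) (l [(55, (.negSucc 11))])) (n (l [(53, (.ofNat 6)), (54, (.negSucc 5))]) e)) e) (n (n (n (l [(42, (.ofNat 12)), (43, (.negSucc 11))]) e) e) (n (n (l [(52, (.ofNat 18))]) e) e))) (n (n (n (n e (l [(55, (.ofNat 6))])) e) e) (n e (n (n (l [(52, (.ofNat 12))]) e) e)))) (n (n (n (n (n (l [(30, (.ofNat 6))]) e) (n (l [(53, (.negSucc 11))]) e)) e) (n (n (n (l [(44, (.ofNat 6)), (45, (.ofNat 9)), (46, (.negSucc 5)), (47, (.ofNat 6))]) (l [(55, (.negSucc 5))])) e) (n (n (l [(52, (.ofNat 12))]) e) e))) (n (n (n (n (l [(42, (.ofNat 24)), (43, (.negSucc 17))]) e) e) e) (n e (n (n (l [(52, (.ofNat 12))]) e) e)))))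

/-- products of basis vector 10 -/
def r10 : Tr (List (ℕ × ℤ)) := (n (n (n (n (n (n (l [(18, (.negSucc 17)), (19, (.ofNat 78)), (20, (.negSucc 71)), (21, (.ofNat 24))]) (l [(55, (.ofNat 6))])) e) e) (n (n (n (l [(42, (.negSucc 11)), (43, (.ofNat 12))]) (l [(55, (.ofNat 6))])) e) (n (n (l [(52, (.ofNat 6))]) e) e))) (n (n (n (n e (l [(55, (.negSucc 5))])) e) e) (n (n (n e (l [(55, (.negSucc 5))])) e) (n (n (l [(52, (.ofNat 6))]) e) e)))) (n (n (n (n (n (l [(22, (.negSucc 5)), (26, (.ofNat 6)), (29, (.ofNat 6))]) (l [(55, (.ofNat 6))])) (n (l [(53, (.negSucc 5)), (54, (.negSucc 5))]) e)) e) (n (n (n (l [(44, (.ofNat 12)), (45, (.ofNat 3)), (48, (.ofNat 6))]) (l [(55, (.ofNat 6))])) e) e)) (n (n (n (n (l [(42, (.ofNat 12)), (43, (.negSucc 5))]) (l [(55, (.ofNat 6))])) e) e) (n e (n (n (l [(52, (.ofNat 6))]) e) e)))))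

/-- products of basis vector 11 -/
def r11 : Tr (List (ℕ × ℤ)) := (n (n (n (n (n (n (l [(18, (.negSucc 5)), (19, (.negSucc 11)), (20, (.ofNat 18)), (21, (.negSucc 5))]) (l [(55, (.ofNat 12))])) (n (l [(53, (.negSucc 17)), (54, (.ofNat 6))]) e)) e) (n (n (n (l [(42, (.ofNat 6)), (43, (.negSucc 5))]) e) e) (n (n (l [(52, (.negSucc 5))]) e) e))) (n (n (n (n e (l [(55, (.negSucc 5))])) e) e) (n e (n (n (l [(52, (.ofNat 6))]) e) e)))) (n (n (n (n (n (l [(23, (.ofNat 6)), (25, (.ofNat 12)), (29, (.negSucc 5)), (30, (.negSucc 5))]) e) (n (l [(53, (.negSucc 11))]) e)) e) (n (n (n (l [(44, (.negSucc 11)), (45, (.negSucc 11)), (46, (.ofNat 12)), (47, (.negSucc 5))]) (l [(55, (.ofNat 6))])) e) e)) (n (n (n (n (l [(42, (.negSucc 17)), (43, (.ofNat 18))]) (l [(55, (.negSucc 5))])) e) e) e)))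

/-- products of basis vector 12 -/
def r12 : Tr (List (ℕ × ℤ)) := (n (n (n (n (n (n (l [(22, (.ofNat 6)), (23, (.negSucc 5)), (24, (.ofNat 6)), (25, (.negSucc 5)), (26, (.negSucc 5)), (28, (.ofNat 6)), (30, (.ofNat 6))]) e) e) (n e (n (l [(55, (.negSucc 5))]) e))) (n (n (n (l [(44, (.negSucc 5)), (45, (.negSucc 8)), (46, (.ofNat 12)), (47, (.negSucc 5))]) e) e) (n (n (l [(53, (.negSucc 5))]) e) e))) (n e (n (n e (n (l [(55, (.negSucc 5))]) e)) (n (n (l [(53, (.negSucc 5))]) e) (n (l [(55, (.ofNat 6))]) e))))) (n (n (n (n (n (l [(37, (.ofNat 6))]) e) e) (n (n (l [(52, (.ofNat 6))]) e) (n (l [(55, (.ofNat 6))]) e))) (n (n (n (l [(49, (.ofNat 6)), (50, (.ofNat 6)), (51, (.negSucc 5))]) e) e) (n (n (l [(54, (.ofNat 6))]) e) (n (l [(55, (.ofNat 6))]) e)))) (n (n (n (n (l [(44, (.negSucc 5)), (48, (.negSucc 5))]) e) e) (n (n (l [(52, (.ofNat 6))]) e) e)) (n (n e (n (l [(55, (.negSucc 5))])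 e)) (n (n (l [(53, (.negSucc 11))]) e) e)))))

/-- products of basis vector 13 -/
def r13 : Tr (List (ℕ × ℤ)) := (n (n (n (n (n (n (l [(25, (.negSucc 5)), (26, (.negSucc 5)), (27, (.ofNat 6)), (28, (.ofNat 6)), (29, (.ofNat 6))]) e) e) e) (n (n (n (l [(44, (.ofNat 6)), (45, (.ofNat 3)), (47, (.negSucc 5)), (48, (.ofNat 6))]) e) e) (n (n (l [(53, (.ofNat 6))]) e) (n (l [(55, (.negSucc 5))]) e)))) (n (n (n (n (l [(43, (.ofNat 6))]) e) e) (n (n (l [(52, (.ofNat 6))]) e) (n (l [(55, (.negSucc 5))]) e))) e)) (n (n (n (n (n (l [(38, (.ofNat 6))]) e) e) (n (n (l [(52, (.ofNat 12))]) e) (n (l [(55, (.ofNat 12))]) e))) (n (n (n (l [(50, (.ofNat 6))]) e) e) (n (n (l [(53, (.ofNat 12)), (54, (.ofNat 6))]) e) (n (l [(55, (.negSucc 5))]) e)))) (n (n (n (n (l [(44, (.ofNat 6))]) e) e) (n (n (l [(52, (.negSucc 11))]) e) (n (l [(55, (.ofNat 12))]) e))) (n (n e (n (l [(55, (.negSucc 17))]) e)) (n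 (n (l [(53, (.negSucc 5))]) e) e)))))

/-- products of basis vector 14 -/
def r14 : Tr (List (ℕ × ℤ)) := (n (n (n (n (n (n (l [(25, (.negSucc 5)), (26, (.negSucc 5)), (27, (.ofNat 6)), (28, (.ofNat 6)), (30, (.ofNat 6))]) e) e) (n e (n (l [(55, (.negSucc 5))]) e))) (n (n (n (l [(44, (.negSucc 5)), (45, (.negSucc 2)), (46, (.ofNat 6)), (47, (.negSucc 5))]) e) e) (n (n (l [(53, (.negSucc 11))]) e) e))) (n (n e (n (n (l [(52, (.negSucc 5))]) e) e)) (n (n e (n (l [(55, (.negSucc 5))]) e)) (n (n (l [(53, (.negSucc 5))]) e) (n (l [(55, (.ofNat 6))]) e))))) (n (n (n (n (n (l [(31, (.negSucc 5)), (34, (.ofNat 6)), (37, (.ofNat 6))]) e) e) (n (n (l [(52, (.ofNat 6))]) e) (n (l [(55, (.ofNat 6))]) e))) (n (n (n (l [(49, (.ofNat 6)), (50, (.ofNat 6)), (51, (.negSucc 5))]) e) e) (n (n (l [(54, (.ofNat 6))]) e) (n (l [(55, (.ofNat 6))]) e)))) (n (n (n (n (l [(44, (.negSucc 5)), (45, (.negSucc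 5)), (46, (.ofNat 6)), (48, (.negSucc 5))]) e) e) (n (n (l [(52, (.ofNat 12))]) e) e)) (n (n e (n (l [(55, (.negSucc 5))]) e)) (n (n (l [(53, (.negSucc 17))]) e) e)))))

/-- products of basis vector 15 -/
def r15 : Tr (List (ℕ × ℤ)) := (n (n (n (n (n (n (l [(22, (.negSucc 5)), (23, (.ofNat 6)), (24, (.ofNat 6)), (25, (.ofNat 12)), (29, (.negSucc 5)), (30, (.negSucc 5))]) e) e) (n (n (l [(52, (.ofNat 12))]) e) e)) (n (n (n (l [(44, (.negSucc 17)), (45, (.negSucc 17)), (46, (.ofNat 18)), (48, (.negSucc 5))]) e) e) (n e (n (l [(55, (.ofNat 6))]) e)))) (n (n (n (n (l [(42, (.ofNat 18)), (43, (.negSucc 23))]) e) e) (n (n (l [(52, (.ofNat 18))]) e) e)) (n e (n (n (l [(53, (.negSucc 5))]) e) e)))) (n (n (n (n (n (l [(31, (.ofNat 6)), (32, (.ofNat 6)), (36, (.ofNat 6)), (37, (.negSucc 5)), (38, (.negSucc 5))]) e) e) (n (n (l [(52, (.ofNat 6))]) e) (n (l [(55, (.negSucc 11))]) e))) (n (n (n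 (l [(49, (.ofNat 6)), (50, (.ofNat 2)), (51, (.negSucc 1))]) e) e) (n (n (l [(53, (.negSucc 11))]) e) e))) (n (n (n (n (l [(45, (.ofNat 3)), (48, (.ofNat 6))]) e) e) (n (n (l [(52, (.ofNat 18))]) e) (n (l [(55, (.negSucc 11))]) e))) (n (n e (n (l [(55, (.ofNat 12))]) e)) (n (n (l [(53, (.negSucc 11))]) e) e)))))

/-- products of basis vector 16 -/
def r16 : Tr (List (ℕ × ℤ)) := (n (n (n (n (n (n (l [(32, (.negSucc 5)), (33, (.negSucc 5)), (35, (.ofNat 6)), (36, (.ofNat 6)), (37, (.ofNat 6))]) e) e) (n (n (l [(53, (.ofNat 6)), (54, (.ofNat 6))]) e) e)) (n (n (n (l [(51, (.ofNat 6))]) e) (n (l [(55, (.negSucc 5))]) e)) e)) (n (n (n (n (l [(44, (.negSucc 11)), (45, (.negSucc 5)), (46, (.ofNat 6)), (47, (.negSucc 5)), (48, (.negSucc 5))]) e) (n (l [(55, (.negSucc 5))]) e)) (n (n (l [(53, (.ofNat 6)), (54, (.ofNat 6))]) e) e)) (n (n (n (l [(52, (.ofNat 18))]) e) e) e))) (n (n (n (n (n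 (l [(41, (.ofNat 6))]) e) e) (n (n (l [(54, (.negSucc 11))]) e) e)) e) (n (n (n (n (l [(49, (.ofNat 6)), (50, (.negSucc 5))]) e) (n (l [(55, (.negSucc 5))]) e)) (n (n (l [(53, (.negSucc 5)), (54, (.ofNat 12))]) e) e)) (n (n (n (l [(52, (.ofNat 6))]) e) e) e))))

/-- products of basis vector 17 -/
def r17 : Tr (List (ℕ × ℤ)) := (n (n (n (n (n (n (l [(31, (.ofNat 6)), (32, (.ofNat 6)), (33, (.negSucc 5)), (35, (.ofNat 6)), (36, (.ofNat 6)), (37, (.negSucc 11))]) e) e) (n (n (l [(53, (.negSucc 17)), (54, (.negSucc 5))]) e) e)) (n (n (n (l [(49, (.ofNat 6)), (50, (.ofNat 10)), (51, (.negSucc 9))]) e) (n (l [(55, (.ofNat 6))]) e)) e)) (n (n (n (n (l [(44, (.ofNat 30)), (45, (.ofNat 9)), (46, (.negSucc 5)), (47, (.ofNat 6)), (48, (.ofNat 6))]) e) e) (n (n (l [(53, (.negSucc 23)), (54, (.negSucc 5))]) e) e)) e)) (n (n (n (n (n (l [(39, (.ofNat 6)), (40, (.ofNat 12)), (41, (.negSucc 11))])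 e) e) (n (n (l [(53, (.negSucc 35))]) e) e)) (n (n e (n (l [(55, (.negSucc 5))]) e)) e)) (n (n (n (n (l [(50, (.ofNat 6)), (51, (.negSucc 5))]) e) (n (l [(55, (.ofNat 6))]) e)) (n (n (l [(53, (.ofNat 6))]) e) e)) (n (n (n (l [(52, (.ofNat 6))]) e) e) e))))

/-- products of basis vector 18 -/
def r18 : Tr (List (ℕ × ℤ)) := (n e (n (n (n (n (n (l [(43, (.negSucc 5))]) e) (n (l [(55, (.negSucc 11))]) e)) e) (n (n (n (l [(52, (.ofNat 6))]) e) e) e)) e))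

/-- products of basis vector 19 -/
def r19 : Tr (List (ℕ × ℤ)) := (n (n (n (n (n e (n (l [(55, (.negSucc 5))]) e)) e) e) e) (n (n (n (n (n (l [(42, (.negSucc 5)), (43, (.negSucc 5))]) e) (n (l [(55, (.negSucc 11))]) e)) e) (n (n (n (l [(52, (.ofNat 6))]) e) e) e)) e))

/-- products of basis vector 20 -/
def r20 : Tr (List (ℕ × ℤ)) := (n (n (n (n (n e (n (l [(55, (.negSucc 5))]) e)) e) e) e) (n (n (n (n (n (l [(43, (.negSucc 11))]) e) (n (l [(55, (.negSucc 11))]) e)) e) (n (n (n (l [(52, (.ofNat 6))]) e) e) e)) e))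

/-- products of basis vector 21 -/
def r21 : Tr (List (ℕ × ℤ)) := (n e (n (n (n (n (n (l [(42, (.ofNat 24)), (43, (.negSucc 23))]) e) (n (l [(55, (.negSucc 5))]) e)) e) (n (n (n (l [(52, (.ofNat 6))]) e) e) e)) e))

/-- products of basis vector 22 -/
def r22 : Tr (List (ℕ × ℤ)) := (n (n (n (n (n (n (l [(42, (.ofNat 6)), (43, (.negSucc 11))]) e) e) e) (n (n (n (l [(52, (.negSucc 5))]) e) e) e)) (n e (n e (n (n (l [(55, (.negSucc 5))]) e) e)))) (n (n (n (n (n (l [(44, (.negSucc 11)), (45, (.negSucc 8)), (46, (.ofNat 6))]) e) e) e) (n (n (n (l [(53, (.negSucc 5))]) e) e) (n (n (l [(55, (.ofNat 6))]) e) e))) (n (n (n (n (l [(52, (.ofNat 6))]) e) e) e) (n e (n (n (l [(55, (.negSucc 5))]) e) e)))))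

/-- products of basis vector 23 -/
def r23 : Tr (List (ℕ × ℤ)) := (n (n (n (n (n (n (l [(42, (.negSucc 5)), (43, (.negSucc 5))]) e) e) e) (n (n (n (l [(52, (.negSucc 11))]) e) e) e)) e) (n (n (n (n (n (l [(48, (.ofNat 6))]) e) e) e) (n (n (n (l [(53, (.negSucc 5)), (54, (.negSucc 5))]) e) e) (n (n (l [(55, (.ofNat 24))]) e) e))) (n e (n e (n (n (l [(55, (.negSucc 17))]) e) e)))))

/-- products of basis vector 24 -/
def r24 : Tr (List (ℕ × ℤ)) := (n (n (n (n (n (n (l [(42, (.ofNat 6)), (43, (.negSucc 17))]) e) e) e) (n (n (n (l [(52, (.negSucc 5))]) e) e) (n (n (l [(55, (.negSucc 5))]) e) e))) (n e (n e (n (n (l [(55, (.negSucc 5))]) e) e)))) (n (n (n (n (n (l [(44, (.negSucc 11)), (45, (.negSucc 8)), (46, (.ofNat 6))]) e) e) e) (n (n (n (l [(53, (.negSucc 5))]) e) e) (n (n (l [(55, (.ofNat 6))]) e) e))) (n (n (n (n (l [(52, (.ofNat 12))]) e) e) e) (n e (n (n (l [(55, (.negSucc 11))])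 e) e)))))

/-- products of basis vector 25 -/
def r25 : Tr (List (ℕ × ℤ)) := (n (n (n (n (n (n (l [(42, (.ofNat 12)), (43, (.negSucc 11))]) e) e) e) (n (n (n (l [(52, (.ofNat 18))]) e) e) (n (n (l [(55, (.negSucc 5))]) e) e))) (n e (n e (n (n (l [(55, (.negSucc 11))]) e) e)))) (n (n (n (n (n (l [(44, (.negSucc 5)), (45, (.negSucc 8)), (46, (.ofNat 12))]) e) e) e) (n (n (n (l [(53, (.negSucc 11))]) e) e) (n (n (l [(55, (.negSucc 17))]) e) e))) (n (n (n (n (l [(52, (.ofNat 12))]) e) e) e) e)))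

/-- products of basis vector 26 -/
def r26 : Tr (List (ℕ × ℤ)) := (n (n (n (n (n (n (l [(42, (.ofNat 6)), (43, (.negSucc 11))]) e) e) e) (n e (n (n (l [(55, (.negSucc 5))]) e) e))) (n e (n e (n (n (l [(55, (.negSucc 5))]) e) e)))) (n (n (n (n (n (l [(44, (.negSucc 5)), (45, (.negSucc 5)), (46, (.ofNat 6))]) e) e) e) (n (n (n (l [(53, (.negSucc 11))]) e) e) (n (n (l [(55, (.ofNat 6))]) e) e))) (n (n (n (n (l [(52, (.ofNat 6))]) e) e) e) (n e (n (n (l [(55, (.negSucc 11))]) e) e)))))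

/-- products of basis vector 27 -/
def r27 : Tr (List (ℕ × ℤ)) := (n (n (n (n (n (n (l [(42, (.ofNat 24)), (43, (.negSucc 29))]) e) e) e) (n (n (n (l [(52, (.ofNat 6))]) e) e) (n (n (l [(55, (.negSucc 11))]) e) e))) (n e (n e (n (n (l [(55, (.negSucc 11))]) e) e)))) (n (n (n (n (n (l [(44, (.negSucc 17)), (45, (.negSucc 20)), (46, (.ofNat 18)), (48, (.negSucc 5))]) e) e) e) (n (n (n (l [(53, (.negSucc 11)), (54, (.ofNat 6))]) e) e) (n (n (l [(55, (.negSucc 11))]) e) e))) (n (n (n (n (l [(52, (.ofNat 18))]) e) e) e) (n e (n (n (l [(55, (.negSucc 5))]) e) e)))))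

/-- products of basis vector 28 -/
def r28 : Tr (List (ℕ × ℤ)) := (n (n (n (n (n (n (l [(42, (.negSucc 5))]) e) e) e) (n (n (n (l [(52, (.ofNat 6))]) e) e) e)) (n e (n e (n (n (l [(55, (.negSucc 5))]) e) e)))) (n (n (n (n (n (l [(45, (.ofNat 6)), (48, (.ofNat 6))]) e) e) e) (n (n (n (l [(53, (.negSucc 5)), (54, (.negSucc 5))]) e) e) e)) (n e (n e (n (n (l [(55, (.negSucc 5))]) e) e)))))

/-- products of basis vector 29 -/
def r29 : Tr (List (ℕ × ℤ)) := (n (n (n (n (n (n (l [(42, (.negSucc 5)), (43, (.ofNat 6))]) e) e) e) (n (n (n (l [(52, (.ofNat 12))]) e) e) e)) e) (n (n (n (n (n (l [(44, (.ofNat 12)), (45, (.ofNat 6)), (48, (.ofNat 6))]) e) e) e) (n (n (n (l [(53, (.negSucc 5)), (54, (.negSucc 5))]) e) e) e)) (n e (n e (n (n (l [(55, (.negSucc 5))]) e) e)))))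

/-- products of basis vector 30 -/
def r30 : Tr (List (ℕ × ℤ)) := (n (n (n (n (n (n (l [(42, (.ofNat 12)), (43, (.negSucc 17))]) e) e) e) (n (n (n (l [(52, (.ofNat 6))]) e) e) (n (n (l [(55, (.negSucc 11))]) e) e))) (n e (n e (n (n (l [(55, (.negSucc 11))]) e) e)))) (n (n (n (n (n (l [(44, (.negSucc 11)), (45, (.negSucc 11)), (46, (.ofNat 12)), (48, (.negSucc 5))]) e) e) e) (n (n (n (l [(53, (.negSucc 11))]) e) e) (n (n (l [(55, (.negSucc 5))]) e) e))) (n (n (n (n (l [(52, (.ofNat 6))]) e) e) e) (n e (n (n (l [(55, (.negSucc 5))]) e) e)))))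

/-- products of basis vector 31 -/
def r31 : Tr (List (ℕ × ℤ)) := (n (n (n (n (n (n (l [(44, (.negSucc 5)), (45, (.negSucc 5)), (46, (.ofNat 6)), (48, (.ofNat 6))]) e) e) (n (n (l [(55, (.ofNat 6))]) e) e)) (n (n (n (l [(54, (.ofNat 6))]) e) e) e)) (n (n (n (n (l [(52, (.negSucc 5))]) e) e) e) e)) (n (n (n (n (n (l [(50, (.ofNat 6))]) e) e) (n (n (l [(55, (.negSucc 11))]) e) e)) e) (n (n (n (n (l [(53, (.negSucc 11))]) e) e) (n (n (l [(55, (.ofNat 6))]) e) e)) e)))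

/-- products of basis vector 32 -/
def r32 : Tr (List (ℕ × ℤ)) := (n (n (n (n (n (n (l [(44, (.negSucc 29)), (45, (.negSucc 26)), (46, (.ofNat 30)), (47, (.negSucc 5))]) e) e) (n (n (l [(55, (.negSucc 11))]) e) e)) (n (n (n (l [(53, (.ofNat 6))]) e) e) e)) (n (n (n (n (l [(52, (.ofNat 12))]) e) e) (n (n (l [(55, (.negSucc 11))]) e) e)) e)) (n (n (n (n (n (l [(49, (.ofNat 6)), (50, (.ofNat 12)), (51, (.negSucc 11))]) e) e) (n (n (l [(55, (.negSucc 11))]) e) e)) e) (n (n (n (n (l [(53, (.negSucc 11)), (54, (.ofNat 6))]) e) e) (n (n (l [(55, (.negSucc 5))]) e) e)) e)))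

/-- products of basis vector 33 -/
def r33 : Tr (List (ℕ × ℤ)) := (n (n (n (n (n (n (l [(44, (.negSucc 5)), (45, (.ofNat 6)), (46, (.negSucc 5)), (47, (.ofNat 6))]) e) e) (n (n (l [(55, (.negSucc 5))]) e) e)) (n (n (n (l [(53, (.negSucc 5))]) e) e) e)) (n (n (n (n (l [(52, (.ofNat 6))]) e) e) (n (n (l [(55, (.negSucc 11))]) e) e)) e)) (n (n (n (n (n (l [(49, (.ofNat 6))]) e) e) (n (n (l [(55, (.negSucc 11))]) e) e)) e) (n (n (n (n (l [(53, (.negSucc 11)), (54, (.negSucc 5))]) e) e) e) e)))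

/-- products of basis vector 34 -/
def r34 : Tr (List (ℕ × ℤ)) := (n (n (n (n (n (n (l [(45, (.ofNat 3)), (48, (.ofNat 6))]) e) e) (n (n (l [(55, (.ofNat 6))]) e) e)) (n (n (n (l [(53, (.negSucc 5)), (54, (.ofNat 6))]) e) e) e)) (n (n (n (n (l [(52, (.negSucc 5))]) e) e) (n (n (l [(55, (.ofNat 6))]) e) e)) e)) (n (n (n (n (n (l [(50, (.ofNat 4)), (51, (.ofNat 2))]) e) e) (n (n (l [(55, (.negSucc 11))]) e) e)) e) (n (n (n (n (l [(53, (.negSucc 11))]) e) e) e) e)))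

/-- products of basis vector 35 -/
def r35 : Tr (List (ℕ × ℤ)) := (n (n (n (n (n (n (l [(44, (.negSucc 5)), (47, (.ofNat 6))]) e) e) (n (n (l [(55, (.negSucc 5))]) e) e)) (n (n (n (l [(53, (.negSucc 5))]) e) e) e)) (n (n (n (n (l [(52, (.ofNat 12))]) e) e) (n (n (l [(55, (.negSucc 5))]) e) e)) e)) (n (n (n e (n (n (l [(55, (.negSucc 11))]) e) e)) e) (n (n (n (n (l [(53, (.negSucc 17)), (54, (.negSucc 5))]) e) e) (n (n (l [(55, (.negSucc 5))]) e) e)) e)))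

/-- products of basis vector 36 -/
def r36 : Tr (List (ℕ × ℤ)) := (n (n (n (n (n (n (l [(44, (.negSucc 11)), (45, (.negSucc 8)), (46, (.ofNat 12)), (47, (.negSucc 5))]) e) e) (n (n (l [(55, (.negSucc 11))]) e) e)) (n (n (n (l [(53, (.negSucc 11)), (54, (.negSucc 5))]) e) e) e)) (n (n (n (n (l [(52, (.ofNat 12))]) e) e) (n (n (l [(55, (.negSucc 17))]) e) e)) e)) (n (n (n (n (n (l [(49, (.ofNat 12)), (50, (.ofNat 4)), (51, (.negSucc 9))]) e) e) (n (n (l [(55, (.negSucc 5))]) e) e)) e) (n (n (n (n (l [(53, (.negSucc 5)), (54, (.ofNat 6))]) e) e) (n (n (l [(55, (.negSucc 5))]) e) e)) e)))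

/-- products of basis vector 37 -/
def r37 : Tr (List (ℕ × ℤ)) := (n (n (n (n (n (n (l [(44, (.negSucc 23)), (45, (.negSucc 17)), (46, (.ofNat 18)), (47, (.negSucc 5))]) e) e) (n (n (l [(55, (.negSucc 5))]) e) e)) e) (n (n (n (n (l [(52, (.ofNat 6))]) e) e) (n (n (l [(55, (.negSucc 11))]) e) e)) e)) (n (n (n (n (n (l [(49, (.ofNat 6)), (50, (.ofNat 8)), (51, (.negSucc 7))]) e) e) (n (n (l [(55, (.negSucc 11))]) e) e)) e) (n (n (n (n (l [(53, (.negSucc 11)), (54, (.ofNat 6))]) e) e) e) e)))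

/-- products of basis vector 38 -/
def r38 : Tr (List (ℕ × ℤ)) := (n (n (n (n (n (n (l [(44, (.ofNat 6)), (45, (.ofNat 9)), (47, (.negSucc 5)), (48, (.ofNat 12))]) e) e) e) (n (n (n (l [(53, (.negSucc 5))]) e) e) e)) e) (n (n (n (n (n (l [(49, (.ofNat 6)), (50, (.ofNat 2)), (51, (.negSucc 1))]) e) e) e) e) (n (n (n (n (l [(54, (.ofNat 6))]) e) e) (n (n (l [(55, (.negSucc 5))]) e) e)) e)))

/-- products of basis vector 39 -/
def r39 : Tr (List (ℕ × ℤ)) := (n (n (n (n (n (n (l [(49, (.ofNat 6)), (50, (.ofNat 10)), (51, (.negSucc 9))]) e) e) e) e) (n (n (n (n (l [(53, (.negSucc 5))]) e) e) e) (n (n (n (l [(55, (.negSucc 11))]) e) e) e))) e)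

/-- products of basis vector 40 -/
def r40 : Tr (List (ℕ × ℤ)) := (n (n (n (n (n (n (l [(50, (.ofNat 6))]) e) e) e) e) (n (n (n (n (l [(53, (.negSucc 11)), (54, (.ofNat 12))]) e) e) e) (n (n (n (l [(55, (.negSucc 11))]) e) e) e))) e)

/-- products of basis vector 41 -/
def r41 : Tr (List (ℕ × ℤ)) := (n (n (n (n (n (n (l [(50, (.ofNat 6))]) e) e) e) e) (n (n (n (n (l [(53, (.ofNat 6)), (54, (.ofNat 12))]) e) e) e) (n (n (n (l [(55, (.negSucc 11))]) e) e) e))) (n e (n e (n (n (n (l [(55, (.ofNat 18))]) e) e) e))))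

/-- products of basis vector 42 -/
def r42 : Tr (List (ℕ × ℤ)) := (n e (n (n e (n (n (n (l [(55, (.ofNat 6))]) e) e) e)) e))

/-- products of basis vector 43 -/
def r43 : Tr (List (ℕ × ℤ)) := (n e (n (n (n (n (n (l [(52, (.negSucc 5))]) e) e) e) (n (n (n (l [(55, (.ofNat 6))]) e) e) e)) e))

/-- products of basis vector 44 -/
def r44 : Tr (List (ℕ × ℤ)) := (n (n (n e (n (n (n (l [(55, (.ofNat 6))]) e) e) e)) e) (n (n (n (n (n (l [(53, (.ofNat 6))]) e) e) e) e) e))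

/-- products of basis vector 45 -/
def r45 : Tr (List (ℕ × ℤ)) := (n (n (n (n (n (n (l [(52, (.ofNat 12))]) e) e) e) e) e) (n e (n (n (n (n (l [(55, (.negSucc 11))]) e) e) e) e)))

/-- products of basis vector 46 -/
def r46 : Tr (List (ℕ × ℤ)) := (n (n (n (n (n (n (l [(52, (.ofNat 18))]) e) e) e) e) e) (n (n (n (n (n (l [(53, (.negSucc 5))]) e) e) e) e) (n (n (n (n (l [(55, (.negSucc 11))]) e) e) e) e)))

/-- products of basis vector 47 -/
def r47 : Tr (List (ℕ × ℤ)) := (n (n (n e (n (n (n (l [(55, (.negSucc 5))]) e) e) e)) e) (n (n (n (n (n (l [(53, (.negSucc 5)), (54, (.negSucc 5))]) e) e) e) e) e))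

/-- products of basis vector 48 -/
def r48 : Tr (List (ℕ × ℤ)) := (n (n (n (n (n (n (l [(52, (.negSucc 5))]) e) e) e) (n (n (n (l [(55, (.negSucc 5))]) e) e) e)) e) (n (n (n (n (n (l [(53, (.negSucc 5))]) e) e) e) e) (n (n (n (n (l [(55, (.ofNat 6))]) e) e) e) e)))

/-- products of basis vector 49 -/
def r49 : Tr (List (ℕ × ℤ)) := (n (n e (n (n (n (n (l [(55, (.negSucc 5))]) e) e) e) e)) e)

/-- products of basis vector 50 -/
def r50 : Tr (List (ℕ × ℤ)) := (n (n (n (n (n (n (l [(53, (.negSucc 5)), (54, (.ofNat 6))]) e) e) e) e) e) e)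

/-- products of basis vector 51 -/
def r51 : Tr (List (ℕ × ℤ)) := (n (n (n (n (n (n (l [(53, (.ofNat 12)), (54, (.ofNat 6))]) e) e) e) e) e) e)

/-- products of basis vector 52 -/
def r52 : Tr (List (ℕ × ℤ)) := (n e (n (n (n (n (n (l [(55, (.negSucc 5))]) e) e) e) e) e))

/-- products of basis vector 53 -/
def r53 : Tr (List (ℕ × ℤ)) := (n (n (n (n (n (n (l [(55, (.ofNat 6))]) e) e) e) e) e) e)

/-- the rows -/
def rows : Tr (Tr (List (ℕ × ℤ))) := (n (n (n (n (n (n (l r0) (l r32)) (n (l r16) (l r48))) (n (n (l r8) (l r40)) (n (l r24) (l e)))) (n (n (n (l r4) (l r36)) (n (l r20) (l r52))) (n (n (l r12) (l r44)) (n (l r28) (l e))))) (n (n (n (n (l r2) (l r34)) (n (l r18) (l r50))) (n (n (l r10) (l r42)) (n (l r26) (l e)))) (n (n (n (l r6) (l r38)) (n (l r22) (l e))) (n (n (l r14) (l r46)) (n (l r30) (l e)))))) (n (n (n (n (n (l r1) (l r33)) (n (l r17) (l r49))) (n (n (l r9) (l r41))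 (n (l r25) (l e)))) (n (n (n (l r5) (l r37)) (n (l r21) (l r53))) (n (n (l r13) (l r45)) (n (l r29) (l e))))) (n (n (n (n (l r3) (l r35)) (n (l r19) (l r51))) (n (n (l r11) (l r43)) (n (l r27) (l e)))) (n (n (n (l r7) (l r39)) (n (l r23) (l e))) (n (n (l r15) (l r47)) (n (l r31) (l e)))))))

/-- first weight -/
def wa : Tr ℕ := (n (n (n (n (n (n (l 0) (l 3)) (n (l 3) (l 3))) (n (n (l 1) (l 4)) (n (l 2) (l 0)))) (n (n (n (l 1) (l 3)) (n (l 1) (l 3))) (n (n (l 2) (l 3)) (n (l 2) (l 0))))) (n (n (n (n (l 0) (l 3)) (n (l 1) (l 4))) (n (n (l 1) (l 2)) (n (l 2) (l 0)))) (n (n (n (l 0) (l 3)) (n (l 2) (l 4))) (n (n (l 2) (l 3)) (n (l 2) (l 0)))))) (n (n (n (n (n (l 1) (l 3)) (n (l 3) (l 4))) (n (n (l 1) (l 4)) (n (l 2) (l 0)))) (n (n (n (l 2) (l 3)) (n (l 1) (l 4))) (n (n (l 2) (l 3)) (n (l 2) (l 0))))) (n (n (n (n (l 1) (l 3)) (n (l 1) (l 4))) (n (n (l 1) (l 2)) (n (l 2) (l 0)))) (n (n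 (n (l 0) (l 4)) (n (l 2) (l 4))) (n (n (l 2) (l 3)) (n (l 3) (l 0)))))))

/-- second weight -/
def wb : Tr ℕ := (n (n (n (n (n (n (l 1) (l 1)) (n (l 0) (l 2))) (n (n (l 2) (l 0)) (n (l 2) (l 0)))) (n (n (n (l 1) (l 1)) (n (l 3) (l 3))) (n (n (l 1) (l 2)) (n (l 2) (l 0))))) (n (n (n (n (l 2) (l 1)) (n (l 3) (l 1))) (n (n (l 2) (l 3)) (n (l 2) (l 0)))) (n (n (n (l 3) (l 1)) (n (l 2) (l 2))) (n (n (l 1) (l 2)) (n (l 2) (l 0)))))) (n (n (n (n (n (l 0) (l 1)) (n (l 0) (l 1))) (n (n (l 2) (l 0)) (n (l 2) (l 0)))) (n (n (n (l 0) (l 1)) (n (l 3) (l 2))) (n (n (l 1) (l 2)) (n (l 2) (l 0))))) (n (n (n (n (l 1) (l 1)) (n (l 3) (l 1))) (n (n (l 2) (l 3)) (n (l 2) (l 0)))) (n (n (n (l 3) (l 0)) (n (l 2) (l 3))) (n (n (l 1) (l 2)) (n (l 1) (l 0)))))))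

/-- the table -/
noncomputable def D : GData := ⟨56, fun i j => (rows.get i).get j, wa.get, wb.get, 4, 3⟩

end Pool.Agent.Helper928.Sep.Tab56
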