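import Pool.Agent.Helper928.Sep.Eval
import Pool.Agent.Helper928.Sep.Ids
set_option autoImplicit false
open scoped TensorProduct

/-! The value of `[c, f]` on the Grassmann envelope. -/

namespace Pool.Agent.Helper928.Sep.Wit
open Pool.Agent.Helper928.Sep Pool.Agent.Helper928.Sep.SuperZ Pool.Agent.Helper928.Sep.Chk
  Pool.Agent.Helper928.Nuc.Ext Pool.Agent.Helper928.Nuc.Tens Pool.Agent.Helper928.Sep.Env
  Pool.Agent.Helper928.Sep.Eval

section
variable (K : Type) [CommRing K]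

/-- coefficients -/
abbrev S : Type := Lam K 7 ⊗[ℤ] Lam ℤ 7

variable {K}

/-- the commuting elements with square zero -/
noncomputable def tt (i : Fin 7) : S K := E K 7 [i] ⊗ₜ[ℤ] E ℤ 7 [i]

lemma tt_comm (i j : Fin 7) : Commute (tt (K := K) i) (tt j) := by
  show tt i * tt j = tt j * tt i
  unfold tt
  rw [Algebra.TensorProduct.tmul_mul_tmul, Algebra.TensorProduct.tmul_mul_tmul, E_swap K 7 [i] [j], E_swap ℤ 7 [i] [j]]
  simp [TensorProduct.neg_tmul, TensorProduct.tmul_neg]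

lemma tt_sq (i : Fin 7) : tt (K := K) i * tt i = 0 := by
  unfold tt
  rw [Algebra.TensorProduct.tmul_mul_tmul, E_sq [i] (by simp), TensorProduct.zero_tmul]

/-- first generic coefficient -/
noncomputable def ta : S K := tt 0 + tt 1 + tt 2 + tt 3
/-- second generic coefficient -/
noncomputable def tb : S K := tt 4 + tt 5 + tt 6

lemma tab_comm : Commute (ta (K := K)) tb := by
  unfold ta tb
  have h : ∀ i, Commute (tt (K := K) i) (tt 4 + tt 5 + tt 6) := fun i =>
    ((tt_comm i 4).add_right (tt_comm i 5)).add_right (tt_comm i 6)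
  exact (((h 0).add_left (h 1)).add_left (h 2)).add_left (h 3)

lemma tab_pow : ta (K := K) ^ 4 * tb ^ 3 =
    144 • (E K 7 (List.ofFn (fun i : Fin 7 => i)) ⊗ₜ[ℤ] E ℤ 7 (List.ofFn (fun i : Fin 7 => i))) := by
  unfold ta tb
  rw [pow4 (tt_comm _ _) (tt_comm _ _) (tt_comm _ _) (tt_comm _ _) (tt_comm _ _) (tt_comm _ _) (tt_sq _) (tt_sq _)
    (tt_sq _) (tt_sq _), pow3 (tt_comm _ _) (tt_comm _ _) (tt_comm _ _) (tt_sq _) (tt_sq _) (tt_sq _),
    smul_mul_assoc, mul_smul_comm, smul_smul, show 24 * 6 = 144 from rfl]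
  have h : tt (K := K) 0 * tt 1 * tt 2 * tt 3 * (tt 4 * tt 5 * tt 6) =
      E K 7 (List.ofFn (fun i : Fin 7 => i)) ⊗ₜ[ℤ] E ℤ 7 (List.ofFn (fun i : Fin 7 => i)) := by
    unfold tt
    simp only [Algebra.TensorProduct.tmul_mul_tmul, ← E_append]
    rfl
  rw [h]

/-- top coefficient -/
noncomputable def theta : S K →+ K :=
  (TensorProduct.lift (LinearMap.mk₂ ℤ (fun (u : Lam K 7) (v : Lam ℤ 7) => (top ℤ 7 v : ℤ) • top K 7 u)
    (fun u u' v => by rw [map_add, smul_add])
    (fun m u v => by rw [map_zsmul, smul_comm])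
    (fun u v v' => by rw [map_add, add_smul])
    (fun m u v => by rw [map_smul, smul_assoc]))).toAddMonoidHom

lemma theta_tmul (u : Lam K 7) (v : Lam ℤ 7) : theta (u ⊗ₜ[ℤ] v : S K) = (top ℤ 7 v : ℤ) • top K 7 u := rfl

lemma theta_top : theta (K := K) (E K 7 (List.ofFn (fun i : Fin 7 => i)) ⊗ₜ[ℤ] E ℤ 7 (List.ofFn (fun i : Fin 7 => i))) = 1 := by
  rw [theta_tmul, top_E, top_E, one_smul]

end

section
variable {K : Type} [CommRing K] {D : Data} {A : Type} [NonUnitalNonAssocRing A]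

/-- the tensor product map as an additive map -/
noncomputable def hadd (g : A →ₙ+* RM D (Lam K 7)) : TS A 7 →+ RM D (S K) :=
  (TensorProduct.lift (LinearMap.mk₂ ℤ (fun (a : A) (u : Lam ℤ 7) => (fun k => (g a : Fin D.N → Lam K 7) k ⊗ₜ[ℤ] u : Fin D.N → S K))
    (fun a b u => by
      funext k
      show (g (a + b) : Fin D.N → Lam K 7) k ⊗ₜ[ℤ] u = _
      rw [map_add]
      exact TensorProduct.add_tmul _ _ _)
    (fun m a u => by
      funext k
      show (g (m • a) : Fin D.N → Lam K 7) k ⊗ₜ[ℤ] u = _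
      rw [map_zsmul]
      exact (TensorProduct.smul_tmul' m ((g a : Fin D.N → Lam K 7) k) u).symm)
    (fun a u v => by funext k; exact TensorProduct.tmul_add _ _ _)
    (fun m a u => by funext k; exact TensorProduct.tmul_smul _ _ _))).toAddMonoidHom

lemma hadd_tm (g : A →ₙ+* RM D (Lam K 7)) (a : A) (u : Lam ℤ 7) :
    hadd g (tm a u) = (fun k => (g a : Fin D.N → Lam K 7) k ⊗ₜ[ℤ] u : Fin D.N → S K) := rfl

lemma TS_ind {A : Type} [NonUnitalNonAssocRing A] {n : ℕ} {p : TS A n → Prop} (h0 : p 0)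
    (ha : ∀ x y, p x → p y → p (x + y)) (ht : ∀ a u, p (tm a u)) (x : TS A n) : p x :=
  TensorProduct.induction_on (motive := fun z : A ⊗[ℤ] ExteriorAlgebra ℤ (Fin n → ℤ) => p z) x h0
    (fun a u => ht a u) (fun x y hx hy => ha x y hx hy)

lemma hadd_mul (g : A →ₙ+* RM D (Lam K 7)) (x y : TS A 7) : hadd g (x * y) = hadd g x * hadd g y := by
  induction x using TS_ind with
  | h0 => rw [zero_mul, map_zero, zero_mul]
  | ha x x' hx hx' => rw [add_mul, map_add, map_add, add_mul, hx, hx']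
  | ht a u =>
    induction y using TS_ind with
    | h0 => rw [mul_zero, map_zero, mul_zero]
    | ha y y' hy hy' => rw [mul_add, map_add, map_add, mul_add, hy, hy']
    | ht b v =>
      rw [tm_mul, hadd_tm, hadd_tm, hadd_tm, map_mul]
      funext k
      show (∑ i : Fin D.N, ∑ j : Fin D.N, D.c i j k • ((g a : Fin D.N → Lam K 7) i * (g b : Fin D.N → Lam K 7) j)) ⊗ₜ[ℤ] (u * v) =
        ∑ i : Fin D.N, ∑ j : Fin D.N, D.c i j k • ((((g a : Fin D.N → Lam K 7) i ⊗ₜ[ℤ] u : S K)) * ((g b : Fin D.N → Lam K 7) j ⊗ₜ[ℤ] v))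
      rw [TensorProduct.sum_tmul]
      refine Finset.sum_congr rfl fun i _ => ?_
      rw [TensorProduct.sum_tmul]
      refine Finset.sum_congr rfl fun j _ => ?_
      rw [Algebra.TensorProduct.tmul_mul_tmul]
      exact (TensorProduct.smul_tmul' _ _ _).symm

/-- the tensor product map -/
noncomputable def hh (g : A →ₙ+* RM D (Lam K 7)) : TS A 7 →ₙ+* RM D (S K) :=
  { hadd g with
    map_mul' := hadd_mul g }

lemma hh_te (g : A →ₙ+* RM D (Lam K 7)) (a : A) (l : List (Fin 7)) :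
    hh g (te a l) = (fun k => (g a : Fin D.N → Lam K 7) k ⊗ₜ[ℤ] E ℤ 7 l : Fin D.N → S K) := rfl

end

section
variable {A B : Type} [NonUnitalNonAssocRing A] [NonUnitalNonAssocRing B] (f : A →ₙ+* B)
lemma map_br (a b : A) : f (br a b) = br (f a) (f b) := by unfold br; simp
lemma map_as (a b c : A) : f (as a b c) = as (f a) (f b) (f c) := by unfold as; simp
lemma map_uu (a : A) : f (uu a) = uu (f a) := by
  unfold uu cc ff; rw [map_br, map_as, map_as, map_mul]
end

end Pool.Agent.Helper928.Sep.Wit
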